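import Pool.Agent.LLN.KorW
import Pool.Agent.LogSc.Nt

open MeasureTheory Set Filter Topology
open scoped ENNReal NNReal

namespace Pool.Agent.LLN

/-! KOR2. Long orders. HINT: `l = Nat.log 2 N`, `k = 4 * (2 * t / l + 2)`, `ω = t / k`; then `k ≤ 40 t / l ≤ 40 l ^ (κ - 1)`,
`l / 40 - 1 ≤ ω ≤ l / 8`, `ω k ≤ t ≤ ω (k + 1)`, and `C k ^ 2 ≤ ω` for large `l` because `2 κ - 2 < 1`.
`r` with `m ^ (q ^ r) = 1 + q ^ ω u`, `¬ q ∣ u` (lifting the exponent: `r + 1 = ω` for `(3, 4)`, `r + 3 = ω` for `(2, 9)`; see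
`LogSc.Nt`: `NT_key`). With `F i = fourier 1 (m ^ i • θ)`: for all `x, y < X` the sums of `F` over `i < N` and over
`q ^ r k! x y ≤ i < N + q ^ r k! x y` differ by at most `2 q ^ r k! X ^ 2`, hence
`‖∑_{i<N} F i‖ ≤ X ^ (-2) ∑_{i<N} ‖∑_(x,y) F (i + q ^ r k! x y)‖ + 2 q ^ r k! X ^ 2`, and
`F (i + q ^ r k! x y) = fourier 1 (g ^ (k! x y) • z)`, `z = m ^ i • θ` of order `q ^ t`, `g = m ^ (q ^ r)`: `korw` with `ε / 2`.
Finally `q ^ r k! X ^ 2 ≤ k! 3 ^ (3 ω) ≤ k! 3 ^ (3 l / 8)`, `3 ^ (3 / 8) < 2 ^ (3 / 5)`, and `k! ≤ k ^ k = 2 ^ (o (l))`,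
`N ≥ 2 ^ l`. -/

/-- the exponent `r` -/
private lemma Kor2_r {q m : ℕ} (hpm : PM q m) {ω : ℕ} (hω : 3 ≤ ω) :
    ∃ r ≤ ω, ∃ u : ℕ, m ^ (q ^ r) = 1 + q ^ ω * u ∧ ¬ q ∣ u := by
  obtain ⟨c, hc3, hc, hp, H⟩ := LogSc.NT_key hpm
  refine ⟨ω - c, Nat.sub_le _ _, ?_⟩
  have he : emultiplicity q (q ^ (ω - c)) = ((ω - c : ℕ) : ℕ∞) :=
    emultiplicity_pow_self_of_prime hp.prime _
  have h1 : q ^ ω ∣ m ^ (q ^ (ω - c)) - 1 := by
    rw [H, he]
    exact_mod_cast (by omega : ω ≤ c + (ω - c))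
  have h2 : ¬ q ^ (ω + 1) ∣ m ^ (q ^ (ω - c)) - 1 := by
    rw [H, he]
    intro hh
    have : ω + 1 ≤ c + (ω - c) := by exact_mod_cast hh
    omega
  obtain ⟨u, hu⟩ := h1
  have hm : 1 ≤ m := by rcases hpm with ⟨_, rfl⟩ | ⟨_, rfl⟩ <;> norm_num
  have hm2 : 1 ≤ m ^ (q ^ (ω - c)) := Nat.one_le_pow _ _ hm
  refine ⟨u, by omega, ?_⟩
  rintro ⟨v, rfl⟩
  apply h2
  rw [hu]
  exact ⟨v, by rw [pow_succ]; ring⟩

/-- shifting a sum of unimodular numbers -/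
private lemma Kor2_shift (F : ℕ → ℂ) (hF : ∀ i, ‖F i‖ ≤ 1) (N h : ℕ) :
    ‖∑ i ∈ Finset.range N, F i - ∑ i ∈ Finset.range N, F (i + h)‖ ≤ 2 * h := by
  have h1 := Finset.sum_range_add F N h
  have h2 := Finset.sum_range_add F h N
  rw [add_comm h N] at h2
  have h3 : ∑ b ∈ Finset.range N, F (b + h) = ∑ b ∈ Finset.range N, F (h + b) :=
    Finset.sum_congr rfl fun b _ => by rw [add_comm]
  have h4 : ∑ i ∈ Finset.range N, F i - ∑ i ∈ Finset.range N, F (i + h) =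
      ∑ i ∈ Finset.range h, F i - ∑ i ∈ Finset.range h, F (N + i) := by
    rw [h3]
    linear_combination h2 - h1
  rw [h4]
  have h5 : ∀ f : ℕ → ℂ, (∀ i, ‖f i‖ ≤ 1) → ‖∑ b ∈ Finset.range h, f b‖ ≤ h := by
    intro f hf
    refine (norm_sum_le _ _).trans ?_
    refine (Finset.sum_le_sum fun i _ => hf i).trans ?_
    rw [Finset.sum_const, Finset.card_range, nsmul_eq_mul, mul_one]
  have h6 := h5 F hF
  have h7 := h5 (fun i => F (N + i)) (fun i => hF _)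
  refine (norm_sub_le _ _).trans ?_
  linarith

/-- the averaging step -/
private lemma Kor2_avg (F : ℕ → ℂ) (hF : ∀ i, ‖F i‖ ≤ 1) (N X D : ℕ) (hX : 0 < X) {δ : ℝ}
    (hδ : ∀ i < N, ‖∑ x ∈ Finset.range X, ∑ y ∈ Finset.range X, F (i + D * (x * y))‖ ≤ δ * (X : ℝ) ^ 2) :
    ‖∑ i ∈ Finset.range N, F i‖ ≤ δ * N + 2 * ((D : ℝ) * (X : ℝ) ^ 2) := by
  have hX0 : (0 : ℝ) < (X : ℝ) ^ 2 := by positivity
  set S : ℂ := ∑ i ∈ Finset.range N, F i with hS
  have h1 : (X : ℂ) ^ 2 * S = ∑ x ∈ Finset.range X, ∑ y ∈ Finset.range X,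
      (S - ∑ i ∈ Finset.range N, F (i + D * (x * y))) +
      ∑ i ∈ Finset.range N, ∑ x ∈ Finset.range X, ∑ y ∈ Finset.range X, F (i + D * (x * y)) := by
    have h2 : ∑ i ∈ Finset.range N, ∑ x ∈ Finset.range X, ∑ y ∈ Finset.range X, F (i + D * (x * y)) =
        ∑ x ∈ Finset.range X, ∑ y ∈ Finset.range X, ∑ i ∈ Finset.range N, F (i + D * (x * y)) := by
      rw [Finset.sum_comm]
      exact Finset.sum_congr rfl fun x _ => Finset.sum_comm
    rw [h2, ← Finset.sum_add_distrib]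
    have h3 : ∀ x ∈ Finset.range X, (∑ y ∈ Finset.range X,
        (S - ∑ i ∈ Finset.range N, F (i + D * (x * y))) +
        ∑ y ∈ Finset.range X, ∑ i ∈ Finset.range N, F (i + D * (x * y))) = (X : ℂ) * S := by
      intro x _
      rw [← Finset.sum_add_distrib]
      rw [Finset.sum_congr rfl fun y _ => sub_add_cancel _ _]
      rw [Finset.sum_const, Finset.card_range, nsmul_eq_mul]
    rw [Finset.sum_congr rfl h3, Finset.sum_const, Finset.card_range, nsmul_eq_mul]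
    ring
  have h4 : ‖∑ x ∈ Finset.range X, ∑ y ∈ Finset.range X,
      (S - ∑ i ∈ Finset.range N, F (i + D * (x * y)))‖ ≤ (X : ℝ) ^ 2 * (2 * ((D : ℝ) * (X : ℝ) ^ 2)) := by
    have h5 : ∀ x ∈ Finset.range X, ∀ y ∈ Finset.range X,
        ‖S - ∑ i ∈ Finset.range N, F (i + D * (x * y))‖ ≤ 2 * ((D : ℝ) * (X : ℝ) ^ 2) := by
      intro x hx y hy
      refine (Kor2_shift F hF N _).trans ?_
      have hx' : x ≤ X := (Finset.mem_range.1 hx).le
      have hy' : y ≤ X := (Finset.mem_range.1 hy).le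
      have h6 : D * (x * y) ≤ D * X ^ 2 := by
        apply Nat.mul_le_mul_left
        rw [sq]
        exact Nat.mul_le_mul hx' hy'
      have h7 : ((D * (x * y) : ℕ) : ℝ) ≤ (D : ℝ) * (X : ℝ) ^ 2 := by exact_mod_cast h6
      linarith
    refine (norm_sum_le _ _).trans ?_
    have h8 : ∀ x ∈ Finset.range X, ‖∑ y ∈ Finset.range X,
        (S - ∑ i ∈ Finset.range N, F (i + D * (x * y)))‖ ≤ (X : ℝ) * (2 * ((D : ℝ) * (X : ℝ) ^ 2)) := by
      intro x hx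
      refine (norm_sum_le _ _).trans ?_
      refine (Finset.sum_le_sum fun y hy => h5 x hx y hy).trans ?_
      rw [Finset.sum_const, Finset.card_range, nsmul_eq_mul]
    refine (Finset.sum_le_sum h8).trans ?_
    rw [Finset.sum_const, Finset.card_range, nsmul_eq_mul]
    exact le_of_eq (by ring)
  have h9 : ‖∑ i ∈ Finset.range N, ∑ x ∈ Finset.range X, ∑ y ∈ Finset.range X, F (i + D * (x * y))‖ ≤
      (N : ℝ) * (δ * (X : ℝ) ^ 2) := by
    refine (norm_sum_le _ _).trans ?_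
    refine (Finset.sum_le_sum fun i hi => hδ i (Finset.mem_range.1 hi)).trans ?_
    rw [Finset.sum_const, Finset.card_range, nsmul_eq_mul]
  have h10 : (X : ℝ) ^ 2 * ‖S‖ ≤ (X : ℝ) ^ 2 * (δ * N + 2 * ((D : ℝ) * (X : ℝ) ^ 2)) := by
    have h11 : (X : ℝ) ^ 2 * ‖S‖ = ‖(X : ℂ) ^ 2 * S‖ := by
      rw [norm_mul, norm_pow, Complex.norm_natCast]
    rw [h11, h1]
    refine (norm_add_le _ _).trans ?_
    linarith
  exact le_of_mul_le_mul_left h10 hX0

/-- growth: the condition on `k` and `ω` for large `l` -/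
private lemma Kor2_growth {κ : ℝ} (h2 : κ < 3 / 2) (C : ℕ) : ∃ l0 : ℕ, ∀ l ≥ l0,
    (C : ℝ) * (40 * (l : ℝ) ^ (κ - 1)) ^ 2 ≤ (l : ℝ) / 40 - 1 := by
  have hpos : 0 < 3 - 2 * κ := by linarith
  have h3 := tendsto_rpow_neg_atTop hpos
  have h4 : Tendsto (fun l : ℕ => (l : ℝ) ^ (-(3 - 2 * κ))) atTop (𝓝 0) :=
    h3.comp tendsto_natCast_atTop_atTop
  have hδ : (0 : ℝ) < 1 / (128000 * ((C : ℝ) + 1)) := by positivity
  have h5 := (h4.eventually (gt_mem_nhds hδ)).and (eventually_ge_atTop 80)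
  rw [eventually_atTop] at h5
  obtain ⟨l0, hl0⟩ := h5
  refine ⟨l0, fun l hl => ?_⟩
  obtain ⟨h6, h7⟩ := hl0 l hl
  have hl80 : (80 : ℝ) ≤ l := by exact_mod_cast h7
  have hlpos : (0 : ℝ) < l := by linarith
  have h8 : ((l : ℝ) ^ (κ - 1)) ^ 2 = (l : ℝ) * (l : ℝ) ^ (-(3 - 2 * κ)) := by
    rw [← Real.rpow_natCast, ← Real.rpow_mul hlpos.le]
    nth_rw 2 [← Real.rpow_one (l : ℝ)]
    rw [← Real.rpow_add hlpos]
    congr 1
    push_cast
    ring
  rw [mul_pow, h8]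
  have h9 : (C : ℝ) * (40 ^ 2 * ((l : ℝ) * (l : ℝ) ^ (-(3 - 2 * κ)))) ≤ (l : ℝ) / 80 := by
    have h10 : (C : ℝ) * (l : ℝ) ^ (-(3 - 2 * κ)) ≤ 1 / 128000 := by
      have h11 : (C : ℝ) * (l : ℝ) ^ (-(3 - 2 * κ)) ≤ ((C : ℝ) + 1) * (1 / (128000 * ((C : ℝ) + 1))) := by
        apply mul_le_mul (by linarith) h6.le (Real.rpow_nonneg hlpos.le _) (by positivity)
      refine h11.trans (le_of_eq ?_)
      field_simp
    calc (C : ℝ) * (40 ^ 2 * ((l : ℝ) * (l : ℝ) ^ (-(3 - 2 * κ))))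
        = 1600 * l * ((C : ℝ) * (l : ℝ) ^ (-(3 - 2 * κ))) := by ring
      _ ≤ 1600 * l * (1 / 128000) := mul_le_mul_of_nonneg_left h10 (by positivity)
      _ = (l : ℝ) / 80 := by ring
  linarith

theorem kor2 {q m : ℕ} (hpm : PM q m) {κ : ℝ} (h1 : 1 < κ) (h2 : κ < 3 / 2) {ε : ℝ} (hε : 0 < ε) :
    ∃ N0 : ℕ, ∀ N ≥ N0, ∀ t : ℕ, Nat.log 2 N ≤ 4 * t → (t : ℝ) ≤ (Nat.log 2 N : ℝ) ^ κ →
      ∀ θ : T, addOrderOf θ = q ^ t →
        ‖∑ i ∈ Finset.range N, fourier 1 (m ^ i • θ)‖ ≤ ε * N := by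
  obtain ⟨C, hC⟩ := korw (half_pos hε)
  set C' : ℕ := C + 5 with hC'
  obtain ⟨l1, hl1⟩ := Kor2_growth h2 C'
  obtain ⟨l2, hl2⟩ := exists_nat_gt (((4 / ε) ^ 40 : ℝ))
  refine ⟨2 ^ (max (max l1 l2) 1), fun N hN t ht4 htκ θ hθ => ?_⟩
  set l := Nat.log 2 N with hl
  have hlge : max (max l1 l2) 1 ≤ l := by
    have := Nat.log_mono_right (b := 2) hN
    rwa [Nat.log_pow (by norm_num)] at this
  have hll1 : l1 ≤ l := (le_max_left _ _).trans ((le_max_left _ _).trans hlge)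
  have hll2 : l2 ≤ l := (le_max_right _ _).trans ((le_max_left _ _).trans hlge)
  have hlone : 1 ≤ l := (le_max_right _ _).trans hlge
  have hNpos : N ≠ 0 := by
    intro h
    rw [h] at hN
    have : 0 < 2 ^ (max (max l1 l2) 1) := by positivity
    omega
  have hNl : 2 ^ l ≤ N := Nat.pow_log_le_self 2 hNpos
  have htpos : 1 ≤ t := by omega
  set a := 2 * t / l with ha
  set k := 4 * (a + 2) with hk
  set ω := t / k with hω
  have hkpos : 0 < k := by rw [hk]; positivity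
  have hlR : (0 : ℝ) < l := by exact_mod_cast hlone
  have htR : (0 : ℝ) < t := by exact_mod_cast htpos
  -- k l ≤ 40 t
  have hal : a * l ≤ 2 * t := Nat.div_mul_le_self _ _
  have hkl : k * l ≤ 40 * t := by
    calc k * l = 4 * (a * l) + 8 * l := by rw [hk]; ring
      _ ≤ 4 * (2 * t) + 8 * (4 * t) := by
          apply Nat.add_le_add <;> apply Nat.mul_le_mul_left <;> assumption
      _ = 40 * t := by ring
  have hal2 : 2 * t < (a + 1) * l := by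
    have := Nat.lt_div_mul_add (a := 2 * t) (b := l) hlone
    calc 2 * t < 2 * t / l * l + l := this
      _ = (a + 1) * l := by rw [ha]; ring
  have h8t : 8 * t ≤ k * l := by
    calc 8 * t = 4 * (2 * t) := by ring
      _ ≤ 4 * ((a + 1) * l) := Nat.mul_le_mul_left _ hal2.le
      _ ≤ 4 * ((a + 2) * l) := by
          apply Nat.mul_le_mul_left; apply Nat.mul_le_mul_right; omega
      _ = k * l := by rw [hk]; ring
  have hωk : ω * k ≤ t := Nat.div_mul_le_self _ _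
  have hω2 : t < ω * k + k := Nat.lt_div_mul_add hkpos
  have h8ω : 8 * ω ≤ l := by
    have h3 : k * (8 * ω) ≤ k * l := by
      calc k * (8 * ω) = 8 * (ω * k) := by ring
        _ ≤ 8 * t := Nat.mul_le_mul_left _ hωk
        _ ≤ k * l := h8t
    exact Nat.le_of_mul_le_mul_left h3 hkpos
  have hkR : (k : ℝ) ≤ 40 * (l : ℝ) ^ (κ - 1) := by
    have h3 : (k : ℝ) * l ≤ 40 * t := by exact_mod_cast hkl
    have h4 : (k : ℝ) * l ≤ (40 * (l : ℝ) ^ (κ - 1)) * l := by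
      calc (k : ℝ) * l ≤ 40 * t := h3
        _ ≤ 40 * (l : ℝ) ^ κ := mul_le_mul_of_nonneg_left htκ (by norm_num)
        _ = (40 * (l : ℝ) ^ (κ - 1)) * l := by
            rw [mul_assoc]
            nth_rw 3 [← Real.rpow_one (l : ℝ)]
            rw [← Real.rpow_add hlR]
            congr 2
            ring
    exact le_of_mul_le_mul_right h4 hlR
  have hωR : (l : ℝ) / 40 - 1 ≤ ω := by
    have h3 : (t : ℝ) < ω * k + k := by exact_mod_cast hω2
    have h4 : (k : ℝ) * l ≤ 40 * t := by exact_mod_cast hkl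
    have hkR0 : (0 : ℝ) < k := by exact_mod_cast hkpos
    have h5 : (k : ℝ) * ((l : ℝ) / 40) ≤ k * (ω + 1) := by
      calc (k : ℝ) * ((l : ℝ) / 40) = (k * l) / 40 := by ring
        _ ≤ t := by linarith
        _ ≤ k * (ω + 1) := by linarith
    have := le_of_mul_le_mul_left h5 hkR0
    linarith
  have hCk : C' * k ^ 2 ≤ ω := by
    have h3 : (C' : ℝ) * (k : ℝ) ^ 2 ≤ ω := by
      calc (C' : ℝ) * (k : ℝ) ^ 2 ≤ (C' : ℝ) * (40 * (l : ℝ) ^ (κ - 1)) ^ 2 := by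
            apply mul_le_mul_of_nonneg_left _ (Nat.cast_nonneg _)
            exact pow_le_pow_left₀ (Nat.cast_nonneg _) hkR 2
        _ ≤ (l : ℝ) / 40 - 1 := hl1 l hll1
        _ ≤ ω := hωR
    exact_mod_cast h3
  have h5k : 5 * k ^ 2 ≤ ω := (Nat.mul_le_mul_right _ (by omega)).trans hCk
  have hCk' : C * k ^ 2 ≤ ω := (Nat.mul_le_mul_right _ (by omega)).trans hCk
  have hk8 : 8 ≤ k := by rw [hk]; exact Nat.mul_le_mul_left 4 (Nat.le_add_left 2 a)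
  have hkk : k ≤ k ^ 2 := by rw [sq]; exact Nat.le_mul_self k
  have hkω : k ≤ ω := by omega
  have hω3 : 3 ≤ ω := by omega
  have hq23 : q = 2 ∨ q = 3 := by
    rcases hpm with ⟨h, _⟩ | ⟨h, _⟩
    · right; exact h
    · left; exact h
  have hq3 : q ≤ 3 := by omega
  have hq0 : 0 < q := by omega
  obtain ⟨X, hX0, hXle, hX⟩ := hC q hq23 k ω hk8 ⟨a + 2, hk⟩ hCk'
  obtain ⟨r, hrω, u, hu, huq⟩ := Kor2_r hpm hω3
  have htω : t ≤ ω * (k + 1) := by
    have : ω * (k + 1) = ω * k + ω := by ring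
    omega
  have hcop : Nat.Coprime q m := by
    rcases hpm with ⟨rfl, rfl⟩ | ⟨rfl, rfl⟩ <;> decide
  -- the character values
  set F : ℕ → ℂ := fun i => fourier 1 (m ^ i • θ) with hF
  have hF1 : ∀ i, ‖F i‖ ≤ 1 := fun i => (Circle.norm_coe _).le
  have hmain := Kor2_avg F hF1 N X (q ^ r * k.factorial) hX0 (δ := ε / 2) (by
    intro i _
    have hz : addOrderOf (m ^ i • θ) = q ^ t := by
      rw [Nat.Coprime.addOrderOf_nsmul, hθ]
      rw [hθ]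
      exact Nat.Coprime.pow _ _ hcop
    have := hX t (m ^ (q ^ r)) u hωk htω hu huq (m ^ i • θ) hz
    refine le_trans (le_of_eq ?_) this
    congr 1
    refine Finset.sum_congr rfl fun x _ => Finset.sum_congr rfl fun y _ => ?_
    simp only [hF]
    congr 1
    rw [← mul_smul, ← pow_mul, ← pow_add]
    congr 2
    ring)
  refine hmain.trans ?_
  -- the error term
  have hfac : k.factorial ≤ 2 ^ (k ^ 2) := by
    calc k.factorial ≤ k ^ k := Nat.factorial_le_pow k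
      _ ≤ (2 ^ k) ^ k := Nat.pow_le_pow_left (Nat.lt_two_pow_self).le k
      _ = 2 ^ (k ^ 2) := by rw [← pow_mul, sq]
  have hA : (q ^ r * X ^ 2) ^ 40 ≤ 2 ^ (24 * l) := by
    have h3 : q ^ r * X ^ 2 ≤ 3 ^ (3 * ω) := by
      calc q ^ r * X ^ 2 ≤ 3 ^ ω * (3 ^ ω) ^ 2 := by
            apply Nat.mul_le_mul
            · exact (Nat.pow_le_pow_left hq3 r).trans (Nat.pow_le_pow_right (by norm_num) hrω)
            · exact Nat.pow_le_pow_left (hXle.trans (Nat.pow_le_pow_left hq3 ω)) 2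
        _ = 3 ^ (3 * ω) := by rw [← pow_mul, ← pow_add]; congr 1; ring
    calc (q ^ r * X ^ 2) ^ 40 ≤ (3 ^ (3 * ω)) ^ 40 := Nat.pow_le_pow_left h3 40
      _ = (3 ^ 5) ^ (24 * ω) := by rw [← pow_mul, ← pow_mul]; congr 1; ring
      _ ≤ (2 ^ 8) ^ (24 * ω) := Nat.pow_le_pow_left (by norm_num) _
      _ = 2 ^ (24 * (8 * ω)) := by rw [← pow_mul]; congr 1; ring
      _ ≤ 2 ^ (24 * l) := Nat.pow_le_pow_right (by norm_num) (Nat.mul_le_mul_left _ h8ω)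
  have hB : k.factorial ^ 40 ≤ 2 ^ l := by
    calc k.factorial ^ 40 ≤ (2 ^ (k ^ 2)) ^ 40 := Nat.pow_le_pow_left hfac 40
      _ = 2 ^ (40 * k ^ 2) := by rw [← pow_mul]; congr 1; ring
      _ ≤ 2 ^ l := Nat.pow_le_pow_right (by norm_num) (by omega)
  have hAB : (q ^ r * k.factorial * X ^ 2) ^ 40 ≤ 2 ^ (25 * l) := by
    calc (q ^ r * k.factorial * X ^ 2) ^ 40 = (q ^ r * X ^ 2) ^ 40 * k.factorial ^ 40 := by
          rw [← mul_pow]; congr 1; ring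
      _ ≤ 2 ^ (24 * l) * 2 ^ l := Nat.mul_le_mul hA hB
      _ = 2 ^ (25 * l) := by rw [← pow_add]; congr 1; ring
  have hABR : ((q ^ r * k.factorial : ℕ) * (X : ℝ) ^ 2) ^ 40 ≤ 2 ^ (25 * l) := by exact_mod_cast hAB
  have hNR : (2 : ℝ) ^ l ≤ N := by exact_mod_cast hNl
  have hfinal : 2 * ((q ^ r * k.factorial : ℕ) * (X : ℝ) ^ 2) ≤ ε / 2 * N := by
    have h3 : (4 / ε * ((q ^ r * k.factorial : ℕ) * (X : ℝ) ^ 2)) ^ 40 ≤ (N : ℝ) ^ 40 := by
      have h4 : (4 / ε) ^ 40 ≤ (2 : ℝ) ^ l := by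
        have h5 : (l : ℝ) ≤ 2 ^ l := by exact_mod_cast (Nat.lt_two_pow_self (n := l)).le
        have h6 : (l2 : ℝ) ≤ l := by exact_mod_cast hll2
        linarith
      calc (4 / ε * ((q ^ r * k.factorial : ℕ) * (X : ℝ) ^ 2)) ^ 40
          = (4 / ε) ^ 40 * ((q ^ r * k.factorial : ℕ) * (X : ℝ) ^ 2) ^ 40 := by rw [mul_pow]
        _ ≤ 2 ^ l * 2 ^ (25 * l) := mul_le_mul h4 hABR (by positivity) (by positivity)
        _ ≤ 2 ^ l * 2 ^ (39 * l) := by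
            apply mul_le_mul_of_nonneg_left _ (by positivity)
            exact pow_le_pow_right₀ (by norm_num) (by omega)
        _ = (2 ^ l) ^ 40 := by rw [← pow_add, ← pow_mul]; congr 1; ring
        _ ≤ (N : ℝ) ^ 40 := pow_le_pow_left₀ (by positivity) hNR 40
    have h7 := le_of_pow_le_pow_left₀ (by norm_num) (Nat.cast_nonneg N) h3
    have h8 : 2 * ((q ^ r * k.factorial : ℕ) * (X : ℝ) ^ 2) =
        ε / 2 * (4 / ε * ((q ^ r * k.factorial : ℕ) * (X : ℝ) ^ 2)) := by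
      field_simp
      ring
    rw [h8]
    exact mul_le_mul_of_nonneg_left h7 (by positivity)
  linarith

end Pool.Agent.LLN
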