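import Pool.Agent.LLN.Kor1
import Pool.Agent.LLN.Kor2

open MeasureTheory Set Filter Topology
open scoped ENNReal NNReal

namespace Pool.Agent.LLN

/-! KOR. Combination and the multipliers `p`. HINT: `kor1` if `4 t < Nat.log 2 N` (`3 ^ t ≤ 2 ^ (l / 2) ≤ ε N` as `3 ^ (1/4) <
2 ^ (1/2)`), else `kor2`. For `korp`: even and odd `i`, `m = p ^ 2`, the points `θ` and `p • θ` both have order `q ^ t`,
lengths `(N + 1) / 2`, `N / 2`; apply `kor` with an exponent `κ' ∈ (κ, 3/2)`: `l ^ κ ≤ (l - 1) ^ κ'` for large `l`. -/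

theorem kor {q m : ℕ} (hpm : PM q m) {κ : ℝ} (h1 : 1 < κ) (h2 : κ < 3 / 2) {ε : ℝ} (hε : 0 < ε) :
    ∃ N0 : ℕ, ∀ N ≥ N0, ∀ t : ℕ, 5 ≤ t → (t : ℝ) ≤ (Nat.log 2 N : ℝ) ^ κ →
      ∀ θ : T, addOrderOf θ = q ^ t →
        ‖∑ i ∈ Finset.range N, fourier 1 (m ^ i • θ)‖ ≤ ε * N := by
  obtain ⟨N2, hN2⟩ := kor2 hpm h1 h2 hε
  obtain ⟨N1, hN1⟩ := exists_nat_ge (1 / ε ^ 2)
  refine ⟨max N2 (N1 + 1), fun N hN t ht htl θ hθ => ?_⟩
  have hNN2 : N2 ≤ N := (le_max_left _ _).trans hN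
  have hNN1 : N1 + 1 ≤ N := (le_max_right _ _).trans hN
  by_cases h4 : Nat.log 2 N ≤ 4 * t
  · exact hN2 N hNN2 t h4 htl θ hθ
  · push Not at h4
    have hN0 : N ≠ 0 := by omega
    have hq : q ≤ 4 := by
      rcases hpm with h | h <;> omega
    have e1 : (q ^ t) ^ 2 ≤ N := by
      calc (q ^ t) ^ 2 ≤ (4 ^ t) ^ 2 := Nat.pow_le_pow_left (Nat.pow_le_pow_left hq t) 2
        _ = 2 ^ (4 * t) := by
          rw [show (4 : ℕ) = 2 ^ 2 by norm_num, ← pow_mul, ← pow_mul]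
          congr 1
          ring
        _ ≤ 2 ^ Nat.log 2 N := Nat.pow_le_pow_right (by norm_num) h4.le
        _ ≤ N := Nat.pow_log_le_self 2 hN0
    have e2 : ((q : ℝ) ^ t) ^ 2 ≤ (ε * N) ^ 2 := by
      have e3 : ((q : ℝ) ^ t) ^ 2 ≤ N := by exact_mod_cast e1
      refine e3.trans ?_
      have e4 : 1 / ε ^ 2 ≤ (N : ℝ) := hN1.trans (by exact_mod_cast (by omega : N1 ≤ N))
      rw [div_le_iff₀ (by positivity)] at e4
      have e5 : (0 : ℝ) ≤ N := Nat.cast_nonneg N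
      nlinarith
    refine (kor1 hpm ht hθ N).trans ?_
    exact (pow_le_pow_iff_left₀ (by positivity) (by positivity) (by norm_num)).1 e2

private theorem kor_split (f : ℕ → ℂ) (N : ℕ) :
    ∑ i ∈ Finset.range N, f i = ∑ j ∈ Finset.range ((N + 1) / 2), f (2 * j) +
      ∑ j ∈ Finset.range (N / 2), f (2 * j + 1) := by
  induction N with
  | zero => simp
  | succ N ih =>
    rw [Finset.sum_range_succ, ih]
    rcases Nat.even_or_odd' N with ⟨k, rfl | rfl⟩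
    · have a1 : (2 * k + 1 + 1) / 2 = k + 1 := by omega
      have a2 : (2 * k + 1) / 2 = k := by omega
      have a3 : 2 * k / 2 = k := by omega
      rw [a1, a2, a3, Finset.sum_range_succ]
      ring
    · have a1 : (2 * k + 1 + 1 + 1) / 2 = k + 1 := by omega
      have a2 : (2 * k + 1 + 1) / 2 = k + 1 := by omega
      have a3 : (2 * k + 1) / 2 = k := by omega
      rw [a1, a2, a3, Finset.sum_range_succ (fun j => f (2 * j + 1))]
      ring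

private theorem kor_exp {κ κ' : ℝ} (h1 : 1 < κ) (h2 : κ < κ') :
    ∃ l0 : ℕ, ∀ l ≥ l0, (l : ℝ) ^ κ ≤ ((l - 1 : ℕ) : ℝ) ^ κ' := by
  have h3 : Tendsto (fun l : ℕ => ((l : ℝ)) ^ (κ' - κ)) atTop atTop :=
    (tendsto_rpow_atTop (by linarith)).comp tendsto_natCast_atTop_atTop
  obtain ⟨l1, hl1⟩ := (h3.eventually_ge_atTop ((2 : ℝ) ^ κ)).exists_forall_of_atTop
  refine ⟨l1 + 2, fun l hl => ?_⟩
  have h4 := hl1 (l - 1) (by omega)
  have h5 : (l : ℝ) ≤ 2 * ((l - 1 : ℕ) : ℝ) := by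
    exact_mod_cast (by omega : l ≤ 2 * (l - 1))
  have h6 : (0 : ℝ) < ((l - 1 : ℕ) : ℝ) := by
    exact_mod_cast (by omega : 0 < l - 1)
  calc (l : ℝ) ^ κ ≤ (2 * ((l - 1 : ℕ) : ℝ)) ^ κ :=
        Real.rpow_le_rpow (Nat.cast_nonneg l) h5 (by linarith)
    _ = 2 ^ κ * ((l - 1 : ℕ) : ℝ) ^ κ := Real.mul_rpow (by norm_num) h6.le
    _ ≤ ((l - 1 : ℕ) : ℝ) ^ (κ' - κ) * ((l - 1 : ℕ) : ℝ) ^ κ :=
        mul_le_mul_of_nonneg_right h4 (by positivity)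
    _ = ((l - 1 : ℕ) : ℝ) ^ κ' := by
        rw [← Real.rpow_add h6]
        congr 1
        ring

theorem korp {p q : ℕ} (hpq : (p = 2 ∧ q = 3) ∨ (p = 3 ∧ q = 2)) {κ : ℝ} (h1 : 1 < κ)
    (h2 : κ < 3 / 2) {ε : ℝ} (hε : 0 < ε) :
    ∃ N0 : ℕ, ∀ N ≥ N0, ∀ t : ℕ, 5 ≤ t → (t : ℝ) ≤ (Nat.log 2 N : ℝ) ^ κ →
      ∀ θ : T, addOrderOf θ = q ^ t →
        ‖∑ i ∈ Finset.range N, fourier 1 (p ^ i • θ)‖ ≤ ε * N := by
  have hpm : PM q (p ^ 2) := by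
    rcases hpq with ⟨rfl, rfl⟩ | ⟨rfl, rfl⟩
    · left; norm_num
    · right; norm_num
  have hcop : Nat.Coprime p q := by
    rcases hpq with ⟨rfl, rfl⟩ | ⟨rfl, rfl⟩ <;> norm_num
  set κ' : ℝ := (κ + 3 / 2) / 2 with hκ'
  have hκ1 : κ < κ' := by rw [hκ']; linarith
  have hκ2 : κ' < 3 / 2 := by rw [hκ']; linarith
  obtain ⟨N1, hN1⟩ := kor hpm (h1.trans hκ1) hκ2 hε
  obtain ⟨l0, hl0⟩ := kor_exp h1 hκ1
  refine ⟨max (2 * N1 + 2) (2 ^ l0), fun N hN t ht htl θ hθ => ?_⟩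
  have hNa : 2 * N1 + 2 ≤ N := (le_max_left _ _).trans hN
  have hNb : 2 ^ l0 ≤ N := (le_max_right _ _).trans hN
  have hlog : l0 ≤ Nat.log 2 N := Nat.le_log_of_pow_le (by norm_num) hNb
  have hl := hl0 _ hlog
  have key : ∀ N' : ℕ, N / 2 ≤ N' → (t : ℝ) ≤ (Nat.log 2 N' : ℝ) ^ κ' := by
    intro N' hN'
    refine (htl.trans hl).trans ?_
    refine Real.rpow_le_rpow (Nat.cast_nonneg _) ?_ (by linarith)
    have h3 : Nat.log 2 (N / 2) = Nat.log 2 N - 1 := Nat.log_div_base 2 N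
    have h4 : Nat.log 2 (N / 2) ≤ Nat.log 2 N' := Nat.log_mono_right hN'
    exact_mod_cast (by omega : Nat.log 2 N - 1 ≤ Nat.log 2 N')
  have hord : addOrderOf (p • θ) = q ^ t := by
    rw [← hθ]
    apply Nat.Coprime.addOrderOf_nsmul
    rw [hθ]
    exact (hcop.symm.pow_left t)
  have hA := hN1 ((N + 1) / 2) (by omega) t ht (key _ (by omega)) θ hθ
  have hB := hN1 (N / 2) (by omega) t ht (key _ le_rfl) (p • θ) hord
  have e1 : ∑ i ∈ Finset.range N, fourier 1 (p ^ i • θ) =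
      ∑ j ∈ Finset.range ((N + 1) / 2), fourier 1 ((p ^ 2) ^ j • θ) +
        ∑ j ∈ Finset.range (N / 2), fourier 1 ((p ^ 2) ^ j • (p • θ)) := by
    rw [kor_split (fun i => fourier 1 (p ^ i • θ)) N]
    congr 1
    · refine Finset.sum_congr rfl fun j _ => ?_
      rw [pow_mul]
    · refine Finset.sum_congr rfl fun j _ => ?_
      rw [← mul_smul, pow_add, pow_mul, pow_one]
  rw [e1]
  refine (norm_add_le _ _).trans ((add_le_add hA hB).trans (le_of_eq ?_))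
  rw [← mul_add]
  congr 1
  exact_mod_cast (by omega : (N + 1) / 2 + N / 2 = N)

end Pool.Agent.LLN
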