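import Pool.Agent.LLN.Defs

open MeasureTheory Set Filter Topology
open scoped ENNReal NNReal

namespace Pool.Agent.LLN

/-- tuples -/
def BilA_P (s X : ℕ) : Finset (Fin s → ℕ) := Fintype.piFinset fun _ : Fin s => Finset.range X

/-- sum of the points of a tuple -/
def BilA_S (k : ℕ) {s : ℕ} (x : Fin s → ℕ) : Fin k → ℤ := ∑ i, nu k (x i)

/-- number of pairs of tuples with difference `l` -/
def BilA_R (k s X : ℕ) (l : Fin k → ℤ) : ℕ :=
  ((BilA_P s X ×ˢ BilA_P s X).filter (fun z => BilA_S k z.1 - BilA_S k z.2 = l)).card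

/-- the box -/
noncomputable def BilA_box (k s X : ℕ) : Finset (Fin k → ℤ) :=
  Fintype.piFinset (fun i : Fin k =>
    Finset.Icc (-((s * X ^ (i.val + 1) : ℕ) : ℤ)) ((s * X ^ (i.val + 1) : ℕ) : ℤ))

theorem BilA_R_zero (k s X : ℕ) : BilA_R k s X 0 = J k s (Finset.range X) := by
  unfold BilA_R J En BilA_P BilA_S
  congr 1
  ext z
  simp only [Finset.mem_filter, sub_eq_zero]

theorem BilA_R_le (k s X : ℕ) (l : Fin k → ℤ) : BilA_R k s X l ≤ J k s (Finset.range X) := by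
  rw [← BilA_R_zero]
  classical
  set P := BilA_P s X with hP
  set V := P.image (BilA_S k) with hV
  set c : (Fin k → ℤ) → ℕ := fun v => (P.filter (fun x => BilA_S k x = v)).card with hc
  have hR : ∀ m : Fin k → ℤ, BilA_R k s X m = ∑ v ∈ V, c v * c (v - m) := by
    intro m
    unfold BilA_R
    rw [← hP]
    have h1 : ∀ z ∈ (P ×ˢ P).filter (fun z => BilA_S k z.1 - BilA_S k z.2 = m),
        BilA_S k z.1 ∈ V := by
      intro z hz
      rw [Finset.mem_filter, Finset.mem_product] at hz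
      exact Finset.mem_image_of_mem _ hz.1.1
    rw [Finset.card_eq_sum_card_fiberwise h1]
    refine Finset.sum_congr rfl fun v _ => ?_
    rw [hc, ← Finset.card_product]
    congr 1
    ext z
    simp only [Finset.mem_filter, Finset.mem_product]
    constructor
    · rintro ⟨⟨⟨h2, h3⟩, h4⟩, h5⟩
      refine ⟨⟨h2, h5⟩, h3, ?_⟩
      rw [← h5, ← h4]
      abel
    · rintro ⟨⟨h2, h5⟩, h3, h4⟩
      refine ⟨⟨⟨h2, h3⟩, ?_⟩, h5⟩
      rw [h5, h4]
      abel
  have h2 : ∀ v, 2 * (c v * c (v - l)) ≤ c v * c v + c (v - l) * c (v - l) := by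
    intro v
    have : (2 * ((c v : ℤ) * c (v - l)) : ℤ) ≤ c v * c v + c (v - l) * c (v - l) := by
      nlinarith [sq_nonneg ((c v : ℤ) - c (v - l))]
    exact_mod_cast this
  have h3 : ∑ v ∈ V, c (v - l) * c (v - l) ≤ ∑ v ∈ V, c v * c v := by
    have h4 : ∑ v ∈ V, c (v - l) * c (v - l) = ∑ w ∈ V.image (fun v => v - l), c w * c w := by
      refine (Finset.sum_image (s := V) (g := fun v => v - l) (f := fun w => c w * c w) ?_).symm
      intro a _ b _ hab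
      have : a - l = b - l := hab
      exact sub_left_injective this
    rw [h4]
    have h5 : ∑ w ∈ V.image (fun v => v - l), c w * c w =
        ∑ w ∈ (V.image (fun v => v - l)).filter (fun w => w ∈ V), c w * c w := by
      rw [Finset.sum_filter_of_ne]
      intro w _ hw
      by_contra hcon
      apply hw
      have h0 : c w = 0 := by
        rw [hc]
        simp only [Finset.card_eq_zero]
        rw [Finset.filter_eq_empty_iff]
        intro x hx hxw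
        exact hcon (hxw ▸ Finset.mem_image_of_mem _ hx)
      rw [h0, mul_zero]
    rw [h5]
    refine Finset.sum_le_sum_of_subset ?_
    intro w hw
    exact (Finset.mem_filter.1 hw).2
  have h6 : 2 * BilA_R k s X l ≤ 2 * BilA_R k s X 0 := by
    rw [hR l, hR 0, Finset.mul_sum]
    calc ∑ v ∈ V, 2 * (c v * c (v - l)) ≤ ∑ v ∈ V, (c v * c v + c (v - l) * c (v - l)) :=
          Finset.sum_le_sum fun v _ => h2 v
      _ = ∑ v ∈ V, c v * c v + ∑ v ∈ V, c (v - l) * c (v - l) := Finset.sum_add_distrib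
      _ ≤ ∑ v ∈ V, c v * c v + ∑ v ∈ V, c v * c v := Nat.add_le_add_left h3 _
      _ = 2 * ∑ v ∈ V, c v * c (v - 0) := by
          rw [two_mul]
          simp only [sub_zero]
  omega

theorem BilA_mem_box {k s X : ℕ} {z : (Fin s → ℕ) × (Fin s → ℕ)} (hz : z ∈ BilA_P s X ×ˢ BilA_P s X) :
    BilA_S k z.1 - BilA_S k z.2 ∈ BilA_box k s X := by
  have hb : ∀ x ∈ BilA_P s X, ∀ i : Fin k, 0 ≤ BilA_S k x i ∧
      BilA_S k x i ≤ ((s * X ^ (i.val + 1) : ℕ) : ℤ) := by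
    intro x hx i
    unfold BilA_P at hx
    rw [Fintype.mem_piFinset] at hx
    have hx' : ∀ j, x j < X := fun j => Finset.mem_range.1 (hx j)
    unfold BilA_S
    rw [Finset.sum_apply]
    unfold nu
    constructor
    · exact Finset.sum_nonneg fun j _ => by positivity
    · calc ∑ j : Fin s, (x j : ℤ) ^ (i.val + 1) ≤ ∑ j : Fin s, (X : ℤ) ^ (i.val + 1) := by
            refine Finset.sum_le_sum fun j _ => ?_
            exact pow_le_pow_left₀ (by positivity) (by exact_mod_cast (hx' j).le) _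
        _ = ((s * X ^ (i.val + 1) : ℕ) : ℤ) := by
            rw [Finset.sum_const, Finset.card_univ, Fintype.card_fin, nsmul_eq_mul]
            push_cast
            ring
  rw [Finset.mem_product] at hz
  unfold BilA_box
  rw [Fintype.mem_piFinset]
  intro i
  rw [Finset.mem_Icc, Pi.sub_apply]
  have h1 := hb z.1 hz.1 i
  have h2 := hb z.2 hz.2 i
  constructor <;> linarith [h1.1, h1.2, h2.1, h2.2]

/-- grouping of pairs -/
theorem BilA_group (k s X : ℕ) (g : (Fin k → ℤ) → ℂ) :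
    ∑ z ∈ BilA_P s X ×ˢ BilA_P s X, g (BilA_S k z.1 - BilA_S k z.2) =
      ∑ l ∈ BilA_box k s X, (BilA_R k s X l : ℂ) * g l := by
  rw [← Finset.sum_fiberwise_of_maps_to (fun z hz => BilA_mem_box hz)]
  refine Finset.sum_congr rfl fun l _ => ?_
  unfold BilA_R
  rw [← nsmul_eq_mul, ← Finset.sum_const]
  refine Finset.sum_congr rfl fun z hz => ?_
  rw [(Finset.mem_filter.1 hz).2]

theorem BilA_sumR (k s X : ℕ) : ∑ l ∈ BilA_box k s X, BilA_R k s X l = X ^ (2 * s) := by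
  have h1 : (BilA_P s X ×ˢ BilA_P s X).card = X ^ (2 * s) := by
    unfold BilA_P
    rw [Finset.card_product, Fintype.card_piFinset]
    simp only [Finset.card_range, Finset.prod_const, Finset.card_univ, Fintype.card_fin]
    rw [← pow_add, two_mul]
  rw [← h1]
  unfold BilA_R
  rw [← Finset.card_eq_sum_card_fiberwise]
  intro z hz
  exact BilA_mem_box hz

/-- expansion of an even power of a sum of characters -/
theorem BilA_expand (k s X : ℕ) (ψ : (Fin k → ℤ) → ℂ) (hadd : ∀ a b, ψ (a + b) = ψ a * ψ b)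
    (hnorm : ∀ a, ‖ψ a‖ = 1) :
    ((‖∑ x ∈ Finset.range X, ψ (nu k x)‖ ^ (2 * s) : ℝ) : ℂ) =
      ∑ l ∈ BilA_box k s X, (BilA_R k s X l : ℂ) * ψ l := by
  have h0 : ψ 0 = 1 := by
    have h1 := hadd 0 0
    rw [add_zero] at h1
    have h2 : ψ 0 ≠ 0 := by
      intro h
      have := hnorm 0
      rw [h, norm_zero] at this
      exact zero_ne_one this
    exact (mul_left_cancel₀ h2 (by rw [mul_one]; exact h1)).symm
  have hneg : ∀ a, ψ (-a) = (starRingEnd ℂ) (ψ a) := by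
    intro a
    have h1 := hadd a (-a)
    rw [add_neg_cancel, h0] at h1
    have h2 : ψ a * (starRingEnd ℂ) (ψ a) = 1 := by
      rw [Complex.mul_conj, Complex.normSq_eq_norm_sq, hnorm]
      norm_num
    have h3 : ψ a ≠ 0 := by
      intro h
      rw [h, zero_mul] at h2
      exact zero_ne_one h2
    exact mul_left_cancel₀ h3 (by rw [← h1, h2])
  have hsum : ∀ x : Fin s → ℕ, ψ (BilA_S k x) = ∏ i, ψ (nu k (x i)) := by
    intro x
    unfold BilA_S
    have h3 : ∀ A : Finset (Fin s), ψ (∑ i ∈ A, nu k (x i)) = ∏ i ∈ A, ψ (nu k (x i)) := by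
      intro A
      induction A using Finset.induction_on with
      | empty => simp [h0]
      | insert a A ha ih => rw [Finset.sum_insert ha, Finset.prod_insert ha, hadd, ih]
    exact h3 Finset.univ
  have hpow : (∑ x ∈ Finset.range X, ψ (nu k x)) ^ s = ∑ x ∈ BilA_P s X, ψ (BilA_S k x) := by
    unfold BilA_P
    rw [Finset.sum_congr rfl fun x _ => hsum x]
    have := (Finset.prod_univ_sum (fun _ : Fin s => Finset.range X)
      (fun (_ : Fin s) (x : ℕ) => ψ (nu k x)))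
    rw [← this, Finset.prod_const, Finset.card_univ, Fintype.card_fin]
  have h4 : ((‖∑ x ∈ Finset.range X, ψ (nu k x)‖ ^ (2 * s) : ℝ) : ℂ) =
      (∑ x ∈ Finset.range X, ψ (nu k x)) ^ s * (starRingEnd ℂ) ((∑ x ∈ Finset.range X, ψ (nu k x)) ^ s) := by
    rw [Complex.mul_conj, Complex.normSq_eq_norm_sq, norm_pow, ← pow_mul, mul_comm s 2]
  rw [h4, hpow, map_sum, Finset.sum_mul_sum, ← Finset.sum_product', ← BilA_group k s X ψ]
  refine Finset.sum_congr rfl fun z _ => ?_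
  rw [sub_eq_add_neg, hadd, hneg]

theorem BilA_add {k : ℕ} (α : Fin k → T) (c : Fin k → ℤ) (a b : Fin k → ℤ) :
    (fourier 1 (∑ i : Fin k, (c i * (a + b) i) • α i) : ℂ) =
      fourier 1 (∑ i : Fin k, (c i * a i) • α i) * fourier 1 (∑ i : Fin k, (c i * b i) • α i) := by
  have h : ∑ i : Fin k, (c i * (a + b) i) • α i =
      ∑ i : Fin k, (c i * a i) • α i + ∑ i : Fin k, (c i * b i) • α i := by
    rw [← Finset.sum_add_distrib]
    refine Finset.sum_congr rfl fun i _ => ?_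
    rw [← add_smul, Pi.add_apply, mul_add]
  rw [h, fourier_apply, fourier_apply, fourier_apply, one_zsmul, one_zsmul, one_zsmul,
    AddCircle.toCircle_add, Circle.coe_mul]

/-! BILA. First half of the bilinear lemma. HINT: for `y < X` put `F_y = ∑_x fourier 1 (∑_i (x y)^i α_i)`;
`‖∑_y F_y‖ ^ (2 s) ≤ X ^ (2 s - 1) ∑_y ‖F_y‖ ^ (2 s)` and `‖F_y‖ ^ (2 s) = ∑_l R(l) fourier 1 (∑_i y^i l_i α_i)` with
`R(l)` the number of pairs of `s`-tuples with `∑ x_j ^ i - ∑ x'_j ^ i = l_i`; so `‖W‖ ^ (2 s) ≤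
X ^ (2 s - 1) ∑_l R(l) ‖U(l)‖`, `U(l) = ∑_y fourier 1 (∑_i y^i l_i α_i)`. Then Hoelder: `(∑ R ‖U‖) ^ s ≤
(∑ R) ^ (s - 1) ∑ R ‖U‖ ^ s`, `(∑ R ‖U‖ ^ s) ^ 2 ≤ ∑ R ^ 2 * ∑_box ‖U‖ ^ (2 s)`, `∑ R = X ^ (2 s)`,
`R(l) ≤ R(0) = J k s (range X)`. The sum over `l` is over the box `|l_i| ≤ s X ^ i`. -/

theorem bilA {k s X : ℕ} (hs : 1 ≤ s) (hX : 1 ≤ X) (α : Fin k → T) :
    ‖∑ x ∈ Finset.range X, ∑ y ∈ Finset.range X,
      fourier 1 (∑ i : Fin k, (x * y) ^ (i.val + 1) • α i)‖ ^ (4 * s ^ 2) ≤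
      (X : ℝ) ^ (8 * s ^ 2 - 4 * s) * (J k s (Finset.range X) : ℝ) *
        ∑ l ∈ Fintype.piFinset (fun i : Fin k =>
          Finset.Icc (-((s * X ^ (i.val + 1) : ℕ) : ℤ)) ((s * X ^ (i.val + 1) : ℕ) : ℤ)),
          ‖∑ y ∈ Finset.range X, fourier 1 (∑ i : Fin k, (((y : ℤ) ^ (i.val + 1)) * l i) • α i)‖ ^
            (2 * s) := by
  obtain ⟨n, rfl⟩ : ∃ n, s = n + 1 := ⟨s - 1, by omega⟩
  set s := n + 1 with hsdef
  have hX0 : (0 : ℝ) < X := by exact_mod_cast hX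
  set F : ℕ → ℂ := fun y => ∑ x ∈ Finset.range X, fourier 1 (∑ i : Fin k, (x * y) ^ (i.val + 1) • α i) with hF
  set ψ : ℕ → (Fin k → ℤ) → ℂ := fun y l =>
    fourier 1 (∑ i : Fin k, (((y : ℤ) ^ (i.val + 1)) * l i) • α i) with hψ
  set R : (Fin k → ℤ) → ℝ := fun l => (BilA_R k s X l : ℝ) with hRdef
  set U : (Fin k → ℤ) → ℂ := fun l => ∑ y ∈ Finset.range X, ψ y l with hU
  set box := BilA_box k s X with hbox
  have hR0 : ∀ l, 0 ≤ R l := fun l => Nat.cast_nonneg _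
  have hFψ : ∀ y, F y = ∑ x ∈ Finset.range X, ψ y (nu k x) := by
    intro y
    refine Finset.sum_congr rfl fun x _ => ?_
    simp only [hψ, nu]
    congr 1
    refine Finset.sum_congr rfl fun i _ => ?_
    rw [← natCast_zsmul]
    congr 1
    push_cast
    ring
  have hFe : ∀ y, ((‖F y‖ ^ (2 * s) : ℝ) : ℂ) = ∑ l ∈ box, (BilA_R k s X l : ℂ) * ψ y l := by
    intro y
    rw [hFψ]
    refine BilA_expand k s X (ψ y) (fun a b => ?_) (fun a => ?_)
    · exact BilA_add α (fun i => (y : ℤ) ^ (i.val + 1)) a b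
    · exact Circle.norm_coe _
  -- step 1
  have h1 : ∑ y ∈ Finset.range X, ‖F y‖ ^ (2 * s) ≤ ∑ l ∈ box, R l * ‖U l‖ := by
    have h2 : ((∑ y ∈ Finset.range X, ‖F y‖ ^ (2 * s) : ℝ) : ℂ) = ∑ l ∈ box, (BilA_R k s X l : ℂ) * U l := by
      rw [Complex.ofReal_sum, Finset.sum_congr rfl fun y _ => hFe y, Finset.sum_comm]
      refine Finset.sum_congr rfl fun l _ => ?_
      rw [hU, Finset.mul_sum]
    have h3 : ∑ y ∈ Finset.range X, ‖F y‖ ^ (2 * s) = ‖∑ l ∈ box, (BilA_R k s X l : ℂ) * U l‖ := by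
      rw [← h2, Complex.norm_real, Real.norm_of_nonneg]
      exact Finset.sum_nonneg fun _ _ => by positivity
    rw [h3]
    refine (norm_sum_le _ _).trans (Finset.sum_le_sum fun l _ => ?_)
    rw [norm_mul, Complex.norm_natCast]
  set W : ℂ := ∑ x ∈ Finset.range X, ∑ y ∈ Finset.range X,
      fourier 1 (∑ i : Fin k, (x * y) ^ (i.val + 1) • α i) with hW
  have hWF : W = ∑ y ∈ Finset.range X, F y := by
    rw [hW, Finset.sum_comm]
  -- step 2
  have h4 : ‖W‖ ^ (2 * s) ≤ (X : ℝ) ^ (2 * n + 1) * ∑ l ∈ box, R l * ‖U l‖ := by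
    have h5 : ‖W‖ ≤ ∑ y ∈ Finset.range X, ‖F y‖ := by
      rw [hWF]; exact norm_sum_le _ _
    have h6 := pow_sum_div_card_le_sum_pow (s := Finset.range X) (f := fun y => ‖F y‖)
      (fun _ _ => norm_nonneg _) (2 * n + 1)
    rw [Finset.card_range, div_le_iff₀ (by positivity)] at h6
    have h7 : 2 * s = 2 * n + 1 + 1 := by omega
    calc ‖W‖ ^ (2 * s) ≤ (∑ y ∈ Finset.range X, ‖F y‖) ^ (2 * s) :=
          pow_le_pow_left₀ (norm_nonneg _) h5 _
      _ ≤ (∑ y ∈ Finset.range X, ‖F y‖ ^ (2 * s)) * (X : ℝ) ^ (2 * n + 1) := by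
          rw [h7]; exact h6
      _ ≤ (∑ l ∈ box, R l * ‖U l‖) * (X : ℝ) ^ (2 * n + 1) :=
          mul_le_mul_of_nonneg_right h1 (by positivity)
      _ = (X : ℝ) ^ (2 * n + 1) * ∑ l ∈ box, R l * ‖U l‖ := mul_comm _ _
  have hsumR : ∑ l ∈ box, R l = (X : ℝ) ^ (2 * s) := by
    have := BilA_sumR k s X
    rw [hRdef, ← Nat.cast_sum, this]
    push_cast
    ring
  -- step 3
  have h8 : (∑ l ∈ box, R l * ‖U l‖) ^ s ≤ (X : ℝ) ^ (2 * s * n) * ∑ l ∈ box, R l * ‖U l‖ ^ s := by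
    have hpos : (0 : ℝ) < (X : ℝ) ^ (2 * s) := by positivity
    have h9 := Real.pow_arith_mean_le_arith_mean_pow box (fun l => R l / (X : ℝ) ^ (2 * s))
      (fun l => ‖U l‖) (fun l _ => div_nonneg (hR0 l) hpos.le)
      (by rw [← Finset.sum_div, hsumR, div_self hpos.ne']) (fun l _ => norm_nonneg _) s
    have h10 : ∑ l ∈ box, R l / (X : ℝ) ^ (2 * s) * ‖U l‖ = (∑ l ∈ box, R l * ‖U l‖) / (X : ℝ) ^ (2 * s) := by
      rw [Finset.sum_div]
      exact Finset.sum_congr rfl fun l _ => by ring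
    have h11 : ∑ l ∈ box, R l / (X : ℝ) ^ (2 * s) * ‖U l‖ ^ s =
        (∑ l ∈ box, R l * ‖U l‖ ^ s) / (X : ℝ) ^ (2 * s) := by
      rw [Finset.sum_div]
      exact Finset.sum_congr rfl fun l _ => by ring
    rw [h10, h11, div_pow, div_le_div_iff₀ (by positivity) hpos] at h9
    have h12 : ((X : ℝ) ^ (2 * s)) ^ s = (X : ℝ) ^ (2 * s * n) * (X : ℝ) ^ (2 * s) := by
      rw [← pow_mul, ← pow_add]
      have h22 : 2 * s * s = 2 * s * n + 2 * s := by
        rw [hsdef]; ring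
      rw [h22]
    rw [h12] at h9
    have h13 : (∑ l ∈ box, R l * ‖U l‖) ^ s * (X : ℝ) ^ (2 * s) ≤
        ((X : ℝ) ^ (2 * s * n) * ∑ l ∈ box, R l * ‖U l‖ ^ s) * (X : ℝ) ^ (2 * s) := by
      calc _ ≤ (∑ l ∈ box, R l * ‖U l‖ ^ s) * ((X : ℝ) ^ (2 * s * n) * (X : ℝ) ^ (2 * s)) := h9
        _ = _ := by ring
    exact le_of_mul_le_mul_right h13 hpos
  -- step 4
  have h14 : (∑ l ∈ box, R l * ‖U l‖ ^ s) ^ 2 ≤
      ((J k s (Finset.range X) : ℝ) * (X : ℝ) ^ (2 * s)) * ∑ l ∈ box, ‖U l‖ ^ (2 * s) := by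
    have h15 := Finset.sum_mul_sq_le_sq_mul_sq box R (fun l => ‖U l‖ ^ s)
    have h16 : ∑ l ∈ box, R l ^ 2 ≤ (J k s (Finset.range X) : ℝ) * (X : ℝ) ^ (2 * s) := by
      rw [← hsumR, Finset.mul_sum]
      refine Finset.sum_le_sum fun l _ => ?_
      rw [sq]
      have h18 : R l ≤ (J k s (Finset.range X) : ℝ) := by
        simp only [hRdef]
        exact_mod_cast BilA_R_le k s X l
      exact mul_le_mul_of_nonneg_right h18 (hR0 l)
    have h17 : ∑ l ∈ box, (‖U l‖ ^ s) ^ 2 = ∑ l ∈ box, ‖U l‖ ^ (2 * s) := by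
      refine Finset.sum_congr rfl fun l _ => ?_
      rw [← pow_mul, mul_comm]
    rw [h17] at h15
    exact h15.trans (mul_le_mul_of_nonneg_right h16 (Finset.sum_nonneg fun _ _ => by positivity))
  -- conclusion
  have h20 : ‖W‖ ^ (4 * s ^ 2) ≤ (X : ℝ) ^ (8 * s ^ 2 - 4 * s) * (J k s (Finset.range X) : ℝ) *
      ∑ l ∈ box, ‖U l‖ ^ (2 * s) := by
    have hA0 : 0 ≤ ∑ l ∈ box, R l * ‖U l‖ :=
      Finset.sum_nonneg fun l _ => mul_nonneg (hR0 l) (norm_nonneg _)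
    have hB0 : 0 ≤ ∑ l ∈ box, R l * ‖U l‖ ^ s :=
      Finset.sum_nonneg fun l _ => mul_nonneg (hR0 l) (by positivity)
    calc ‖W‖ ^ (4 * s ^ 2) = (‖W‖ ^ (2 * s)) ^ (2 * s) := by
          rw [← pow_mul]; congr 1; ring
      _ ≤ ((X : ℝ) ^ (2 * n + 1) * ∑ l ∈ box, R l * ‖U l‖) ^ (2 * s) :=
          pow_le_pow_left₀ (by positivity) h4 _
      _ = ((X : ℝ) ^ ((2 * n + 1) * (2 * s))) * ((∑ l ∈ box, R l * ‖U l‖) ^ s) ^ 2 := by
          rw [mul_pow, ← pow_mul, ← pow_mul, mul_comm s 2]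
      _ ≤ ((X : ℝ) ^ ((2 * n + 1) * (2 * s))) *
          ((X : ℝ) ^ (2 * s * n) * ∑ l ∈ box, R l * ‖U l‖ ^ s) ^ 2 := by
          refine mul_le_mul_of_nonneg_left ?_ (by positivity)
          exact pow_le_pow_left₀ (by positivity) h8 2
      _ = ((X : ℝ) ^ ((2 * n + 1) * (2 * s) + 2 * s * n * 2)) * (∑ l ∈ box, R l * ‖U l‖ ^ s) ^ 2 := by
          rw [mul_pow, ← pow_mul, pow_add]; ring
      _ ≤ ((X : ℝ) ^ ((2 * n + 1) * (2 * s) + 2 * s * n * 2)) *
          (((J k s (Finset.range X) : ℝ) * (X : ℝ) ^ (2 * s)) * ∑ l ∈ box, ‖U l‖ ^ (2 * s)) :=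
          mul_le_mul_of_nonneg_left h14 (by positivity)
      _ = ((X : ℝ) ^ ((2 * n + 1) * (2 * s) + 2 * s * n * 2) * (X : ℝ) ^ (2 * s)) *
          (J k s (Finset.range X) : ℝ) * ∑ l ∈ box, ‖U l‖ ^ (2 * s) := by ring
      _ = _ := by
          rw [← pow_add]
          congr 3
          have h21 : 8 * s ^ 2 = ((2 * n + 1) * (2 * s) + 2 * s * n * 2 + 2 * s) + 4 * s := by
            rw [hsdef]; ring
          omega
  exact h20

end Pool.Agent.LLN
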