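import Pool.Agent.LLN.BilA

open MeasureTheory Set Filter Topology
open scoped ENNReal NNReal

namespace Pool.Agent.LLN

/-! BILB. Second half. HINT: expand `‖∑_y‖ ^ (2 s) = ∑_m R(m) fourier 1 (∑_i m_i l_i α_i)`, exchange the sums,
`R(m) ≤ J k s (range X)`, `m` in the same box, and `Finset.prod_univ_sum` / `Finset.sum_prod_piFinset` for the sums
over boxes. -/

private lemma BilB_prod {k : ℕ} (α : Fin k → T) (m l : Fin k → ℤ) :
    (fourier 1 (∑ i : Fin k, (m i * l i) • α i) : ℂ) = ∏ i : Fin k, fourier (l i * m i) (α i) := by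
  have h0 : ∀ A : Finset (Fin k), (fourier 1 (∑ i ∈ A, (m i * l i) • α i) : ℂ) =
      ∏ i ∈ A, fourier (l i * m i) (α i) := by
    intro A
    induction A using Finset.induction_on with
    | empty => simp
    | insert a A ha ih =>
      rw [Finset.sum_insert ha, Finset.prod_insert ha, ← ih, fourier_apply, fourier_apply,
        fourier_apply, one_zsmul, one_zsmul, AddCircle.toCircle_add, Circle.coe_mul, mul_comm (m a)]
  exact h0 Finset.univ

theorem bilB {k s X : ℕ} (hs : 1 ≤ s) (hX : 1 ≤ X) (α : Fin k → T) :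
    ∑ l ∈ Fintype.piFinset (fun i : Fin k =>
      Finset.Icc (-((s * X ^ (i.val + 1) : ℕ) : ℤ)) ((s * X ^ (i.val + 1) : ℕ) : ℤ)),
      ‖∑ y ∈ Finset.range X, fourier 1 (∑ i : Fin k, (((y : ℤ) ^ (i.val + 1)) * l i) • α i)‖ ^
        (2 * s) ≤
      (J k s (Finset.range X) : ℝ) * ∏ i : Fin k, Vb (s * X ^ (i.val + 1)) (α i) := by
  set box := BilA_box k s X with hbox
  set φ : (Fin k → ℤ) → (Fin k → ℤ) → ℂ := fun l m => fourier 1 (∑ i : Fin k, (m i * l i) • α i) with hφ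
  have hexp : ∀ l : Fin k → ℤ,
      ((‖∑ y ∈ Finset.range X, (fourier 1 (∑ i : Fin k, (((y : ℤ) ^ (i.val + 1)) * l i) • α i) : ℂ)‖ ^
        (2 * s) : ℝ) : ℂ) = ∑ m ∈ box, (BilA_R k s X m : ℂ) * φ l m := by
    intro l
    refine BilA_expand k s X (φ l) (fun a b => ?_) (fun a => ?_)
    · have := BilA_add α l a b
      simp only [hφ]
      have hc : ∀ u : Fin k → ℤ, ∑ i : Fin k, (u i * l i) • α i = ∑ i : Fin k, (l i * u i) • α i :=
        fun u => Finset.sum_congr rfl fun i _ => by rw [mul_comm]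
      rw [hc, hc, hc]
      exact this
    · exact Circle.norm_coe _
  have h1 : ((∑ l ∈ box,
      ‖∑ y ∈ Finset.range X, (fourier 1 (∑ i : Fin k, (((y : ℤ) ^ (i.val + 1)) * l i) • α i) : ℂ)‖ ^
        (2 * s) : ℝ) : ℂ) = ∑ m ∈ box, (BilA_R k s X m : ℂ) * ∑ l ∈ box, φ l m := by
    rw [Complex.ofReal_sum, Finset.sum_congr rfl fun l _ => hexp l, Finset.sum_comm]
    exact Finset.sum_congr rfl fun m _ => by rw [Finset.mul_sum]
  have h2 : ∑ l ∈ box,
      ‖∑ y ∈ Finset.range X, (fourier 1 (∑ i : Fin k, (((y : ℤ) ^ (i.val + 1)) * l i) • α i) : ℂ)‖ ^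
        (2 * s) = ‖∑ m ∈ box, (BilA_R k s X m : ℂ) * ∑ l ∈ box, φ l m‖ := by
    rw [← h1, Complex.norm_real, Real.norm_of_nonneg]
    exact Finset.sum_nonneg fun _ _ => by positivity
  have h3 : ∀ m : Fin k → ℤ, ‖∑ l ∈ box, φ l m‖ = ∏ i : Fin k,
      ‖∑ l ∈ Finset.Icc (-((s * X ^ (i.val + 1) : ℕ) : ℤ)) ((s * X ^ (i.val + 1) : ℕ) : ℤ),
        (fourier (l * m i) (α i) : ℂ)‖ := by
    intro m
    rw [← norm_prod]
    congr 1
    rw [Finset.prod_univ_sum]
    refine Finset.sum_congr rfl fun l _ => ?_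
    exact BilB_prod α m l
  have h4 : ∑ m ∈ box, ‖∑ l ∈ box, φ l m‖ = ∏ i : Fin k, Vb (s * X ^ (i.val + 1)) (α i) := by
    unfold Vb
    rw [Finset.prod_univ_sum]
    exact Finset.sum_congr rfl fun m _ => h3 m
  calc _ = ‖∑ m ∈ box, (BilA_R k s X m : ℂ) * ∑ l ∈ box, φ l m‖ := h2
    _ ≤ ∑ m ∈ box, ‖(BilA_R k s X m : ℂ) * ∑ l ∈ box, φ l m‖ := norm_sum_le _ _
    _ ≤ ∑ m ∈ box, (J k s (Finset.range X) : ℝ) * ‖∑ l ∈ box, φ l m‖ := by
        refine Finset.sum_le_sum fun m _ => ?_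
        rw [norm_mul, Complex.norm_natCast]
        exact mul_le_mul_of_nonneg_right (by exact_mod_cast BilA_R_le k s X m) (norm_nonneg _)
    _ = _ := by rw [← Finset.mul_sum, h4]

end Pool.Agent.LLN
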