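import Pool.Agent.LLN.Defs

open MeasureTheory Set Filter Topology
open scoped ENNReal NNReal

namespace Pool.Agent.LLN

/-! VBD. Bounds for `Vb`. HINT: Cauchy-Schwarz `Vb ^ 2 ≤ (2 H + 1) ∑_μ ‖..‖ ^ 2`; the inner sums are
`Q`-periodic in `μ`, at most `(2 H + 1) / Q + 1` values of `μ` in each class; orthogonality over a period. -/

private lemma VBD_norm1 (n : ℤ) (x : T) : ‖(fourier n x : ℂ)‖ = 1 := by
  rw [fourier_apply]; exact Circle.norm_coe _

private lemma VBD_cardIcc (H : ℕ) : ((Finset.Icc (-(H : ℤ)) H).card : ℝ) = 2 * H + 1 := by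
  rw [Int.card_Icc]
  have : ((H : ℤ) + 1 - -(H : ℤ)).toNat = 2 * H + 1 := by omega
  rw [this]; push_cast; ring

theorem vb_trivial (H : ℕ) (α : T) : Vb H α ≤ (2 * H + 1 : ℝ) ^ 2 := by
  unfold Vb
  have h1 : ∀ μ ∈ Finset.Icc (-(H:ℤ)) H,
      ‖∑ l ∈ Finset.Icc (-(H : ℤ)) H, (fourier (l * μ) α : ℂ)‖ ≤ (2 * H + 1 : ℝ) := by
    intro μ _
    refine (norm_sum_le _ _).trans ?_
    simp only [VBD_norm1, Finset.sum_const, nsmul_eq_mul, mul_one]
    exact (VBD_cardIcc H).le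
  refine (Finset.sum_le_sum h1).trans ?_
  simp only [Finset.sum_const, nsmul_eq_mul]
  rw [VBD_cardIcc]
  exact (sq _).ge

private lemma VBD_card (H Q : ℕ) (hQ : 0 < Q) (v : ℤ) :
    (((Finset.Icc (-(H:ℤ)) H).filter (fun x => x ≡ v [ZMOD Q])).card : ℝ) ≤ (2 * H + 1) / Q + 1 := by
  have e : Finset.Icc (-(H:ℤ)) H = Finset.Ioc (-(H:ℤ) - 1) H := by
    ext x; simp only [Finset.mem_Icc, Finset.mem_Ioc]; omega
  have hQ' : (0:ℤ) < (Q:ℤ) := by exact_mod_cast hQ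
  have hc := Int.Ioc_filter_modEq_card (-(H:ℤ) - 1) (H:ℤ) hQ' v
  rw [← e] at hc
  have hc' : ((((Finset.Icc (-(H:ℤ)) H).filter (fun x => x ≡ v [ZMOD Q])).card : ℤ) : ℚ) ≤
      (2 * H + 1) / Q + 1 := by
    rw [hc]
    push_cast
    apply max_le
    · have h1 := Int.floor_le (((H:ℚ) - v) / (Q:ℚ))
      have h2 := Int.lt_floor_add_one ((-(H:ℚ) - 1 - v) / (Q:ℚ))
      have h3 : ((H:ℚ) - v) / (Q:ℚ) - ((-(H:ℚ) - 1 - v) / (Q:ℚ)) = (2 * H + 1) / Q := by
        rw [← sub_div]; congr 1; ring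
      linarith
    · positivity
  have := (Rat.cast_le (K := ℝ)).2 hc'
  push_cast at this
  exact this

private lemma VBD_orth {Q : ℕ} {α : T} (hα : addOrderOf α = Q) (n : ℤ) :
    ∑ r ∈ Finset.range Q, (fourier (n * (r:ℤ)) α : ℂ) = if (Q:ℤ) ∣ n then (Q:ℂ) else 0 := by
  have h1 : ∀ r : ℕ, (fourier (n * (r:ℤ)) α : ℂ) = (fourier n α : ℂ) ^ r := by
    intro r
    rw [fourier_apply, fourier_apply, mul_comm, mul_smul, natCast_zsmul, AddCircle.toCircle_nsmul]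
    simp
  simp only [h1]
  have hz : (fourier n α : ℂ) = 1 ↔ (Q:ℤ) ∣ n := by
    rw [fourier_apply]
    rw [← hα, addOrderOf_dvd_iff_zsmul_eq_zero]
    constructor
    · intro h
      have h2 : AddCircle.toCircle (n • α) = AddCircle.toCircle (0 : T) := by
        apply Circle.ext
        rw [h, AddCircle.toCircle_zero]; simp
      exact AddCircle.injective_toCircle (one_ne_zero) h2
    · intro h
      rw [h, AddCircle.toCircle_zero]; simp
  split_ifs with hd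
  · rw [hz.2 hd]; simp
  · have hne : (fourier n α : ℂ) ≠ 1 := fun h => hd (hz.1 h)
    rw [geom_sum_eq hne]
    have : (fourier n α : ℂ) ^ Q = 1 := by
      rw [← h1, fourier_apply, mul_smul, natCast_zsmul, ← hα, addOrderOf_nsmul_eq_zero, smul_zero,
        AddCircle.toCircle_zero]; simp
    rw [this]; simp

private lemma VBD_per {Q : ℕ} {α : T} (hα : addOrderOf α = Q) (l : ℤ) {a b : ℤ}
    (h : a ≡ b [ZMOD Q]) : (fourier (l * a) α : ℂ) = fourier (l * b) α := by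
  rw [fourier_apply, fourier_apply, mul_smul, mul_smul]
  have : a • α = b • α := by
    obtain ⟨c, hc⟩ := h.dvd
    have : b = a + Q * c := by linarith
    rw [this, add_smul, mul_comm, mul_smul, natCast_zsmul, ← hα, addOrderOf_nsmul_eq_zero,
      smul_zero, add_zero]
  rw [this]

private lemma VBD_sumQ {H Q : ℕ} {α : T} (hQ : 0 < Q) (hα : addOrderOf α = Q) :
    ∑ r ∈ Finset.range Q, ‖∑ l ∈ Finset.Icc (-(H : ℤ)) H, (fourier (l * (r:ℤ)) α : ℂ)‖ ^ 2 ≤
      Q * ((2 * H + 1) * ((2 * H + 1) / Q + 1)) := by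
  have key : ((∑ r ∈ Finset.range Q,
      ‖∑ l ∈ Finset.Icc (-(H : ℤ)) H, (fourier (l * (r:ℤ)) α : ℂ)‖ ^ 2 : ℝ) : ℂ) =
      ((∑ l ∈ Finset.Icc (-(H : ℤ)) H,
        Q * ((((Finset.Icc (-(H:ℤ)) H).filter (fun x => x ≡ l [ZMOD Q])).card : ℝ)) : ℝ) : ℂ) := by
    push_cast
    have h1 : ∀ r ∈ Finset.range Q,
        (‖∑ l ∈ Finset.Icc (-(H : ℤ)) H, (fourier (l * (r:ℤ)) α : ℂ)‖ : ℂ) ^ 2 =
        ∑ l ∈ Finset.Icc (-(H : ℤ)) H, ∑ l' ∈ Finset.Icc (-(H : ℤ)) H,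
          (fourier ((l - l') * (r:ℤ)) α : ℂ) := by
      intro r _
      rw [← Complex.mul_conj', map_sum, Finset.sum_mul_sum]
      refine Finset.sum_congr rfl fun l _ => Finset.sum_congr rfl fun l' _ => ?_
      rw [← fourier_neg, ← fourier_add]
      congr 2; ring
    rw [Finset.sum_congr rfl h1, Finset.sum_comm]
    refine Finset.sum_congr rfl fun l _ => ?_
    rw [Finset.sum_comm]
    simp only [VBD_orth hα]
    rw [← Finset.sum_filter, Finset.sum_const, nsmul_eq_mul, mul_comm]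
    congr 3
    ext x
    simp only [Finset.mem_filter, and_congr_right_iff]
    intro _
    exact (Int.modEq_iff_dvd).symm
  have key2 := Complex.ofReal_injective key
  rw [key2]
  calc _ ≤ ∑ l ∈ Finset.Icc (-(H : ℤ)) H, (Q:ℝ) * ((2 * H + 1) / Q + 1) :=
        Finset.sum_le_sum fun l _ => mul_le_mul_of_nonneg_left (VBD_card H Q hQ l) (by positivity)
    _ = _ := by
        rw [Finset.sum_const, nsmul_eq_mul, VBD_cardIcc]; ring

theorem vb_bound {H Q : ℕ} {α : T} (hQ : 0 < Q) (hα : addOrderOf α = Q) :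
    Vb H α ≤ (2 * H + 1 : ℝ) ^ 2 * (1 / Real.sqrt Q + Real.sqrt Q / (2 * H + 1)) := by
  have hQr : (0:ℝ) < Q := by exact_mod_cast hQ
  have hM : (0:ℝ) < 2 * H + 1 := by positivity
  set F : ℤ → ℝ := fun μ => ‖∑ l ∈ Finset.Icc (-(H : ℤ)) H, (fourier (l * μ) α : ℂ)‖ with hF
  have hQz : (0:ℤ) < (Q:ℤ) := by exact_mod_cast hQ
  have hsum : ∑ μ ∈ Finset.Icc (-(H : ℤ)) H, F μ ^ 2 ≤
      ((2 * H + 1) / Q + 1) * ∑ r ∈ Finset.range Q, F r ^ 2 := by
    rw [← Finset.sum_fiberwise_of_maps_to (s := Finset.Icc (-(H : ℤ)) H) (t := Finset.range Q)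
      (g := fun μ : ℤ => (μ % (Q:ℤ)).toNat)]
    · rw [Finset.mul_sum]
      refine Finset.sum_le_sum fun r hr => ?_
      have hfe : ((Finset.Icc (-(H : ℤ)) H).filter (fun μ : ℤ => (μ % (Q:ℤ)).toNat = r)) =
          ((Finset.Icc (-(H : ℤ)) H).filter (fun μ => μ ≡ (r:ℤ) [ZMOD Q])) := by
        ext x
        simp only [Finset.mem_filter, and_congr_right_iff]
        intro _
        have h0 := Int.emod_nonneg x hQz.ne'
        have hr' : ((r:ℤ) % Q) = r := Int.emod_eq_of_lt (by positivity) (by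
          exact_mod_cast Finset.mem_range.1 hr)
        rw [Int.ModEq, hr']
        omega
      rw [hfe]
      have : ∀ μ ∈ ((Finset.Icc (-(H : ℤ)) H).filter (fun μ => μ ≡ (r:ℤ) [ZMOD Q])),
          F μ ^ 2 = F r ^ 2 := by
        intro μ hμ
        have h2 := (Finset.mem_filter.1 hμ).2
        simp only [hF]
        rw [Finset.sum_congr rfl fun l _ => VBD_per hα l h2]
      rw [Finset.sum_congr rfl this, Finset.sum_const, nsmul_eq_mul]
      exact mul_le_mul_of_nonneg_right (VBD_card H Q hQ r) (by positivity)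
    · intro μ _
      have h0 := Int.emod_nonneg μ hQz.ne'
      have h1 := Int.emod_lt_of_pos μ hQz
      simp only [Finset.mem_range]
      omega
  have hcs : (∑ μ ∈ Finset.Icc (-(H : ℤ)) H, F μ) ^ 2 ≤
      (2 * H + 1) * ∑ μ ∈ Finset.Icc (-(H : ℤ)) H, F μ ^ 2 := by
    have := sq_sum_le_card_mul_sum_sq (s := Finset.Icc (-(H : ℤ)) H) (f := F)
    rwa [VBD_cardIcc] at this
  have hK : (0:ℝ) ≤ (2 * H + 1) / Q + 1 := by positivity
  have hfin : (Vb H α) ^ 2 ≤ ((2 * H + 1 : ℝ) * Real.sqrt Q * ((2 * H + 1) / Q + 1)) ^ 2 := by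
    have hV : Vb H α = ∑ μ ∈ Finset.Icc (-(H : ℤ)) H, F μ := rfl
    rw [hV]
    calc _ ≤ _ := hcs
      _ ≤ (2 * H + 1) * (((2 * H + 1) / Q + 1) * (Q * ((2 * H + 1) * ((2 * H + 1) / Q + 1)))) := by
          refine mul_le_mul_of_nonneg_left ?_ hM.le
          exact hsum.trans (mul_le_mul_of_nonneg_left (VBD_sumQ hQ hα) hK)
      _ = _ := by
          rw [mul_pow, mul_pow, Real.sq_sqrt hQr.le]; ring
  have hpos : 0 ≤ (2 * H + 1 : ℝ) * Real.sqrt Q * ((2 * H + 1) / Q + 1) := by positivity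
  have := abs_le_of_sq_le_sq' hfin hpos
  refine this.2.trans (le_of_eq ?_)
  have hs : Real.sqrt Q ≠ 0 := (Real.sqrt_pos.2 hQr).ne'
  have hs2 : Real.sqrt Q * Real.sqrt Q = Q := Real.mul_self_sqrt hQr.le
  have hMne : (2 * H + 1 : ℝ) ≠ 0 := hM.ne'
  have h1 : Real.sqrt Q * ((2 * H + 1) / Q + 1) = (2 * H + 1 : ℝ) * (1 / Real.sqrt Q) + Real.sqrt Q := by
    rw [mul_add, mul_one, ← mul_div_assoc]
    congr 1
    rw [div_eq_iff hQr.ne']
    nth_rewrite 3 [← hs2]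
    field_simp
  have h2 : (2 * H + 1 : ℝ) ^ 2 * (1 / Real.sqrt Q + Real.sqrt Q / (2 * H + 1)) =
      (2 * H + 1 : ℝ) * ((2 * H + 1 : ℝ) * (1 / Real.sqrt Q) + Real.sqrt Q) := by
    field_simp
  rw [mul_assoc, h1, h2]

end Pool.Agent.LLN
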