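import Pool.Agent.LLN.Rec

open MeasureTheory Set Filter Topology
open scoped ENNReal NNReal

namespace Pool.Agent.LLN

/-! VMVT. HINT: induction on `a` with `s` variable: `s = s' + k`; multiply `j_rec` by `p ^ sg k (a + 1)`. With
`c = min (a + 1) k`, `e = c (c - 1) / 2 ≤ c k`: first term `sg k a + (c k - e) + 2 s' + (a + 1) k + e + (a + 1 - c) k =
sg k a + 2 s' + 2 (a + 1) k`; second term: `c k - e + 2 (k - 1) ≤ 2 (s' + k)` because `s' + k ≥ (a + 2) k ≥ (c + 1) k`.
`a = 0`: `range 1 = {0}`, `J = 1`. -/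

private theorem vmvt_zero (k s : ℕ) : J k s (Finset.range 1) ≤ 1 := by
  rw [J, En, Finset.card_le_one]
  rintro ⟨x, y⟩ hx ⟨x', y'⟩ hx'
  simp only [Finset.mem_filter, Finset.mem_product, Fintype.mem_piFinset, Finset.mem_range,
    Nat.lt_one_iff] at hx hx'
  have h1 : x = x' := funext fun i => by rw [hx.1.1 i, hx'.1.1 i]
  have h2 : y = y' := funext fun i => by rw [hx.1.2 i, hx'.1.2 i]
  rw [h1, h2]

theorem vmvt {p k S : ℕ} (hp : p.Prime) (hk : k < p) (hk1 : 1 ≤ k) (a s : ℕ)
    (h1 : (a + 1) * k ≤ s) (h2 : s ≤ S) :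
    p ^ sg k a * J k s (Finset.range (p ^ a)) ≤
      (2 * S ^ (2 * k) * k.factorial + 2 * k ^ (2 * S)) ^ a * p ^ (2 * a * s) := by
  induction a generalizing s with
  | zero =>
    have h3 := vmvt_zero k s
    simpa [sg] using h3
  | succ a ih =>
    obtain ⟨s', rfl⟩ : ∃ s', s = s' + k := ⟨s - k, by
      have : k ≤ (a + 1 + 1) * k := Nat.le_mul_of_pos_left k (by omega)
      omega⟩
    have hs' : (a + 1) * k ≤ s' := by
      have h3 : (a + 1 + 1) * k = (a + 1) * k + k := by ring
      omega
    have ih1 := ih s' hs' (by omega)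
    have ih2 := ih (s' + k) (by omega) h2
    have hrec := j_rec (a := a) (s := s') hp hk hk1
    set c := min (a + 1) k with hc
    set e := c * (c - 1) / 2 with he
    have hck : c ≤ k := min_le_right _ _
    have hca : c ≤ a + 1 := min_le_left _ _
    have hek : e ≤ c * k := by
      have h3 : e ≤ c * (c - 1) := Nat.div_le_self _ _
      exact h3.trans (Nat.mul_le_mul_left c (by omega))
    have hsg : sg k (a + 1) = sg k a + (c * k - e) := rfl
    set C := 2 * S ^ (2 * k) * k.factorial + 2 * k ^ (2 * S) with hC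
    have hp1 : 1 ≤ p := hp.one_lt.le
    have e1 : (c * k - e) + (2 * s' + (a + 1) * k + (e + (a + 1 - c) * k)) =
        2 * s' + 2 * ((a + 1) * k) := by
      have h3 : (a + 1 - c) * k + c * k = (a + 1) * k := by
        rw [← add_mul]; congr 1; omega
      omega
    have hfirst : p ^ sg k (a + 1) * (2 * (s' + k) ^ (2 * k) * k.factorial * p ^ (2 * s' + (a + 1) * k +
        (e + (a + 1 - c) * k)) * J k s' (Finset.range (p ^ a))) ≤
        (2 * S ^ (2 * k) * k.factorial) * (C ^ a * p ^ (2 * (a + 1) * (s' + k))) := by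
      calc p ^ sg k (a + 1) * (2 * (s' + k) ^ (2 * k) * k.factorial * p ^ (2 * s' + (a + 1) * k +
            (e + (a + 1 - c) * k)) * J k s' (Finset.range (p ^ a)))
          = (2 * (s' + k) ^ (2 * k) * k.factorial) * p ^ ((c * k - e) + (2 * s' + (a + 1) * k +
            (e + (a + 1 - c) * k))) * (p ^ sg k a * J k s' (Finset.range (p ^ a))) := by
            rw [hsg, pow_add, pow_add p (c * k - e)]
            ring
        _ ≤ (2 * S ^ (2 * k) * k.factorial) * p ^ (2 * s' + 2 * ((a + 1) * k)) *
            (C ^ a * p ^ (2 * a * s')) := by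
            rw [e1]
            refine Nat.mul_le_mul (Nat.mul_le_mul_right _ (Nat.mul_le_mul_right _
              (Nat.mul_le_mul_left _ (Nat.pow_le_pow_left h2 _)))) ih1
        _ = (2 * S ^ (2 * k) * k.factorial) * (C ^ a * (p ^ (2 * s' + 2 * ((a + 1) * k)) *
            p ^ (2 * a * s'))) := by ring
        _ = _ := by
            rw [← pow_add]
            congr 3
            ring
    have hsecond : p ^ sg k (a + 1) * (2 * k ^ (2 * (s' + k)) * p ^ (2 * (k - 1)) *
        J k (s' + k) (Finset.range (p ^ a))) ≤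
        (2 * k ^ (2 * S)) * (C ^ a * p ^ (2 * (a + 1) * (s' + k))) := by
      have e2 : (c * k - e) + 2 * (k - 1) ≤ 2 * (s' + k) := by
        have h3 : c * k ≤ (a + 1) * k := Nat.mul_le_mul_right k hca
        omega
      calc p ^ sg k (a + 1) * (2 * k ^ (2 * (s' + k)) * p ^ (2 * (k - 1)) *
            J k (s' + k) (Finset.range (p ^ a)))
          = (2 * k ^ (2 * (s' + k))) * p ^ ((c * k - e) + 2 * (k - 1)) *
            (p ^ sg k a * J k (s' + k) (Finset.range (p ^ a))) := by
            rw [hsg, pow_add, pow_add p (c * k - e)]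
            ring
        _ ≤ (2 * k ^ (2 * S)) * p ^ (2 * (s' + k)) * (C ^ a * p ^ (2 * a * (s' + k))) := by
            refine Nat.mul_le_mul (Nat.mul_le_mul (Nat.mul_le_mul_left _
              (Nat.pow_le_pow_right hk1 (by omega))) (Nat.pow_le_pow_right hp1 e2)) ih2
        _ = (2 * k ^ (2 * S)) * (C ^ a * (p ^ (2 * (s' + k)) * p ^ (2 * a * (s' + k)))) := by ring
        _ = _ := by
            rw [← pow_add]
            congr 3
            ring
    calc p ^ sg k (a + 1) * J k (s' + k) (Finset.range (p ^ (a + 1)))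
        ≤ p ^ sg k (a + 1) * _ := Nat.mul_le_mul_left _ hrec
      _ = _ := mul_add _ _ _
      _ ≤ _ := Nat.add_le_add hfirst hsecond
      _ = C ^ (a + 1) * p ^ (2 * (a + 1) * (s' + k)) := by
          rw [← add_mul, ← hC, pow_succ]
          ring

private theorem vmvt_half (c : ℕ) : 2 * (c * (c - 1) / 2) = c * (c - 1) := by
  have h : 2 ∣ c * (c - 1) := (Nat.even_mul_pred_self c).two_dvd
  exact Nat.mul_div_cancel' h

private theorem vmvt_sg_le {k a : ℕ} (h : a ≤ k) :
    6 * sg k a + a ^ 3 = 3 * k * a * (a + 1) + a := by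
  induction a with
  | zero => rfl
  | succ a ih =>
    have ih' := ih (by omega)
    have hc : min (a + 1) k = a + 1 := min_eq_left h
    have hsg : sg k (a + 1) = sg k a + ((a + 1) * k - (a + 1) * (a + 1 - 1) / 2) := by
      show sg k a + (min (a + 1) k * k - min (a + 1) k * (min (a + 1) k - 1) / 2) = _
      rw [hc]
    have h2 := vmvt_half (a + 1)
    have h3 : (a + 1) * (a + 1 - 1) = (a + 1) * a := rfl
    rw [h3] at h2 hsg
    set e := (a + 1) * a / 2 with he
    have h4 : e ≤ (a + 1) * k := by
      have h5 : (a + 1) * a ≤ (a + 1) * k := Nat.mul_le_mul_left _ (by omega)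
      omega
    obtain ⟨m, hm⟩ := Nat.exists_eq_add_of_le h4
    have h5 : (a + 1) * k - e = m := by omega
    rw [hsg, h5]
    have h6 : 6 * (a + 1) * k = 3 * ((a + 1) * a) + 6 * m := by
      have h7 : 6 * (a + 1) * k = 6 * ((a + 1) * k) := by ring
      rw [h7, hm]
      omega
    nlinarith [h6, ih']

theorem sg_formula {k a : ℕ} (h : k ≤ a) : 6 * sg k a + k ^ 3 = 3 * a * k * (k + 1) + k := by
  induction a, h using Nat.le_induction with
  | base =>
    have h1 := vmvt_sg_le (le_refl k)
    rw [h1]
  | succ a ha ih =>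
    have hc : min (a + 1) k = k := min_eq_right (by omega)
    have hsg : sg k (a + 1) = sg k a + (k * k - k * (k - 1) / 2) := by
      show sg k a + (min (a + 1) k * k - min (a + 1) k * (min (a + 1) k - 1) / 2) = _
      rw [hc]
    have h2 := vmvt_half k
    set e := k * (k - 1) / 2 with he
    have h3 : k * (k - 1) + k = k * k := by
      cases k with
      | zero => rfl
      | succ k => simp only [Nat.add_sub_cancel]; ring
    have h4 : e ≤ k * k := by omega
    obtain ⟨m, hm⟩ := Nat.exists_eq_add_of_le h4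
    have h5 : k * k - e = m := by omega
    rw [hsg, h5]
    have h6 : 6 * m = 3 * k * (k + 1) := by
      have h7 : 3 * k * (k + 1) = 3 * (k * k) + 3 * k := by ring
      rw [h7]
      omega
    have h8 : 3 * (a + 1) * k * (k + 1) = 3 * a * k * (k + 1) + 3 * k * (k + 1) := by ring
    rw [h8, ← h6]
    omega

end Pool.Agent.LLN
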