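import Pool.Agent.LLN.Defs

open MeasureTheory Set Filter Topology
open scoped ENNReal NNReal

namespace Pool.Agent.LLN

/-! PRIME. The auxiliary prime. HINT: Bertrand (`Nat.exists_prime_lt_and_le_two_mul`) for
`y = ⌊q ^ (ω / (32 k)) / 2⌋` (real power). -/

theorem aux_prime_root {n : ℕ} (hn : n ≠ 0) (M : ℕ) : ∃ Y : ℕ, Y ^ n ≤ M ∧ M < (Y + 1) ^ n := by
  have hex : ∃ Y : ℕ, M < (Y + 1) ^ n := by
    refine ⟨M, ?_⟩
    calc M < M + 1 := Nat.lt_succ_self M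
      _ ≤ (M + 1) ^ n := Nat.le_self_pow hn _
  classical
  refine ⟨Nat.find hex, ?_, Nat.find_spec hex⟩
  rcases Nat.eq_zero_or_pos (Nat.find hex) with h0 | h0
  · rw [h0, zero_pow hn]
    exact Nat.zero_le _
  · have h1 := Nat.find_min hex (m := Nat.find hex - 1) (by omega)
    have h2 : Nat.find hex - 1 + 1 = Nat.find hex := by omega
    rw [h2] at h1
    omega

theorem aux_prime {q k ω : ℕ} (hq : q = 2 ∨ q = 3) (hk : 8 ≤ k) (hω : 1000 * k ^ 2 ≤ ω) :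
    ∃ p : ℕ, p.Prime ∧ k < p ∧ p ^ (32 * k) ≤ q ^ ω ∧ q ^ (7 * ω) ≤ (p ^ (32 * k)) ^ 8 := by
  have hq2 : 2 ≤ q := by rcases hq with rfl | rfl <;> norm_num
  have hn : 32 * k ≠ 0 := by omega
  have hω1 : 256 * k ≤ ω := by nlinarith
  have hω2 : 32 * k * (k + 1) ≤ ω := by nlinarith
  have hqω : 2 ^ ω ≤ q ^ ω := Nat.pow_le_pow_left hq2 _
  obtain ⟨Y, hY1, hY2⟩ := aux_prime_root hn (q ^ ω)
  have hY : 2 ≤ Y := by
    by_contra hcon
    have h1 : Y + 1 ≤ 2 := by omega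
    have h2 : (Y + 1) ^ (32 * k) ≤ 2 ^ (32 * k) := Nat.pow_le_pow_left h1 _
    have h3 : 2 ^ (32 * k) ≤ 2 ^ ω := Nat.pow_le_pow_right (by norm_num) (by omega)
    omega
  obtain ⟨p, hp, hp1, hp2⟩ := Nat.exists_prime_lt_and_le_two_mul (Y / 2) (by omega)
  have hpY : p ≤ Y := by omega
  have hYp : Y + 1 ≤ 2 * p := by omega
  have h4 : (Y + 1) ^ (32 * k) ≤ (2 * p) ^ (32 * k) := Nat.pow_le_pow_left hYp _
  have h5 : q ^ ω < (2 * p) ^ (32 * k) := hY2.trans_le h4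
  refine ⟨p, hp, ?_, (Nat.pow_le_pow_left hpY _).trans hY1, ?_⟩
  · by_contra hcon
    have h6 : 2 * p ≤ 2 ^ (k + 1) := by
      have : k < 2 ^ k := Nat.lt_two_pow_self
      rw [pow_succ]
      omega
    have h7 : (2 * p) ^ (32 * k) ≤ 2 ^ ω := by
      calc (2 * p) ^ (32 * k) ≤ (2 ^ (k + 1)) ^ (32 * k) := Nat.pow_le_pow_left h6 _
        _ = 2 ^ ((k + 1) * (32 * k)) := (pow_mul _ _ _).symm
        _ ≤ 2 ^ ω := Nat.pow_le_pow_right (by norm_num) (by linarith)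
    omega
  · have h8 : q ^ (7 * ω) * q ^ ω ≤ (p ^ (32 * k)) ^ 8 * q ^ ω := by
      calc q ^ (7 * ω) * q ^ ω = (q ^ ω) ^ 8 := by
            rw [← pow_add, ← pow_mul]
            congr 1
            ring
        _ ≤ ((2 * p) ^ (32 * k)) ^ 8 := Nat.pow_le_pow_left h5.le _
        _ = (p ^ (32 * k)) ^ 8 * 2 ^ (256 * k) := by
            rw [mul_pow, mul_pow, ← pow_mul, ← pow_mul]
            ring
        _ ≤ (p ^ (32 * k)) ^ 8 * q ^ ω := by
            apply Nat.mul_le_mul_left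
            exact (Nat.pow_le_pow_right (by norm_num) hω1).trans hqω
    exact Nat.le_of_mul_le_mul_right h8 (by positivity)

end Pool.Agent.LLN
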