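import Pool.Agent.LLN.Defs
import Pool.Agent.LogSc.Br

open MeasureTheory Set Filter Topology
open scoped ENNReal NNReal

namespace Pool.Agent.LLN

/-! CHAIN. HINT: `U 0 = univ`, `U (j + 1) = E j ∩ (q ^ κ j •) ⁻¹' U j`, `μ (U j) ≥ 1/2`; for `w < 2 ^ n 0` the piece
`{x ∈ U j | cell 2 (n 0) (q ^ (κ 0 + .. + κ (j-1)) • x) = w}` has diameter `≤ 2 ^ (-n j)` (for two of its points:
`‖x - y‖ < 2 ^ (-n j)`), and one piece has measure `≥ 2 ^ (-n 0) / 2`. If `‖q ^ κ • (x - y)‖ < 2 ^ (-n)` there is `θ` with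
`q ^ κ • θ = 0` and `‖x - y - θ‖ < 2 ^ (-n) / q ^ κ`. A sequence of sets with diameters tending to `0` and measures
`≥ c > 0` gives an atom (compactness of the circle). -/

/-- the sets `U j` -/
private def chainU (q : ℕ) (E : ℕ → Set T) (κ : ℕ → ℕ) : ℕ → Set T
  | 0 => univ
  | j + 1 => E j ∩ (fun x : T => q ^ κ j • x) ⁻¹' chainU q E κ j

private theorem chain_mp {μ : Measure T} {q : ℕ}
    (hqμ : MeasurePreserving (fun x : T => q • x) μ μ) :
    ∀ i : ℕ, MeasurePreserving (fun x : T => q ^ i • x) μ μ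
  | 0 => by
      simp only [pow_zero, one_smul]
      exact MeasurePreserving.id μ
  | i + 1 => by
      have h := hqμ.comp (chain_mp hqμ i)
      have e : (fun x : T => q ^ (i + 1) • x) = (fun x : T => q • x) ∘ (fun x : T => q ^ i • x) := by
        funext x
        simp only [Function.comp_apply]
        rw [pow_succ', mul_smul]
      rw [e]
      exact h

/-- division of a small point -/
private theorem chain_div {m : ℕ} (hm : 0 < m) {z : T} {ε : ℝ} (hz : ‖m • z‖ < ε) :
    ∃ θ : T, m • θ = 0 ∧ ‖z - θ‖ < ε / m := by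
  have hm0 : (0 : ℝ) < m := by exact_mod_cast hm
  obtain ⟨t, ht, htn⟩ : ∃ t : ℝ, ((t : ℝ) : T) = m • z ∧ |t| = ‖m • z‖ := by
    obtain ⟨s, hs⟩ : ∃ s : ℝ, ((s : ℝ) : T) = m • z := ⟨rep (m • z), LogSc.coe_rep _⟩
    refine ⟨s - round s, ?_, ?_⟩
    · rw [AddCircle.coe_sub, hs]
      have : (((round s : ℤ) : ℝ) : T) = 0 := by
        rw [AddCircle.coe_eq_zero_iff]
        exact ⟨round s, by simp⟩
      rw [this, sub_zero]
    · rw [← hs, AddCircle.norm_eq]
      simp
  refine ⟨z - ((t / m : ℝ) : T), ?_, ?_⟩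
  · rw [smul_sub, ← AddCircle.coe_nsmul, nsmul_eq_mul, mul_div_cancel₀ _ hm0.ne', ht, sub_self]
  · rw [sub_sub_cancel]
    have hle : ‖((t / m : ℝ) : T)‖ ≤ |t / m| := by
      rw [AddCircle.norm_eq]
      have := round_le (t / m) 0
      simpa using this
    refine lt_of_le_of_lt hle ?_
    rw [abs_div, abs_of_pos hm0, htn]
    exact div_lt_div_of_pos_right hz hm0

/-- small sets of large measure give an atom -/
private theorem chain_atom {μ : Measure T} [IsProbabilityMeasure μ] {c : ℝ≥0∞} (hc : c ≠ 0)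
    {A : ℕ → Set T} {d : ℕ → ℝ} (hd : Tendsto d atTop (𝓝 0))
    (hA : ∀ j, ∀ x ∈ A j, ∀ y ∈ A j, ‖x - y‖ ≤ d j) (hm : ∀ j, c ≤ μ (A j)) :
    ∃ x : T, μ {x} ≠ 0 := by
  have hne : ∀ j, (A j).Nonempty := by
    intro j
    by_contra h
    rw [Set.not_nonempty_iff_eq_empty] at h
    have := hm j
    rw [h, measure_empty] at this
    exact hc (nonpos_iff_eq_zero.1 this)
  choose a ha using hne
  obtain ⟨x, -, φ, hφ, hx⟩ := isCompact_univ.tendsto_subseq (x := a) (fun n => mem_univ _)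
  refine ⟨x, ?_⟩
  have hball : ∀ n : ℕ, c ≤ μ (Metric.closedBall x (1 / ((n : ℝ) + 1))) := by
    intro n
    have hn0 : (0 : ℝ) < 1 / ((n : ℝ) + 1) := by positivity
    have h1 : ∀ᶠ j in atTop, dist (a (φ j)) x < 1 / ((n : ℝ) + 1) / 2 :=
      (Metric.tendsto_nhds.1 hx) _ (by positivity)
    have h2 : ∀ᶠ j in atTop, d (φ j) < 1 / ((n : ℝ) + 1) / 2 :=
      (hd.comp hφ.tendsto_atTop).eventually_lt_const (by positivity)
    obtain ⟨j, hj1, hj2⟩ := (h1.and h2).exists
    refine (hm (φ j)).trans (measure_mono fun y hy => ?_)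
    rw [Metric.mem_closedBall]
    have h3 : dist y (a (φ j)) ≤ d (φ j) := by
      rw [dist_eq_norm]
      exact hA _ y hy _ (ha _)
    calc dist y x ≤ dist y (a (φ j)) + dist (a (φ j)) x := dist_triangle _ _ _
      _ ≤ 1 / ((n : ℝ) + 1) := by linarith
  have hint : (⋂ n : ℕ, Metric.closedBall x (1 / ((n : ℝ) + 1))) = {x} := by
    ext y
    simp only [mem_iInter, Metric.mem_closedBall, mem_singleton_iff]
    constructor
    · intro h
      have : dist y x ≤ 0 := by
        refine ge_of_tendsto' tendsto_one_div_add_atTop_nhds_zero_nat h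
      exact dist_le_zero.1 this
    · rintro rfl n
      rw [dist_self]
      positivity
  have hlim := tendsto_measure_iInter_atTop (μ := μ)
    (s := fun n : ℕ => Metric.closedBall x (1 / ((n : ℝ) + 1)))
    (fun n => Metric.isClosed_closedBall.measurableSet.nullMeasurableSet)
    (fun m n hmn => Metric.closedBall_subset_closedBall (by
      apply one_div_le_one_div_of_le (by positivity)
      have : (m : ℝ) ≤ n := by exact_mod_cast hmn
      linarith)) ⟨0, measure_ne_top _ _⟩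
  rw [hint] at hlim
  have := ge_of_tendsto' hlim hball
  intro h0
  rw [h0] at this
  exact hc (nonpos_iff_eq_zero.1 this)

theorem chain {μ : Measure T} [IsProbabilityMeasure μ] {q : ℕ} (hq : 2 ≤ q)
    (hqμ : MeasurePreserving (fun x : T => q • x) μ μ) {E : ℕ → Set T}
    (hE : ∀ j, MeasurableSet (E j)) {n κ : ℕ → ℕ} (hn : ∀ j, n (j + 1) = n j + κ j)
    (hκ : ∀ j, 1 ≤ κ j)
    (hsep : ∀ j, ∀ x ∈ E j, ∀ y ∈ E j, ∀ θ : T, θ ≠ 0 → q ^ κ j • θ = 0 →
      ((2 : ℝ) ^ n j)⁻¹ ≤ ‖x - y - θ‖)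
    (hsum : ∑' j, μ (E j)ᶜ ≤ 1 / 2) : ∃ x : T, μ {x} ≠ 0 := by
  classical
  set U : ℕ → Set T := chainU q E κ with hU
  have hU0 : U 0 = univ := rfl
  have hU1 : ∀ j, U (j + 1) = E j ∩ (fun x : T => q ^ κ j • x) ⁻¹' U j := fun j => rfl
  have hmp := chain_mp hqμ
  have hUm : ∀ j, MeasurableSet (U j) := by
    intro j
    induction j with
    | zero => rw [hU0]; exact MeasurableSet.univ
    | succ j ih => rw [hU1]; exact (hE j).inter ((hmp _).measurable ih)
  have hUc : ∀ j, μ (U j)ᶜ ≤ ∑ i ∈ Finset.range j, μ (E i)ᶜ := by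
    intro j
    induction j with
    | zero => rw [hU0]; simp
    | succ j ih =>
      rw [hU1, compl_inter, Finset.sum_range_succ, add_comm]
      refine (measure_union_le _ _).trans ?_
      refine add_le_add le_rfl ?_
      rw [← preimage_compl, (hmp _).measure_preimage (hUm j).compl.nullMeasurableSet]
      exact ih
  have hUc2 : ∀ j, μ (U j)ᶜ ≤ 1 / 2 := fun j =>
    (hUc j).trans ((ENNReal.sum_le_tsum _).trans hsum)
  have hUh : ∀ j, 1 / 2 ≤ μ (U j) := by
    intro j
    have h1 : μ (U j) + μ (U j)ᶜ = 1 := by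
      rw [measure_add_measure_compl (hUm j), measure_univ]
    by_contra hlt
    rw [not_le] at hlt
    have h2 : μ (U j) + μ (U j)ᶜ < 1 / 2 + 1 / 2 :=
      ENNReal.add_lt_add_of_lt_of_le (measure_ne_top _ _) hlt (hUc2 j)
    rw [h1, ENNReal.add_halves] at h2
    exact lt_irrefl _ h2
  -- the sums of the exponents
  set S : ℕ → ℕ := fun j => ∑ i ∈ Finset.range j, κ i with hS
  have hS1 : ∀ j, S (j + 1) = S j + κ j := fun j => Finset.sum_range_succ _ _
  have claim : ∀ j, ∀ x ∈ U j, ∀ y ∈ U j,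
      cell 2 (n 0) (q ^ S j • x) = cell 2 (n 0) (q ^ S j • y) → ‖x - y‖ < ((2 : ℝ) ^ n j)⁻¹ := by
    intro j
    induction j with
    | zero =>
      intro x _ y _ h
      have h1 : S 0 = 0 := rfl
      rw [h1, pow_zero, one_smul, one_smul] at h
      have h2 := LogSc.cell_near (b := 2) (by norm_num) (n 0) x y
      rw [h, sub_self, zero_div, AddCircle.coe_zero, sub_zero] at h2
      exact_mod_cast h2
    | succ j ih =>
      intro x hx y hy h
      rw [hU1] at hx hy
      rw [hS1, pow_add, mul_smul, mul_smul] at h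
      have h1 := ih _ hx.2 _ hy.2 h
      rw [← smul_sub] at h1
      have hq0 : 0 < q ^ κ j := by positivity
      obtain ⟨θ, hθ, hθ2⟩ := chain_div hq0 h1
      have hqR : (2 : ℝ) ^ κ j ≤ ((q ^ κ j : ℕ) : ℝ) := by
        exact_mod_cast Nat.pow_le_pow_left hq _
      have h2 : ((2 : ℝ) ^ n j)⁻¹ / ((q ^ κ j : ℕ) : ℝ) ≤ ((2 : ℝ) ^ n (j + 1))⁻¹ := by
        rw [hn, pow_add, mul_inv, div_eq_mul_inv]
        apply mul_le_mul_of_nonneg_left _ (by positivity)
        exact inv_anti₀ (by positivity) hqR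
      have h3 : ((2 : ℝ) ^ n (j + 1))⁻¹ ≤ ((2 : ℝ) ^ n j)⁻¹ := by
        apply inv_anti₀ (by positivity)
        rw [hn]
        exact pow_le_pow_right₀ (by norm_num) (Nat.le_add_right _ _)
      have hθ0 : θ = 0 := by
        by_contra hne
        have := hsep j x hx.1 y hy.1 θ hne hθ
        linarith
      rw [hθ0, sub_zero] at hθ2
      exact hθ2.trans_le h2
  -- one large piece
  have hpiece : ∀ j, ∃ w, (1 / 2) / 2 ^ n 0 ≤ μ (U j ∩ {x | cell 2 (n 0) (q ^ S j • x) = w}) := by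
    intro j
    by_contra hcon
    push Not at hcon
    have hcov : U j ⊆ ⋃ w ∈ Finset.range (2 ^ n 0), (U j ∩ {x | cell 2 (n 0) (q ^ S j • x) = w}) := by
      intro x hx
      rw [mem_iUnion₂]
      refine ⟨cell 2 (n 0) (q ^ S j • x), Finset.mem_range.2 (LogSc.cell_lt (by norm_num) _ _), hx, rfl⟩
    have h1 : μ (U j) ≤ ∑ w ∈ Finset.range (2 ^ n 0),
        μ (U j ∩ {x | cell 2 (n 0) (q ^ S j • x) = w}) :=
      (measure_mono hcov).trans (measure_biUnion_finset_le _ _)
    have h2 : ∑ w ∈ Finset.range (2 ^ n 0), μ (U j ∩ {x | cell 2 (n 0) (q ^ S j • x) = w}) <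
        ∑ w ∈ Finset.range (2 ^ n 0), (1 / 2 : ℝ≥0∞) / 2 ^ n 0 := by
      apply ENNReal.sum_lt_sum_of_nonempty
      · exact ⟨0, Finset.mem_range.2 (by positivity)⟩
      · intro w _
        exact hcon w
    rw [Finset.sum_const, Finset.card_range, nsmul_eq_mul] at h2
    push_cast at h2
    rw [ENNReal.mul_div_cancel (by positivity) (by finiteness)] at h2
    exact absurd ((hUh j).trans h1) (not_le.2 h2)
  choose w hw using hpiece
  have hnj : ∀ j, j ≤ n j := by
    intro j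
    induction j with
    | zero => exact Nat.zero_le _
    | succ j ih =>
      rw [hn]
      have := hκ j
      omega
  refine chain_atom (c := (1 / 2) / 2 ^ n 0) ?_ (d := fun j => ((2 : ℝ) ^ j)⁻¹)
    (A := fun j => U j ∩ {x | cell 2 (n 0) (q ^ S j • x) = w j}) ?_ ?_ hw
  · rw [Ne, ENNReal.div_eq_zero_iff, not_or]
    exact ⟨by norm_num, by finiteness⟩
  · have := tendsto_pow_atTop_nhds_zero_of_lt_one (r := (2 : ℝ)⁻¹) (by norm_num) (by norm_num)
    simpa [inv_pow] using this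
  · intro j x hx y hy
    refine (claim j x hx.1 y hy.1 (hx.2.trans hy.2.symm)).le.trans ?_
    apply inv_anti₀ (by positivity)
    exact pow_le_pow_right₀ (by norm_num) (hnj j)

end Pool.Agent.LLN
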