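import Pool.Agent.LLN.Defs

open MeasureTheory Set Filter Topology
open scoped ENNReal NNReal

namespace Pool.Agent.LLN

/-! CHARS. Counting coincidences with characters of a finite abelian group. HINT: `AddChar.sum_apply_eq_ite`
/ `AddChar.expect_apply_eq_ite`; expand the square; `AddChar.map_sub_eq_div`, `‖ψ x‖ = 1`. -/

theorem pairs_eq {G : Type*} [AddCommGroup G] [Fintype G] [DecidableEq G] {ι : Type*} [DecidableEq ι]
    (S : Finset ι) (f : ι → G) :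
    (((S ×ˢ S).filter (fun z => f z.1 = f z.2)).card : ℝ) =
      (Fintype.card G : ℝ)⁻¹ * ∑ ψ : AddChar G ℂ, ‖∑ x ∈ S, ψ (f x)‖ ^ 2 := by
  have h1 : ∀ ψ : AddChar G ℂ, ((‖∑ x ∈ S, ψ (f x)‖ ^ 2 : ℝ) : ℂ) =
      ∑ z ∈ S ×ˢ S, ψ (f z.1 - f z.2) := by
    intro ψ
    push_cast
    rw [← Complex.mul_conj', map_sum, Finset.sum_mul_sum, Finset.sum_product]
    refine Finset.sum_congr rfl fun x _ => Finset.sum_congr rfl fun y _ => ?_
    rw [← AddChar.map_neg_eq_conj, ← AddChar.map_add_eq_mul, sub_eq_add_neg]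
  have h2 : ((∑ ψ : AddChar G ℂ, ‖∑ x ∈ S, ψ (f x)‖ ^ 2 : ℝ) : ℂ) =
      (Fintype.card G : ℂ) * ((((S ×ˢ S).filter (fun z => f z.1 = f z.2)).card : ℝ) : ℂ) := by
    rw [Complex.ofReal_sum, Finset.sum_congr rfl (fun ψ _ => h1 ψ), Finset.sum_comm]
    rw [Finset.sum_congr rfl (fun z _ => AddChar.sum_apply_eq_ite (f z.1 - f z.2))]
    rw [← Finset.sum_filter, Finset.sum_const, nsmul_eq_mul, mul_comm]
    congr 1
    rw [Complex.ofReal_natCast]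
    congr 2
    refine Finset.filter_congr fun z _ => ?_
    exact sub_eq_zero
  have h3 : (∑ ψ : AddChar G ℂ, ‖∑ x ∈ S, ψ (f x)‖ ^ 2 : ℝ) =
      (Fintype.card G : ℝ) * (((S ×ˢ S).filter (fun z => f z.1 = f z.2)).card : ℝ) := by
    exact_mod_cast h2
  have hG' : (Fintype.card G : ℝ) ≠ 0 := by
    exact_mod_cast Fintype.card_ne_zero
  rw [h3, ← mul_assoc, inv_mul_cancel₀ hG', one_mul]

private theorem chars_map_sum {G : Type*} [AddCommGroup G] {ι : Type*} (ψ : AddChar G ℂ)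
    (S : Finset ι) (g : ι → G) : ψ (∑ i ∈ S, g i) = ∏ i ∈ S, ψ (g i) := by
  classical
  induction S using Finset.induction_on with
  | empty => simp
  | insert a S ha ih => rw [Finset.sum_insert ha, Finset.prod_insert ha, AddChar.map_add_eq_mul, ih]

theorem sum_pow_char {G : Type*} [AddCommGroup G] (ψ : AddChar G ℂ) (ν : ℕ → G) (B : Finset ℕ) (s : ℕ) :
    ∑ x ∈ Fintype.piFinset (fun _ : Fin s => B), ψ (∑ i, ν (x i)) = (∑ b ∈ B, ψ (ν b)) ^ s := by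
  have h1 : (∑ b ∈ B, ψ (ν b)) ^ s = ∏ _i : Fin s, ∑ b ∈ B, ψ (ν b) := by
    rw [Finset.prod_const, Finset.card_univ, Fintype.card_fin]
  rw [h1, Finset.prod_univ_sum]
  refine Finset.sum_congr rfl fun x _ => ?_
  exact chars_map_sum ψ Finset.univ _

theorem en_eq {G : Type*} [AddCommGroup G] [Fintype G] [DecidableEq G] (ν : ℕ → G) (B : Finset ℕ)
    (s : ℕ) : (En ν B s : ℝ) =
      (Fintype.card G : ℝ)⁻¹ * ∑ ψ : AddChar G ℂ, ‖∑ b ∈ B, ψ (ν b)‖ ^ (2 * s) := by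
  rw [En, pairs_eq (Fintype.piFinset fun _ : Fin s => B) (fun x => ∑ i, ν (x i))]
  congr 1
  refine Finset.sum_congr rfl fun ψ _ => ?_
  rw [sum_pow_char, norm_pow, ← pow_mul, mul_comm s 2]

theorem mx_eq {G : Type*} [AddCommGroup G] [Fintype G] [DecidableEq G] (ν : ℕ → G) (B B' : Finset ℕ)
    (p k s : ℕ) : (Mx ν B B' p k s : ℝ) =
      (Fintype.card G : ℝ)⁻¹ * ∑ ψ : AddChar G ℂ,
        ‖∑ x ∈ Dst p k B, ψ (∑ i, ν (x i))‖ ^ 2 * ‖∑ b ∈ B', ψ (ν b)‖ ^ (2 * s) := by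
  classical
  set S : Finset ((Fin k → ℕ) × (Fin s → ℕ)) :=
    Dst p k B ×ˢ (Fintype.piFinset fun _ : Fin s => B') with hS
  have hcard : Mx ν B B' p k s = ((S ×ˢ S).filter (fun z =>
      (∑ i, ν (z.1.1 i) + ∑ i, ν (z.1.2 i)) = (∑ i, ν (z.2.1 i) + ∑ i, ν (z.2.2 i)))).card := by
    rw [Mx]
    refine Finset.card_bij (fun z _ => ((z.1.1, z.2.1), (z.1.2, z.2.2))) ?_ ?_ ?_
    · rintro ⟨⟨x, y⟩, ⟨u, v⟩⟩ hz
      simp only [Finset.mem_filter, Finset.mem_product, hS] at hz ⊢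
      tauto
    · rintro ⟨⟨x, y⟩, ⟨u, v⟩⟩ _ ⟨⟨x', y'⟩, ⟨u', v'⟩⟩ _ h
      simp only [Prod.mk.injEq] at h ⊢
      tauto
    · rintro ⟨⟨x, u⟩, ⟨y, v⟩⟩ hz
      refine ⟨((x, y), (u, v)), ?_, rfl⟩
      simp only [Finset.mem_filter, Finset.mem_product, hS] at hz ⊢
      tauto
  rw [hcard, pairs_eq S (fun z => ∑ i, ν (z.1 i) + ∑ i, ν (z.2 i))]
  congr 1
  refine Finset.sum_congr rfl fun ψ _ => ?_
  have h1 : ∑ x ∈ S, ψ (∑ i, ν (x.1 i) + ∑ i, ν (x.2 i)) =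
      (∑ x ∈ Dst p k B, ψ (∑ i, ν (x i))) * (∑ b ∈ B', ψ (ν b)) ^ s := by
    rw [← sum_pow_char, Finset.sum_mul_sum, hS, Finset.sum_product]
    refine Finset.sum_congr rfl fun x _ => Finset.sum_congr rfl fun u _ => ?_
    rw [AddChar.map_add_eq_mul]
  rw [h1, norm_mul, mul_pow, norm_pow, ← pow_mul, mul_comm s 2]

end Pool.Agent.LLN
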