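import Pool.Agent.LLN.Defs

open MeasureTheory Set Filter Topology
open scoped ENNReal NNReal

namespace Pool.Agent.LLN

/-! CORR. Summable correlations give a variance of order `1 / N`; Lebesgue measure has summable correlations. HINT:
`∫ ‖A_N - fc μ m‖ ^ 2 = N ^ (-2) ∑_(i,j) (fc μ (m (p ^ i - p ^ j)) - ‖fc μ m‖ ^ 2)`,
`fc μ (m (p ^ i - p ^ j)) = fc μ (m (p ^ (i - j) - 1))` for `j ≤ i` (invariance, `fourier m (p ^ i • x) = fourier (m p ^ i) x`), so the
integral is `≤ 2 (∑ |a_m|) / N`. -/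

private theorem corr_nsmul (m : ℤ) (g : ℕ) (x : T) : fourier m (g • x) = fourier (m * g) x := by
  simp only [fourier_apply]
  congr 2
  rw [mul_smul, natCast_zsmul]

private theorem corr_fc_mul {μ : Measure T} {p : ℕ}
    (hpμ : MeasurePreserving (fun x : T => p • x) μ μ) (n : ℤ) : fc μ (n * p) = fc μ n := by
  unfold LogSc.fc
  have h1 : ∀ x : T, fourier (n * p) x = fourier n (p • x) := fun x => (corr_nsmul n p x).symm
  simp only [h1]
  have h2 : ∫ y, fourier n y ∂(μ.map (fun x : T => p • x)) = ∫ x, fourier n (p • x) ∂μ :=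
    integral_map hpμ.measurable.aemeasurable (fourier n).continuous.aestronglyMeasurable
  rw [← h2, hpμ.map_eq]

private theorem corr_fc_pow {μ : Measure T} {p : ℕ}
    (hpμ : MeasurePreserving (fun x : T => p • x) μ μ) (n : ℤ) (j : ℕ) :
    fc μ (n * (p : ℤ) ^ j) = fc μ n := by
  induction j with
  | zero => simp
  | succ j ih =>
    rw [pow_succ, ← mul_assoc, corr_fc_mul hpμ, ih]

private theorem corr_fc_neg (μ : Measure T) (n : ℤ) : fc μ (-n) = (starRingEnd ℂ) (fc μ n) := by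
  unfold LogSc.fc
  rw [← integral_conj]
  simp only [fourier_neg]

/-- the correlation of two terms of the sum -/
private theorem corr_int {μ : Measure T} [IsProbabilityMeasure μ] {p : ℕ}
    (hpμ : MeasurePreserving (fun x : T => p • x) μ μ) (m : ℤ) (i j : ℕ) :
    ∫ x, (fourier (m * (p : ℤ) ^ i) x - fc μ m) * (starRingEnd ℂ) (fourier (m * (p : ℤ) ^ j) x - fc μ m) ∂μ =
      fc μ (m * (p : ℤ) ^ i - m * (p : ℤ) ^ j) - (‖fc μ m‖ : ℂ) ^ 2 := by
  set c := fc μ m with hc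
  have hint : ∀ n : ℤ, Integrable (fun x => (fourier n x : ℂ)) μ :=
    fun n => (fourier n).continuous.integrable_of_hasCompactSupport
      (HasCompactSupport.of_compactSpace _)
  have e : ∀ x : T, (fourier (m * (p : ℤ) ^ i) x - c) *
      (starRingEnd ℂ) (fourier (m * (p : ℤ) ^ j) x - c) =
      (fourier (m * (p : ℤ) ^ i - m * (p : ℤ) ^ j) x - (starRingEnd ℂ) c * fourier (m * (p : ℤ) ^ i) x) -
        (c * fourier (-(m * (p : ℤ) ^ j)) x - c * (starRingEnd ℂ) c) := by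
    intro x
    rw [sub_eq_add_neg (m * (p : ℤ) ^ i) (m * (p : ℤ) ^ j), fourier_add, fourier_neg, map_sub]
    ring
  simp only [e]
  have i1 : Integrable (fun x : T => (starRingEnd ℂ) c * fourier (m * (p : ℤ) ^ i) x) μ :=
    (hint _).const_mul _
  have i2 : Integrable (fun x : T => c * fourier (-(m * (p : ℤ) ^ j)) x) μ := (hint _).const_mul _
  have i3 : Integrable (fun _ : T => c * (starRingEnd ℂ) c) μ := integrable_const _
  have i4 : Integrable (fun x : T => fourier (m * (p : ℤ) ^ i - m * (p : ℤ) ^ j) x -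
      (starRingEnd ℂ) c * fourier (m * (p : ℤ) ^ i) x) μ := (hint _).sub i1
  have i5 : Integrable (fun x : T => c * fourier (-(m * (p : ℤ) ^ j)) x - c * (starRingEnd ℂ) c) μ :=
    i2.sub i3
  rw [integral_sub i4 i5, integral_sub (hint _) i1, integral_sub i2 i3,
    integral_const_mul, integral_const_mul, integral_const]
  have e1 : ∫ x, fourier (m * (p : ℤ) ^ i) x ∂μ = c := corr_fc_pow hpμ m i
  have e2 : ∫ x, fourier (-(m * (p : ℤ) ^ j)) x ∂μ = (starRingEnd ℂ) c := by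
    have h1 := corr_fc_neg μ (m * (p : ℤ) ^ j)
    rw [corr_fc_pow hpμ m j] at h1
    exact h1
  rw [e1, e2]
  have e3 : (‖c‖ : ℂ) ^ 2 = c * (starRingEnd ℂ) c := (Complex.mul_conj' c).symm
  rw [e3]
  show fc μ (m * (p : ℤ) ^ i - m * (p : ℤ) ^ j) - (starRingEnd ℂ) c * c -
    (c * (starRingEnd ℂ) c - μ.real univ • (c * (starRingEnd ℂ) c)) = _
  rw [probReal_univ, one_smul]
  ring

private theorem corr_norm {μ : Measure T} [IsProbabilityMeasure μ] {p : ℕ}
    (hpμ : MeasurePreserving (fun x : T => p • x) μ μ) (m : ℤ) (i j : ℕ) (hij : j ≤ i) :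
    fc μ (m * (p : ℤ) ^ i - m * (p : ℤ) ^ j) = fc μ (m * ((p : ℤ) ^ (i - j) - 1)) := by
  have e : m * (p : ℤ) ^ i - m * (p : ℤ) ^ j = (m * ((p : ℤ) ^ (i - j) - 1)) * (p : ℤ) ^ j := by
    have : (p : ℤ) ^ i = (p : ℤ) ^ (i - j) * (p : ℤ) ^ j := by
      rw [← pow_add, Nat.sub_add_cancel hij]
    rw [this]; ring
  rw [e, corr_fc_pow hpμ]

private theorem corr_norm' {μ : Measure T} [IsProbabilityMeasure μ] {p : ℕ}
    (hpμ : MeasurePreserving (fun x : T => p • x) μ μ) (m : ℤ) (i j : ℕ) (hij : i ≤ j) :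
    ‖fc μ (m * (p : ℤ) ^ i - m * (p : ℤ) ^ j) - (‖fc μ m‖ : ℂ) ^ 2‖ =
      ‖fc μ (m * ((p : ℤ) ^ (j - i) - 1)) - (‖fc μ m‖ : ℂ) ^ 2‖ := by
  have e : m * (p : ℤ) ^ i - m * (p : ℤ) ^ j = -(m * (p : ℤ) ^ j - m * (p : ℤ) ^ i) := by ring
  rw [e, corr_fc_neg, corr_norm hpμ m j i hij]
  have e2 : (starRingEnd ℂ) (fc μ (m * ((p : ℤ) ^ (j - i) - 1))) - (‖fc μ m‖ : ℂ) ^ 2 =
      (starRingEnd ℂ) (fc μ (m * ((p : ℤ) ^ (j - i) - 1)) - (‖fc μ m‖ : ℂ) ^ 2) := by
    rw [map_sub, map_pow, Complex.conj_ofReal]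
  rw [e2, RCLike.norm_conj]

theorem corr_var {μ : Measure T} [IsProbabilityMeasure μ] {p : ℕ} (hp : 2 ≤ p)
    (hpμ : MeasurePreserving (fun x : T => p • x) μ μ) {m : ℤ}
    (h : Summable (fun g : ℕ => ‖fc μ (m * ((p : ℤ) ^ g - 1)) - (‖fc μ m‖ : ℂ) ^ 2‖)) :
    ∃ C : ℝ, ∀ N : ℕ, 1 ≤ N →
      ∫ x, ‖(N : ℂ)⁻¹ * ∑ i ∈ Finset.range N, fourier m (p ^ i • x) - ∫ y, fourier m y ∂μ‖ ^ 2 ∂μ ≤
        C / N := by
  set b : ℕ → ℝ := fun g => ‖fc μ (m * ((p : ℤ) ^ g - 1)) - (‖fc μ m‖ : ℂ) ^ 2‖ with hb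
  have hb0 : ∀ g, 0 ≤ b g := fun g => norm_nonneg _
  set S : ℝ := ∑' g, b g with hS
  refine ⟨2 * S, fun N hN => ?_⟩
  have hN0 : (0 : ℝ) < N := by exact_mod_cast hN
  have hN0' : (N : ℂ) ≠ 0 := by exact_mod_cast hN0.ne'
  set c := fc μ m with hc
  -- the pointwise identity
  have e1 : ∀ x : T, ‖(N : ℂ)⁻¹ * ∑ i ∈ Finset.range N, fourier m (p ^ i • x) - ∫ y, fourier m y ∂μ‖ ^ 2 =
      ((N : ℝ) ^ 2)⁻¹ * ‖∑ i ∈ Finset.range N, (fourier (m * (p : ℤ) ^ i) x - c)‖ ^ 2 := by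
    intro x
    have e2 : (N : ℂ)⁻¹ * ∑ i ∈ Finset.range N, fourier m (p ^ i • x) - ∫ y, fourier m y ∂μ =
        (N : ℂ)⁻¹ * ∑ i ∈ Finset.range N, (fourier (m * (p : ℤ) ^ i) x - c) := by
      have e3 : ∀ i : ℕ, (fourier m (p ^ i • x) : ℂ) = fourier (m * (p : ℤ) ^ i) x := by
        intro i
        rw [corr_nsmul]
        push_cast
        rfl
      simp only [e3, Finset.sum_sub_distrib, Finset.sum_const, Finset.card_range, nsmul_eq_mul]
      show _ - c = _
      rw [mul_sub, inv_mul_cancel_left₀ hN0']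
    rw [e2, norm_mul, norm_inv, Complex.norm_natCast, mul_pow, inv_pow]
  simp only [e1]
  rw [integral_const_mul]
  -- the integral of the square
  have h1 : ∀ x : T, ((‖∑ i ∈ Finset.range N, (fourier (m * (p : ℤ) ^ i) x - c)‖ ^ 2 : ℝ) : ℂ) =
      ∑ i ∈ Finset.range N, ∑ j ∈ Finset.range N, (fourier (m * (p : ℤ) ^ i) x - c) *
        (starRingEnd ℂ) (fourier (m * (p : ℤ) ^ j) x - c) := by
    intro x
    rw [Complex.ofReal_pow, ← Complex.mul_conj', map_sum, Finset.sum_mul_sum]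
  have hcont : ∀ i : ℕ, Continuous fun x : T => (fourier (m * (p : ℤ) ^ i) x - c) :=
    fun i => (fourier _).continuous.sub continuous_const
  have hint : ∀ i j : ℕ, Integrable (fun x : T => (fourier (m * (p : ℤ) ^ i) x - c) *
        (starRingEnd ℂ) (fourier (m * (p : ℤ) ^ j) x - c)) μ := by
    intro i j
    apply Continuous.integrable_of_hasCompactSupport _ (HasCompactSupport.of_compactSpace _)
    exact (hcont i).mul (Complex.continuous_conj.comp (hcont j))
  have h2 : ((∫ x, ‖∑ i ∈ Finset.range N, (fourier (m * (p : ℤ) ^ i) x - c)‖ ^ 2 ∂μ : ℝ) : ℂ) =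
      ∑ i ∈ Finset.range N, ∑ j ∈ Finset.range N,
        (fc μ (m * (p : ℤ) ^ i - m * (p : ℤ) ^ j) - (‖c‖ : ℂ) ^ 2) := by
    rw [← integral_complex_ofReal, integral_congr_ae (Filter.Eventually.of_forall h1),
      integral_finsetSum _ (fun i _ => integrable_finsetSum _ (fun j _ => hint i j))]
    apply Finset.sum_congr rfl
    intro i _
    rw [integral_finsetSum _ (fun j _ => hint i j)]
    apply Finset.sum_congr rfl
    intro j _
    exact corr_int hpμ m i j
  have h3 : ∫ x, ‖∑ i ∈ Finset.range N, (fourier (m * (p : ℤ) ^ i) x - c)‖ ^ 2 ∂μ ≤ N * (2 * S) := by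
    have h4 : ∫ x, ‖∑ i ∈ Finset.range N, (fourier (m * (p : ℤ) ^ i) x - c)‖ ^ 2 ∂μ ≤
        ‖((∫ x, ‖∑ i ∈ Finset.range N, (fourier (m * (p : ℤ) ^ i) x - c)‖ ^ 2 ∂μ : ℝ) : ℂ)‖ := by
      rw [Complex.norm_real]
      exact le_abs_self _
    refine h4.trans ?_
    rw [h2]
    refine (norm_sum_le _ _).trans ?_
    have h5 : ∀ i ∈ Finset.range N, ‖∑ j ∈ Finset.range N,
        (fc μ (m * (p : ℤ) ^ i - m * (p : ℤ) ^ j) - (‖c‖ : ℂ) ^ 2)‖ ≤ 2 * S := by
      intro i _
      refine (norm_sum_le _ _).trans ?_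
      have h6 : ∀ j ∈ Finset.range N, ‖fc μ (m * (p : ℤ) ^ i - m * (p : ℤ) ^ j) - (‖c‖ : ℂ) ^ 2‖ ≤
          (if j ≤ i then b (i - j) else 0) + (if i ≤ j then b (j - i) else 0) := by
        intro j _
        rcases le_total j i with hji | hij
        · rw [if_pos hji, corr_norm hpμ m i j hji]
          have : 0 ≤ (if i ≤ j then b (j - i) else 0) := by
            split_ifs
            · exact hb0 _
            · exact le_rfl
          have e : ‖fc μ (m * ((p : ℤ) ^ (i - j) - 1)) - (‖c‖ : ℂ) ^ 2‖ = b (i - j) := rfl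
          rw [e]
          linarith
        · rw [if_pos hij, corr_norm' hpμ m i j hij]
          have : 0 ≤ (if j ≤ i then b (i - j) else 0) := by
            split_ifs
            · exact hb0 _
            · exact le_rfl
          have e : ‖fc μ (m * ((p : ℤ) ^ (j - i) - 1)) - (‖fc μ m‖ : ℂ) ^ 2‖ = b (j - i) := rfl
          rw [e]
          linarith
      refine (Finset.sum_le_sum h6).trans ?_
      rw [Finset.sum_add_distrib, ← Finset.sum_filter, ← Finset.sum_filter, two_mul]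
      apply add_le_add
      · rw [← Finset.sum_image (s := (Finset.range N).filter (fun j => j ≤ i)) (g := fun j => i - j)
          (f := b)]
        · exact h.sum_le_tsum _ (fun g _ => hb0 g)
        · intro a ha a' ha' haa
          rw [Finset.mem_coe, Finset.mem_filter] at ha ha'
          simp only at haa
          omega
      · rw [← Finset.sum_image (s := (Finset.range N).filter (fun j => i ≤ j)) (g := fun j => j - i)
          (f := b)]
        · exact h.sum_le_tsum _ (fun g _ => hb0 g)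
        · intro a ha a' ha' haa
          rw [Finset.mem_coe, Finset.mem_filter] at ha ha'
          simp only at haa
          omega
    refine (Finset.sum_le_sum h5).trans ?_
    rw [Finset.sum_const, Finset.card_range, nsmul_eq_mul]
  calc ((N : ℝ) ^ 2)⁻¹ * ∫ x, ‖∑ i ∈ Finset.range N, (fourier (m * (p : ℤ) ^ i) x - c)‖ ^ 2 ∂μ
      ≤ ((N : ℝ) ^ 2)⁻¹ * (N * (2 * S)) := mul_le_mul_of_nonneg_left h3 (by positivity)
    _ = 2 * S / N := by field_simp

private theorem corr_vol_zero (n : ℤ) (hn : n ≠ 0) : fc (volume : Measure T) n = 0 := by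
  unfold LogSc.fc
  exact integral_eq_zero_of_add_right_eq_neg (μ := (volume : Measure (AddCircle (1 : ℝ))))
      (fourier_add_half_inv_index hn (Fact.out : (0 : ℝ) < 1))

private theorem corr_vol_one : fc (volume : Measure T) 0 = 1 := by
  unfold LogSc.fc
  simp [Measure.real, AddCircle.measure_univ]

theorem vol_corr {p : ℕ} (hp : 2 ≤ p) (m : ℤ) :
    Summable (fun g : ℕ => ‖fc (volume : Measure T) (m * ((p : ℤ) ^ g - 1)) -
      (‖fc (volume : Measure T) m‖ : ℂ) ^ 2‖) := by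
  apply summable_of_ne_finset_zero (s := {0})
  intro g hg
  rw [Finset.mem_singleton] at hg
  by_cases hm : m = 0
  · subst hm
    rw [zero_mul, corr_vol_one]
    simp
  · have h1 : m * ((p : ℤ) ^ g - 1) ≠ 0 := by
      apply mul_ne_zero hm
      have : (1 : ℤ) < (p : ℤ) ^ g := one_lt_pow₀ (by exact_mod_cast (by omega : 1 < p)) hg
      omega
    rw [corr_vol_zero _ h1, corr_vol_zero _ hm]
    simp

end Pool.Agent.LLN
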