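import Pool.Agent.LLN.Kor

open MeasureTheory Set Filter Topology
open scoped ENNReal NNReal

namespace Pool.Agent.LLN

/-! COUNT. The orbit of `θ` leaves a closed set of small Lebesgue measure half of the time. HINT: `h` continuous,
`1` on `V`, `0 ≤ h ≤ 1`, `∫ h ≤ 1/8` (outer regularity, Urysohn); a real trigonometric polynomial `Ψ ≥ h`,
`∫ Ψ ≤ 1/4` (`span_fourier_closure_eq_top`, take `P` with `|P - h| ≤ 1/16`, `Ψ = Re P + 1/16`); `korp` for each frequency
`n ≠ 0` of `Ψ` and the point `n • θ`, of order `q ^ (t - v_q n)` (`t0 = 5 +` the largest `v_q n`). -/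

private theorem count_nsmul (m : ℤ) (g : ℕ) (x : T) : fourier m (g • x) = fourier (m * g) x := by
  simp only [fourier_apply]
  congr 2
  rw [mul_smul, natCast_zsmul]

private theorem count_int (n : ℤ) : ∫ x, fourier n x ∂(volume : Measure T) = if n = 0 then (1 : ℂ) else 0 := by
  split_ifs with h
  · subst h
    simp [Measure.real, AddCircle.measure_univ]
  · exact integral_eq_zero_of_add_right_eq_neg (μ := (volume : Measure (AddCircle (1 : ℝ))))
      (fourier_add_half_inv_index h (Fact.out : (0 : ℝ) < 1))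

/-- the exponential sum with frequency `n` -/
private theorem count_freq {p q : ℕ} (hpq : (p = 2 ∧ q = 3) ∨ (p = 3 ∧ q = 2)) {κ : ℝ} {ε : ℝ} {N0 : ℕ}
    (hN0 : ∀ N ≥ N0, ∀ t : ℕ, 5 ≤ t → (t : ℝ) ≤ (Nat.log 2 N : ℝ) ^ κ →
      ∀ θ : T, addOrderOf θ = q ^ t → ‖∑ i ∈ Finset.range N, fourier 1 (p ^ i • θ)‖ ≤ ε * N)
    {n : ℤ} (hn : n ≠ 0) {N : ℕ} (hN : N0 ≤ N) {t : ℕ} (ht : 5 + n.natAbs ≤ t)
    (htN : (t : ℝ) ≤ (Nat.log 2 N : ℝ) ^ κ) {θ : T} (hθ : addOrderOf θ = q ^ t) :
    ‖∑ i ∈ Finset.range N, fourier n (p ^ i • θ)‖ ≤ ε * N := by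
  have hq : q.Prime := by
    rcases hpq with ⟨-, rfl⟩ | ⟨-, rfl⟩
    · exact Nat.prime_three
    · exact Nat.prime_two
  -- positive frequencies
  have key : ∀ k : ℕ, k ≠ 0 → 5 + k ≤ t →
      ‖∑ i ∈ Finset.range N, fourier (k : ℤ) (p ^ i • θ)‖ ≤ ε * N := by
    intro k hk hkt
    have e : ∀ i : ℕ, (fourier (k : ℤ) (p ^ i • θ) : ℂ) = fourier 1 (p ^ i • (k • θ)) := by
      intro i
      rw [smul_comm, count_nsmul 1 k, one_mul]
    simp only [e]
    obtain ⟨m, hmt, hm⟩ := (Nat.dvd_prime_pow hq).1 (Nat.gcd_dvd_left (q ^ t) k)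
    have hmk : m ≤ k := by
      have h1 : q ^ m ∣ k := hm ▸ Nat.gcd_dvd_right (q ^ t) k
      have h2 := Nat.le_of_dvd (Nat.pos_of_ne_zero hk) h1
      exact (Nat.lt_pow_self hq.one_lt).le.trans h2
    apply hN0 N hN (t - m) (by omega)
    · refine le_trans ?_ htN
      exact_mod_cast Nat.sub_le t m
    · rw [addOrderOf_nsmul' θ hk, hθ, hm]
      exact Nat.pow_div hmt hq.pos
  rcases lt_or_gt_of_ne hn with hneg | hpos
  · have h1 := key n.natAbs (by omega) (by omega)
    have e : ∀ i : ℕ, (fourier n (p ^ i • θ) : ℂ) =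
        (starRingEnd ℂ) (fourier (n.natAbs : ℤ) (p ^ i • θ)) := by
      intro i
      rw [← fourier_neg]
      congr 2
      omega
    simp only [e]
    rw [← map_sum, RCLike.norm_conj]
    exact h1
  · have h1 := key n.natAbs (by omega) (by omega)
    have e : ((n.natAbs : ℕ) : ℤ) = n := by omega
    rwa [e] at h1

open Classical in
theorem count {p q : ℕ} (hpq : (p = 2 ∧ q = 3) ∨ (p = 3 ∧ q = 2)) {κ : ℝ} (h1 : 1 < κ)
    (h2 : κ < 3 / 2) {V : Set T} (hV : IsClosed V) (hvol : volume V ≤ 1 / 16) :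
    ∃ t0 N0 : ℕ, ∀ N ≥ N0, ∀ t : ℕ, t0 ≤ t → (t : ℝ) ≤ (Nat.log 2 N : ℝ) ^ κ →
      ∀ θ : T, addOrderOf θ = q ^ t →
        2 * ((Finset.range N).filter (fun i => p ^ i • θ ∈ V)).card ≤ N := by
  -- the continuous function
  obtain ⟨U, hVU, hU, hvU⟩ : ∃ U, V ⊆ U ∧ IsOpen U ∧ (volume : Measure T) U < ENNReal.ofReal (1 / 8) := by
    apply Set.exists_isOpen_lt_of_lt V
    refine lt_of_le_of_lt hvol ?_
    rw [ENNReal.ofReal_div_of_pos (by norm_num), ENNReal.ofReal_one]
    have e8 : ENNReal.ofReal 8 = 8 := by norm_num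
    rw [e8]
    apply ENNReal.div_lt_of_lt_mul
    rw [ENNReal.div_mul (a := 1) (by simp) (by simp)]
    rw [ENNReal.lt_div_iff_mul_lt (by simp) (by simp)]
    rw [one_mul]
    apply ENNReal.div_lt_of_lt_mul
    norm_num
  obtain ⟨h, hh0, hh1, hh01⟩ := exists_continuous_zero_one_of_isClosed hU.isClosed_compl hV
    (Set.disjoint_left.2 fun x hx hxV => hx (hVU hxV))
  have hint : ∫ x, h x ∂(volume : Measure T) ≤ 1 / 8 := by
    have hle : ∀ x, h x ≤ U.indicator (fun _ => (1 : ℝ)) x := by
      intro x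
      by_cases hx : x ∈ U
      · rw [indicator_of_mem hx]; exact (hh01 x).2
      · rw [indicator_of_notMem hx]
        exact (hh0 hx).le
    have hi : Integrable (fun x => h x) (volume : Measure T) :=
      h.continuous.integrable_of_hasCompactSupport (HasCompactSupport.of_compactSpace _)
    have h3 := integral_mono hi ((integrable_const (1 : ℝ)).indicator hU.measurableSet) hle
    refine h3.trans ?_
    rw [integral_indicator hU.measurableSet, setIntegral_const, smul_eq_mul, mul_one]
    exact ENNReal.toReal_le_of_le_ofReal (by norm_num) hvU.le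
  -- the trigonometric polynomial
  let hC : C(T, ℂ) := ⟨fun x => (h x : ℂ), Complex.continuous_ofReal.comp h.continuous⟩
  obtain ⟨P, hP, hPd⟩ : ∃ P ∈ Submodule.span ℂ (Set.range (@fourier (1 : ℝ))), dist hC P < 1 / 16 := by
    have hd : hC ∈ closure ((Submodule.span ℂ (Set.range (@fourier (1 : ℝ))) : Submodule ℂ C(T, ℂ)) : Set C(T, ℂ)) := by
      have := span_fourier_closure_eq_top (T := (1 : ℝ))
      rw [← Submodule.topologicalClosure_coe, this]
      trivial
    exact Metric.mem_closure_iff.1 hd (1 / 16) (by norm_num)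
  obtain ⟨c, hc⟩ := Finsupp.mem_span_range_iff_exists_finsupp.1 hP
  have hPx : ∀ x, P x = ∑ n ∈ c.support, c n * fourier n x := by
    intro x
    rw [← hc, Finsupp.sum, ContinuousMap.coe_sum, Finset.sum_apply]
    rfl
  have hPh : ∀ x, ‖(h x : ℂ) - P x‖ ≤ 1 / 16 := by
    intro x
    have := (ContinuousMap.dist_apply_le_dist x).trans hPd.le
    rwa [dist_eq_norm] at this
  have hre : ∀ x, h x ≤ (P x).re + 1 / 16 := by
    intro x
    have h3 := (Complex.abs_re_le_norm _).trans (hPh x)
    rw [Complex.sub_re, Complex.ofReal_re] at h3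
    have := (abs_le.1 h3).2
    linarith
  have hre' : ∀ x, (P x).re ≤ h x + 1 / 16 := by
    intro x
    have h3 := (Complex.abs_re_le_norm _).trans (hPh x)
    rw [Complex.sub_re, Complex.ofReal_re] at h3
    have := (abs_le.1 h3).1
    linarith
  have hc0 : (c 0).re ≤ 3 / 16 := by
    have hPi : Integrable (fun x => P x) (volume : Measure T) :=
      P.continuous.integrable_of_hasCompactSupport (HasCompactSupport.of_compactSpace _)
    have h3 : ∫ x, P x ∂(volume : Measure T) = c 0 := by
      have hfi : ∀ n : ℤ, Integrable (fun x => (fourier n x : ℂ)) (volume : Measure T) :=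
        fun n => (fourier n).continuous.integrable_of_hasCompactSupport
          (HasCompactSupport.of_compactSpace _)
      simp only [hPx]
      rw [integral_finsetSum _ (fun n _ => (hfi n).const_mul _)]
      simp only [integral_const_mul, count_int, mul_ite, mul_one, mul_zero]
      rw [Finset.sum_ite_eq']
      split_ifs with h0
      · rfl
      · exact (Finsupp.notMem_support_iff.1 h0).symm
    have h4 : (c 0).re = ∫ x, (P x).re ∂(volume : Measure T) := by
      rw [← h3]
      exact (integral_re hPi).symm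
    rw [h4]
    have hi : Integrable (fun x => h x + 1 / 16) (volume : Measure T) :=
      (h.continuous.add continuous_const).integrable_of_hasCompactSupport
        (HasCompactSupport.of_compactSpace _)
    have h5 : ∫ x, (P x).re ∂(volume : Measure T) ≤ ∫ x, (h x + 1 / 16) ∂(volume : Measure T) :=
      integral_mono hPi.re hi hre'
    have h6 : ∫ x, (h x + 1 / 16) ∂(volume : Measure T) = ∫ x, h x ∂(volume : Measure T) + 1 / 16 := by
      rw [integral_add (h.continuous.integrable_of_hasCompactSupport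
        (HasCompactSupport.of_compactSpace _)) (integrable_const _), integral_const]
      simp [Measure.real, AddCircle.measure_univ]
    linarith
  -- constants
  set A : ℝ := ∑ n ∈ c.support, ‖c n‖ with hA
  have hA0 : 0 ≤ A := Finset.sum_nonneg fun n _ => norm_nonneg _
  set ε : ℝ := 1 / (4 * (A + 1)) with hε
  have hε0 : 0 < ε := by positivity
  have hAε : A * ε ≤ 1 / 4 := by
    rw [hε, mul_one_div, div_le_iff₀ (by positivity)]
    linarith
  obtain ⟨N0, hN0⟩ := korp hpq h1 h2 hε0
  refine ⟨5 + ∑ n ∈ c.support, n.natAbs, N0, fun N hN t ht htN θ hθ => ?_⟩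
  have hcount : (((Finset.range N).filter (fun i => p ^ i • θ ∈ V)).card : ℝ) ≤
      ∑ i ∈ Finset.range N, h (p ^ i • θ) := by
    rw [Finset.card_filter]
    push_cast
    apply Finset.sum_le_sum
    intro i _
    split_ifs with hi
    · have := hh1 hi
      rw [this]
      exact le_rfl
    · exact (hh01 _).1
  have hsum : ∑ i ∈ Finset.range N, h (p ^ i • θ) ≤ (N : ℝ) / 2 := by
    have h3 : ∑ i ∈ Finset.range N, h (p ^ i • θ) ≤
        ∑ i ∈ Finset.range N, ((P (p ^ i • θ)).re + 1 / 16) := Finset.sum_le_sum fun i _ => hre _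
    have h4 : ∑ i ∈ Finset.range N, ((P (p ^ i • θ)).re + 1 / 16) =
        (∑ i ∈ Finset.range N, P (p ^ i • θ)).re + N * (1 / 16) := by
      rw [Finset.sum_add_distrib, Complex.re_sum, Finset.sum_const, Finset.card_range, nsmul_eq_mul]
    have h5 : ∑ i ∈ Finset.range N, P (p ^ i • θ) =
        ∑ n ∈ c.support, c n * ∑ i ∈ Finset.range N, fourier n (p ^ i • θ) := by
      simp only [hPx, Finset.mul_sum]
      exact Finset.sum_comm
    have h6 : (∑ i ∈ Finset.range N, P (p ^ i • θ)).re ≤ (c 0).re * N + A * (ε * N) := by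
      rw [h5, Complex.re_sum]
      have h7 : ∀ n ∈ c.support, (c n * ∑ i ∈ Finset.range N, fourier n (p ^ i • θ)).re ≤
          (if n = 0 then (c 0).re * N else 0) + ‖c n‖ * (ε * N) := by
        intro n hn
        by_cases hn0 : n = 0
        · subst hn0
          rw [if_pos rfl]
          have : ∑ i ∈ Finset.range N, (fourier (0 : ℤ) (p ^ i • θ) : ℂ) = (N : ℂ) := by
            simp
          rw [this]
          have e : (c 0 * (N : ℂ)).re = (c 0).re * N := by
            rw [Complex.mul_re, Complex.natCast_re, Complex.natCast_im, mul_zero, sub_zero]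
          rw [e]
          have : 0 ≤ ‖c 0‖ * (ε * N) := by positivity
          linarith
        · rw [if_neg hn0, zero_add]
          refine (Complex.re_le_norm _).trans ?_
          rw [norm_mul]
          apply mul_le_mul_of_nonneg_left _ (norm_nonneg _)
          apply count_freq hpq hN0 hn0 hN _ htN hθ
          have : n.natAbs ≤ ∑ n ∈ c.support, n.natAbs :=
            Finset.single_le_sum (f := fun n : ℤ => n.natAbs) (fun _ _ => Nat.zero_le _) hn
          omega
      refine (Finset.sum_le_sum h7).trans ?_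
      rw [Finset.sum_add_distrib, ← Finset.sum_mul, Finset.sum_ite_eq']
      apply add_le_add _ le_rfl
      split_ifs with h0
      · exact le_rfl
      · rw [Finsupp.notMem_support_iff.1 h0]
        simp
    have hNn : (0 : ℝ) ≤ N := Nat.cast_nonneg N
    have h8 : (c 0).re * N ≤ 3 / 16 * N := mul_le_mul_of_nonneg_right hc0 hNn
    have h9 : A * (ε * N) ≤ 1 / 4 * N := by
      rw [← mul_assoc]
      exact mul_le_mul_of_nonneg_right hAε hNn
    linarith
  have hfin : (2 : ℝ) * (((Finset.range N).filter (fun i => p ^ i • θ ∈ V)).card : ℝ) ≤ N := by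
    linarith
  exact_mod_cast hfin

end Pool.Agent.LLN
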