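import Pool.Agent.LLN.Defs
import Pool.Agent.LogSc.Inj

open MeasureTheory Set Filter Topology
open scoped ENNReal NNReal

namespace Pool.Agent.LLN

/-! Decomposition of an invariant measure in a multiple of Lebesgue measure and a part carried by an
invariant null set. -/

theorem mp_smul {σ : Measure T}
    (h2 : MeasurePreserving (fun x : T => (2 : ℕ) • x) σ σ)
    (h3 : MeasurePreserving (fun x : T => (3 : ℕ) • x) σ σ) (i j : ℕ) :
    MeasurePreserving (fun x : T => (2 ^ i * 3 ^ j : ℕ) • x) σ σ := by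
  induction i with
  | zero =>
    induction j with
    | zero =>
      have e : (fun x : T => (2 ^ 0 * 3 ^ 0 : ℕ) • x) = id := by
        ext x; simp
      rw [e]
      exact MeasurePreserving.id σ
    | succ j ih =>
      have h := h3.comp ih
      have e : ((fun x : T => (3 : ℕ) • x) ∘
          fun x : T => (2 ^ 0 * 3 ^ j : ℕ) • x) =
          fun x : T => (2 ^ 0 * 3 ^ (j + 1) : ℕ) • x := by
        ext x
        simp only [Function.comp_apply, smul_smul]
        congr 1
        ring
      rwa [e] at h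
  | succ i ih =>
    have h := h2.comp ih
    have e : ((fun x : T => (2 : ℕ) • x) ∘
        fun x : T => (2 ^ i * 3 ^ j : ℕ) • x) =
        fun x : T => (2 ^ (i + 1) * 3 ^ j : ℕ) • x := by
      ext x
      simp only [Function.comp_apply, smul_smul]
      congr 1
      ring
    rwa [e] at h

theorem decomp (μ : Measure T) [IsProbabilityMeasure μ]
    (_h2 : MeasurePreserving (fun x : T => (2 : ℕ) • x) μ μ)
    (_h3 : MeasurePreserving (fun x : T => (3 : ℕ) • x) μ μ) :
    ∃ S : Set T, MeasurableSet S ∧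
      (fun x : T => (2 : ℕ) • x) ⁻¹' S = S ∧
      (fun x : T => (3 : ℕ) • x) ⁻¹' S = S ∧
      (volume : Measure T) S = 0 ∧
      μ = μ Sᶜ • (volume : Measure T) + μ.restrict S ∧
      μ.restrict S ⟂ₘ volume ∧
      MeasurePreserving (fun x : T => (2 : ℕ) • x) (μ.restrict S) (μ.restrict S) ∧
      MeasurePreserving (fun x : T => (3 : ℕ) • x) (μ.restrict S) (μ.restrict S) := by
  have herg2 : Ergodic (fun x : T => (2 : ℕ) • x) volume :=
    AddCircle.ergodic_nsmul (by norm_num)
  have herg3 : Ergodic (fun x : T => (3 : ℕ) • x) volume :=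
    AddCircle.ergodic_nsmul (by norm_num)
  set σ := μ.singularPart volume with hσ
  have hσs : σ ⟂ₘ volume := μ.mutuallySingular_singularPart volume
  have hσ2 := _h2.singularPart herg2.toMeasurePreserving
  have hσ3 := _h3.singularPart herg3.toMeasurePreserving
  have hac2 := _h2.withDensity_rnDeriv herg2.toMeasurePreserving
  set α := volume.withDensity (μ.rnDeriv volume) with hα
  have hαfin : IsFiniteMeasure α := by
    refine isFiniteMeasure_of_le μ ?_
    exact μ.withDensity_rnDeriv_le volume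
  obtain ⟨a, ha⟩ := herg2.eq_smul_of_absolutelyContinuous hac2 (withDensity_absolutelyContinuous _ _)
  have hdecomp : μ = a • volume + σ := by
    conv_lhs => rw [μ.haveLebesgueDecomposition_add volume]
    rw [← hα, ← hσ, ha, add_comm]
  have hσs' := hσs
  -- an invariant null set carrying `σ`
  obtain ⟨N, hNm, hσN, hvN⟩ := hσs'
  -- `σ N = 0`, `volume Nᶜ = 0`
  set E : Set T :=
    {x | ∃ n : ℕ, ∀ i j : ℕ, n ≤ i → n ≤ j → (2 ^ i * 3 ^ j : ℕ) • x ∈ Nᶜ} with hE
  have hsm : ∀ m : ℕ, Measurable (fun x : T => m • x) := fun m =>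
    (continuous_nsmul m).measurable
  have hEm : MeasurableSet E := by
    have : E = ⋃ n : ℕ, ⋂ i : ℕ, ⋂ j : ℕ, ⋂ (_ : n ≤ i), ⋂ (_ : n ≤ j),
        (fun x : T => (2 ^ i * 3 ^ j : ℕ) • x) ⁻¹' Nᶜ := by
      ext x; simp [hE]
    rw [this]
    exact MeasurableSet.iUnion fun n => MeasurableSet.iInter fun i => MeasurableSet.iInter fun j =>
      MeasurableSet.iInter fun _ => MeasurableSet.iInter fun _ =>
        hsm _ hNm.compl
  have hE2 : (fun x : T => (2 : ℕ) • x) ⁻¹' E = E := by
    ext x
    simp only [mem_preimage, hE, mem_ofPred_eq]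
    constructor
    · rintro ⟨n, hn⟩
      refine ⟨n + 1, fun i j hi hj => ?_⟩
      have := hn (i - 1) j (by omega) (by omega)
      rw [smul_smul] at this
      have e : 2 ^ (i - 1) * 3 ^ j * 2 = 2 ^ i * 3 ^ j := by
        have : 2 ^ i = 2 ^ (i - 1) * 2 := by
          rw [← pow_succ]; congr 1; omega
        rw [this]; ring
      rwa [e] at this
    · rintro ⟨n, hn⟩
      refine ⟨n, fun i j hi hj => ?_⟩
      have := hn (i + 1) j (by omega) hj
      rw [smul_smul]
      have e : 2 ^ i * 3 ^ j * 2 = 2 ^ (i + 1) * 3 ^ j := by ring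
      rwa [e]
  have hE3 : (fun x : T => (3 : ℕ) • x) ⁻¹' E = E := by
    ext x
    simp only [mem_preimage, hE, mem_ofPred_eq]
    constructor
    · rintro ⟨n, hn⟩
      refine ⟨n + 1, fun i j hi hj => ?_⟩
      have := hn i (j - 1) (by omega) (by omega)
      rw [smul_smul] at this
      have e : 2 ^ i * 3 ^ (j - 1) * 3 = 2 ^ i * 3 ^ j := by
        have : 3 ^ j = 3 ^ (j - 1) * 3 := by
          rw [← pow_succ]; congr 1; omega
        rw [this]; ring
      rwa [e] at this
    · rintro ⟨n, hn⟩
      refine ⟨n, fun i j hi hj => ?_⟩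
      have := hn i (j + 1) hi (by omega)
      rw [smul_smul]
      have e : 2 ^ i * 3 ^ j * 3 = 2 ^ i * 3 ^ (j + 1) := by ring
      rwa [e]
  have hvolE : (volume : Measure T) E = 0 := by
    have hsub : E ⊆ ⋃ n : ℕ, (fun x : T => (2 ^ n * 3 ^ n : ℕ) • x) ⁻¹' Nᶜ := by
      rintro x ⟨n, hn⟩
      exact mem_iUnion.mpr ⟨n, hn n n le_rfl le_rfl⟩
    refine measure_mono_null hsub (measure_iUnion_null fun n => ?_)
    rw [(mp_smul herg2.toMeasurePreserving herg3.toMeasurePreserving n n).measure_preimage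
      hNm.compl.nullMeasurableSet]
    exact hvN
  have hσE : σ Eᶜ = 0 := by
    have hsub : Eᶜ ⊆ ⋃ i : ℕ, ⋃ j : ℕ,
        (fun x : T => (2 ^ i * 3 ^ j : ℕ) • x) ⁻¹' N := by
      intro x hx
      simp only [hE, mem_compl_iff, mem_ofPred_eq, not_exists, not_forall] at hx
      obtain ⟨i, j, -, -, hij⟩ := hx 0
      simp only [not_not] at hij
      exact mem_iUnion.mpr ⟨i, mem_iUnion.mpr ⟨j, hij⟩⟩
    refine measure_mono_null hsub (measure_iUnion_null fun i => measure_iUnion_null fun j => ?_)
    rw [(mp_smul hσ2 hσ3 i j).measure_preimage hNm.nullMeasurableSet]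
    exact hσN
  have hσeq : μ.restrict E = σ := by
    rw [hdecomp, Measure.restrict_add, Measure.restrict_smul,
      Measure.restrict_eq_zero.2 hvolE, smul_zero, zero_add]
    refine Measure.restrict_eq_self_of_ae_mem ?_
    rw [ae_iff]
    exact hσE
  have haE : μ Eᶜ = a := by
    have hv : (volume : Measure T) Eᶜ = 1 := by
      have h1 : (volume : Measure T) E + volume Eᶜ = volume univ :=
        measure_add_measure_compl hEm
      rw [hvolE, zero_add] at h1
      rw [h1, AddCircle.measure_univ]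
      simp
    rw [hdecomp, Measure.add_apply, Measure.smul_apply, hσE, hv, add_zero, smul_eq_mul, mul_one]
  refine ⟨E, hEm, hE2, hE3, hvolE, ?_, ?_, ?_, ?_⟩
  · rw [haE, hσeq]; exact hdecomp
  · rw [hσeq]; exact hσs
  · rw [hσeq]; exact hσ2
  · rw [hσeq]; exact hσ3

end Pool.Agent.LLN
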