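import Mathlib
import Pool.Agent.LogSc.Defs

/-!
# Definitions: mean values, and the law of large numbers for `x ↦ p x` on characters
-/

open MeasureTheory Set Filter Topology
open scoped ENNReal NNReal

namespace Pool.Agent.LLN

export Pool.Agent.LogSc (T rep cell PM fc)

/-- Energy: number of pairs of `s`-tuples from `B` with the same sum of values of `ν`. -/
def En {G : Type*} [AddCommGroup G] [DecidableEq G] (ν : ℕ → G) (B : Finset ℕ) (s : ℕ) : ℕ :=
  (((Fintype.piFinset fun _ : Fin s => B) ×ˢ (Fintype.piFinset fun _ : Fin s => B)).filter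
    (fun xy => ∑ i, ν (xy.1 i) = ∑ i, ν (xy.2 i))).card

/-- `k`-tuples from `B` with different residues modulo `p`. -/
def Dst (p k : ℕ) (B : Finset ℕ) : Finset (Fin k → ℕ) :=
  (Fintype.piFinset fun _ : Fin k => B).filter (fun x => ∀ i j, x i % p = x j % p → i = j)

/-- Mixed energy: `x, y` with different residues from `B`, `u, v` from `B'`. -/
def Mx {G : Type*} [AddCommGroup G] [DecidableEq G] (ν : ℕ → G) (B B' : Finset ℕ)
    (p k s : ℕ) : ℕ :=
  (((Dst p k B ×ˢ Dst p k B) ×ˢ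
    ((Fintype.piFinset fun _ : Fin s => B') ×ˢ (Fintype.piFinset fun _ : Fin s => B'))).filter
    (fun z => ∑ i, ν (z.1.1 i) + ∑ i, ν (z.2.1 i) = ∑ i, ν (z.1.2 i) + ∑ i, ν (z.2.2 i))).card

/-- Residue class. -/
def cls (B : Finset ℕ) (p b : ℕ) : Finset ℕ := B.filter (fun x => x % p = b)

/-- The curve of powers `(x, x ^ 2, ..., x ^ k)`. -/
def nu (k : ℕ) (x : ℕ) : Fin k → ℤ := fun j => (x : ℤ) ^ (j.val + 1)

/-- Vinogradov's mean value: number of solutions of `∑ x_i ^ j = ∑ y_i ^ j`, `1 ≤ j ≤ k`. -/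
def J (k s : ℕ) (B : Finset ℕ) : ℕ := En (nu k) B s

/-- Savings exponent of the mean value at level `a`. -/
def sg (k : ℕ) : ℕ → ℕ
  | 0 => 0
  | a + 1 => sg k a + (min (a + 1) k * k - min (a + 1) k * (min (a + 1) k - 1) / 2)

/-- The double sums of the bilinear lemma. -/
noncomputable def Vb (H : ℕ) (α : T) : ℝ :=
  ∑ μ ∈ Finset.Icc (-(H : ℤ)) H, ‖∑ l ∈ Finset.Icc (-(H : ℤ)) H, fourier (l * μ) α‖

/-- The closed set of differences of points of the covering set `W` (cells of level `L`). -/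
def VS (L : ℕ) (W : Finset ℕ) : Set T :=
  {z | ∃ w ∈ W, ∃ w' ∈ W, ‖z - ((((w : ℝ) - (w' : ℝ)) / (2 : ℝ) ^ L : ℝ) : T)‖ ≤
    2 * ((2 : ℝ) ^ L)⁻¹}

/-- Deviation set of the ergodic average of length `N` of the character `m` under `x ↦ p x`. -/
def Dev (μ : Measure T) (p : ℕ) (m : ℤ) (η : ℝ) (N : ℕ) : Set T :=
  {x | η ≤ ‖(N : ℂ)⁻¹ * ∑ i ∈ Finset.range N, fourier m (p ^ i • x) - ∫ y, fourier m y ∂μ‖}

/-- Complete convergence (Hsu-Robbins) of the averages of all characters under `x ↦ p x` along the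
sequence `N`. -/
def CC (μ : Measure T) (p : ℕ) (N : ℕ → ℕ) : Prop :=
  ∀ m : ℤ, ∀ η : ℝ, 0 < η → Summable fun j : ℕ => (μ (Dev μ p m η (N j))).toReal

end Pool.Agent.LLN
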