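import Pool.Agent.LLN.Defs
import Pool.Agent.LogSc.Avg

open MeasureTheory Set Filter Topology
open scoped ENNReal NNReal

namespace Pool.Agent.LLN

/-! KOR1. Complete sums. HINT: `θ = d / q ^ t`; `LogSc.avg_zero` with `h = 1`; split `range N` in periods. -/

theorem kor1_per {f : ℕ → ℂ} {P : ℕ} (hP : 0 < P) (hf : ∀ i, f (i + P) = f i)
    (h0 : ∑ i ∈ Finset.range P, f i = 0) (h1 : ∀ i, ‖f i‖ ≤ 1) (N : ℕ) :
    ‖∑ i ∈ Finset.range N, f i‖ ≤ (P : ℝ) := by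
  induction N using Nat.strong_induction_on with
  | _ N ih =>
    rcases lt_or_ge N P with h | h
    · calc ‖∑ i ∈ Finset.range N, f i‖ ≤ ∑ i ∈ Finset.range N, ‖f i‖ := norm_sum_le _ _
        _ ≤ ∑ i ∈ Finset.range N, (1 : ℝ) := Finset.sum_le_sum fun i _ => h1 i
        _ = (N : ℝ) := by simp
        _ ≤ (P : ℝ) := by exact_mod_cast h.le
    · obtain ⟨M, rfl⟩ : ∃ M, N = P + M := ⟨N - P, by omega⟩
      rw [Finset.sum_range_add, h0, zero_add]
      have h2 : ∀ i, f (P + i) = f i := fun i => by rw [add_comm, hf]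
      simp_rw [h2]
      exact ih M (by omega)

theorem kor1 {q m t : ℕ} (hpm : PM q m) (ht : 5 ≤ t) {θ : T} (hθ : addOrderOf θ = q ^ t) (N : ℕ) :
    ‖∑ i ∈ Finset.range N, fourier 1 (m ^ i • θ)‖ ≤ (q : ℝ) ^ t := by
  have hq : q.Prime := LogSc.AVG_prime hpm
  have hpos : 0 < q ^ t := Nat.pow_pos hq.pos
  have : Fact (0 < (1 : ℝ)) := ⟨one_pos⟩
  obtain ⟨d, -, hd, hdθ⟩ := (AddCircle.addOrderOf_eq_pos_iff (p := (1 : ℝ)) hpos).1 hθ
  have hdθ' : ((((d : ℤ) : ℝ) / (q : ℝ) ^ t : ℝ) : T) = θ := by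
    rw [← hdθ]
    congr 1
    push_cast
    rw [mul_one]
  have hnd : ¬ (q : ℤ) ^ t ∣ (q : ℤ) ^ (3 + (1 : ℤ).natAbs) * (d : ℤ) := by
    intro h
    have h1 : q ^ t ∣ q ^ 4 * d := by
      have h2 : ((q ^ t : ℕ) : ℤ) ∣ ((q ^ 4 * d : ℕ) : ℤ) := by
        push_cast
        simpa using h
      exact Int.natCast_dvd_natCast.1 h2
    have h3 : q ^ t ∣ q ^ 4 := (Nat.Coprime.symm hd).dvd_of_dvd_mul_right h1
    have h4 := (Nat.pow_dvd_pow_iff_le_right hq.one_lt).1 h3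
    omega
  have h0 := LogSc.avg_zero hpm (h := 1) one_ne_zero (d := (d : ℤ)) (k := t) hnd
  rw [hdθ'] at h0
  have hper : ∀ i, fourier 1 (m ^ (i + q ^ t) • θ) = (fourier 1 (m ^ i • θ) : ℂ) := by
    intro i
    congr 1
    have h1 : (m ^ (q ^ t) - 1) • θ = 0 := by
      rw [← addOrderOf_dvd_iff_nsmul_eq_zero, hθ]
      exact LogSc.nt3 hpm t
    have h2 : m ^ (q ^ t) = (m ^ (q ^ t) - 1) + 1 := by
      have := LogSc.AVG_pos hpm (q ^ t)
      omega
    rw [pow_add, mul_smul, h2, add_smul, h1, zero_add, one_smul]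
  have := kor1_per hpos (f := fun i => (fourier 1 (m ^ i • θ) : ℂ)) hper h0
    (fun i => by rw [fourier_apply]; exact (Circle.norm_coe _).le) N
  push_cast at this
  exact this

end Pool.Agent.LLN
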