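import Pool.Agent.LLN.Defs

open MeasureTheory Set Filter Topology
open scoped ENNReal NNReal

namespace Pool.Agent.LLN

/-! POLY. The exponential function as a polynomial. HINT: `g = 1 + l^ω u`;
`g ^ (k! n) • z = ∑_{j ≤ k} choose (k! n) j • ((g - 1) ^ j • z)` (`(g - 1) ^ (k + 1) • z = 0`), and for `1 ≤ j ≤ k`
`choose (k! n) j = ∑_{i=1..j} c_(j,i) n ^ i` with integers `c_(j,i)`, `c_(j,j) = (k!) ^ j / j!` (it is `(k!/j!) n` times the
product of `k! n - i`, `1 ≤ i < j`: an integer polynomial). So `α_i = ∑_{j ≥ i} c_(j,i) (g - 1) ^ j • z =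
(l ^ (ω i) (c_(i,i) u ^ i + l ^ ω (..))) • z`, and `v_l (c_(i,i)) ≤ k ^ 2 < ω`. -/

open Polynomial in
/-- The polynomial with values `choose (k! n) (j + 1)`. -/
private noncomputable def POLY_Q (k j : ℕ) : ℤ[X] :=
  C ((k.factorial / (j + 1).factorial : ℕ) : ℤ) * X *
    ∏ i ∈ Finset.range j, (C (k.factorial : ℤ) * X - C ((i : ℤ) + 1))

open Polynomial in
private lemma POLY_eval {k j : ℕ} (hj : j < k) (n : ℕ) :
    (POLY_Q k j).eval (n : ℤ) = ((k.factorial * n).choose (j + 1) : ℤ) := by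
  have h1 : (((j + 1).factorial : ℕ) : ℤ) * (POLY_Q k j).eval (n : ℤ) =
      (((j + 1).factorial : ℕ) : ℤ) * ((k.factorial * n).choose (j + 1) : ℤ) := by
    have h2 : (((k.factorial * n).descFactorial (j + 1) : ℕ) : ℤ) =
        ∏ i ∈ Finset.range (j + 1), (((k.factorial * n : ℕ) : ℤ) - i) := by
      rw [← descPochhammer_eval_eq_descFactorial, descPochhammer_eval_eq_prod_range]
    rw [Nat.descFactorial_eq_factorial_mul_choose, Nat.cast_mul] at h2
    rw [h2, Finset.prod_range_succ']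
    unfold POLY_Q
    simp only [eval_mul, eval_C, eval_X, eval_prod, eval_sub]
    have h3 : (((j + 1).factorial : ℕ) : ℤ) * ((k.factorial / (j + 1).factorial : ℕ) : ℤ) =
        (k.factorial : ℤ) := by
      rw [← Nat.cast_mul, Nat.mul_div_cancel' (Nat.factorial_dvd_factorial hj)]
    rw [← mul_assoc, ← mul_assoc, h3]
    push_cast
    ring
  exact mul_left_cancel₀ (by exact_mod_cast (Nat.factorial_pos _).ne') h1

open Polynomial in
private lemma POLY_lin (a b : ℤ) : (C a * X - C b : ℤ[X]).natDegree ≤ 1 := by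
  compute_degree

open Polynomial in
private lemma POLY_c1 (a b : ℤ) : (C a * X - C b : ℤ[X]).coeff 1 = a := by
  rw [coeff_sub, coeff_C_mul, coeff_X_one, coeff_C]; simp

open Polynomial in
private lemma POLY_prodDeg (k j : ℕ) :
    (∏ i ∈ Finset.range j, (C (k.factorial : ℤ) * X - C ((i : ℤ) + 1) : ℤ[X])).natDegree ≤ j := by
  refine (natDegree_prod_le _ _).trans ?_
  refine (Finset.sum_le_card_nsmul _ _ 1 fun i _ => POLY_lin _ _).trans ?_
  simp

open Polynomial in
private lemma POLY_deg (k j : ℕ) : (POLY_Q k j).natDegree ≤ j + 1 := by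
  unfold POLY_Q
  refine natDegree_mul_le.trans ?_
  have h1 : (C ((k.factorial / (j + 1).factorial : ℕ) : ℤ) * X : ℤ[X]).natDegree ≤ 1 := by
    compute_degree
  have := POLY_prodDeg k j
  omega

open Polynomial in
private lemma POLY_coeff0 (k j : ℕ) : (POLY_Q k j).coeff 0 = 0 := by
  unfold POLY_Q
  simp [mul_coeff_zero]

open Polynomial in
private lemma POLY_lead (k j : ℕ) :
    (POLY_Q k j).coeff (j + 1) = ((k.factorial / (j + 1).factorial * k.factorial ^ j : ℕ) : ℤ) := by
  unfold POLY_Q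
  rw [mul_assoc, coeff_C_mul, coeff_X_mul]
  have h := coeff_prod_of_natDegree_le (Finset.range j)
    (fun i : ℕ => (C (k.factorial : ℤ) * X - C ((i : ℤ) + 1) : ℤ[X])) 1
    (fun i _ => POLY_lin _ _)
  rw [Finset.card_range, mul_one] at h
  rw [h]
  simp only [POLY_c1, Finset.prod_const, Finset.card_range]
  push_cast
  rfl

private lemma POLY_val {q k i : ℕ} (hq : q.Prime) (hi : i < k) :
    padicValNat q (k.factorial / (i + 1).factorial * k.factorial ^ i) ≤ k ^ 2 := by
  have : Fact q.Prime := ⟨hq⟩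
  have h0 : padicValNat q k.factorial ≤ k := by
    have h := sub_one_mul_padicValNat_factorial (p := q) k
    have h1 : 1 ≤ q - 1 := by have := hq.two_le; omega
    have h2 : padicValNat q k.factorial ≤ (q - 1) * padicValNat q k.factorial :=
      Nat.le_mul_of_pos_left _ h1
    omega
  have hk0 : k.factorial ≠ 0 := (Nat.factorial_pos _).ne'
  have hdvd : k.factorial / (i + 1).factorial * k.factorial ^ i ∣ k.factorial ^ (i + 1) := by
    rw [pow_succ, mul_comm (k.factorial ^ i)]
    exact mul_dvd_mul_right (Nat.div_dvd_of_dvd (Nat.factorial_dvd_factorial hi)) _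
  have h3 : padicValNat q (k.factorial / (i + 1).factorial * k.factorial ^ i) ≤
      padicValNat q (k.factorial ^ (i + 1)) := by
    exact (padicValNat_dvd_iff_le (pow_ne_zero _ hk0)).1 (pow_padicValNat_dvd.trans hdvd)
  rw [padicValNat.pow] at h3
  refine h3.trans ?_
  rw [sq]
  exact Nat.mul_le_mul hi h0

private lemma POLY_zero {q t : ℕ} {z : T} (hz : addOrderOf z = q ^ t) (a : ℤ) :
    a • z = 0 ↔ ((q:ℤ) ^ t) ∣ a := by
  rw [← addOrderOf_dvd_iff_zsmul_eq_zero, hz]; push_cast; rfl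

theorem poly_exp {q ω k t g u : ℕ} (hq : q.Prime) (hg : g = 1 + q ^ ω * u) (hu : ¬ q ∣ u)
    (hω : k ^ 2 < ω) (ht : t ≤ ω * (k + 1)) {z : T} (hz : addOrderOf z = q ^ t) :
    ∃ α : Fin k → T, (∀ n : ℕ, g ^ (k.factorial * n) • z = z + ∑ i : Fin k, n ^ (i.val + 1) • α i) ∧
      ∀ i : Fin k, ∃ c ≤ k ^ 2, ω * (i.val + 1) + c ≤ t →
        addOrderOf (α i) = q ^ (t - (ω * (i.val + 1) + c)) := by
  set w : ℤ := (q:ℤ) ^ ω * u with hw
  let A : ℕ → ℤ := fun i => ∑ j ∈ Finset.range k, (POLY_Q k j).coeff (i + 1) * w ^ (j + 1)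
  refine ⟨fun i => A i.val • z, ?_, ?_⟩
  · intro n
    set N := k.factorial * n with hN
    have hw0 : ∀ m, k + 1 ≤ m → (w ^ m) • z = 0 := by
      intro m hm
      rw [POLY_zero hz, hw, mul_pow, ← pow_mul]
      exact Dvd.dvd.mul_right (pow_dvd_pow _ (ht.trans (Nat.mul_le_mul_left _ hm))) _
    have hgz : (g ^ N) • z = (((w + 1) ^ N : ℤ)) • z := by
      rw [← natCast_zsmul]
      congr 1
      rw [hg, hw]; push_cast; rw [add_comm]
    have hexp : (((w + 1) ^ N : ℤ)) = ∑ m ∈ Finset.range (N + 1 + k), w ^ m * (N.choose m : ℤ) := by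
      rw [add_pow, Finset.sum_range_add (fun m => w ^ m * (N.choose m : ℤ)) (N + 1) k]
      have : ∑ x ∈ Finset.range k, w ^ (N + 1 + x) * (N.choose (N + 1 + x) : ℤ) = 0 := by
        refine Finset.sum_eq_zero fun x _ => ?_
        rw [Nat.choose_eq_zero_of_lt (by omega)]; simp
      rw [this, add_zero]
      simp
    have hexp2 : (((w + 1) ^ N : ℤ)) • z =
        ∑ m ∈ Finset.range (k + 1), (w ^ m * (N.choose m : ℤ)) • z := by
      rw [hexp, Finset.sum_smul, show N + 1 + k = (k + 1) + N by ring, Finset.sum_range_add]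
      have : ∑ x ∈ Finset.range N, (w ^ (k + 1 + x) * (N.choose (k + 1 + x) : ℤ)) • z = 0 := by
        refine Finset.sum_eq_zero fun x _ => ?_
        rw [mul_comm, mul_smul, hw0 _ (by omega), smul_zero]
      rw [this, add_zero]
    rw [hgz, hexp2, Finset.sum_range_succ']
    simp only [pow_zero, Nat.choose_zero_right, Nat.cast_one, mul_one, one_smul]
    rw [add_comm]
    congr 1
    have hA : ∑ i : Fin k, (n : ℤ) ^ (i.val + 1) * A i.val =
        ∑ j ∈ Finset.range k, w ^ (j + 1) * (N.choose (j + 1) : ℤ) := by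
      rw [Fin.sum_univ_eq_sum_range (fun i => (n:ℤ) ^ (i + 1) * A i) k]
      simp only [A, Finset.mul_sum]
      rw [Finset.sum_comm]
      refine Finset.sum_congr rfl fun j hj => ?_
      have hj' := Finset.mem_range.1 hj
      have hev := Polynomial.eval_eq_sum_range' (n := k + 1)
        (lt_of_le_of_lt (POLY_deg k j) (by omega)) (n : ℤ)
      rw [POLY_eval hj', Finset.sum_range_succ', POLY_coeff0] at hev
      rw [hN, hev]
      simp only [zero_mul, add_zero]
      rw [Finset.mul_sum]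
      exact Finset.sum_congr rfl fun i _ => by ring
    have hR : ∑ i : Fin k, n ^ (i.val + 1) • (A i.val • z) =
        (∑ i : Fin k, (n : ℤ) ^ (i.val + 1) * A i.val) • z := by
      rw [Finset.sum_smul]
      refine Finset.sum_congr rfl fun i _ => ?_
      rw [← natCast_zsmul, ← mul_smul]; push_cast; rfl
    rw [hR, hA, Finset.sum_smul]
  · intro i
    set c0 : ℕ := k.factorial / (i.val + 1).factorial * k.factorial ^ i.val with hc0
    have hc0pos : c0 ≠ 0 := by
      rw [hc0]
      refine mul_ne_zero ?_ (pow_ne_zero _ (Nat.factorial_pos _).ne')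
      exact (Nat.div_pos (Nat.factorial_le i.isLt) (Nat.factorial_pos _)).ne'
    refine ⟨padicValNat q c0, POLY_val hq i.isLt, ?_⟩
    set v := padicValNat q c0 with hv
    have hvω : v < ω := lt_of_le_of_lt (POLY_val hq i.isLt) hω
    intro hle
    set e := ω * (i.val + 1) + v with he
    have : Fact q.Prime := ⟨hq⟩
    -- decomposition of A
    obtain ⟨B, hB⟩ : ∃ B : ℤ, A i.val = w ^ (i.val + 1) * ((c0 : ℤ) + w * B) := by
      have h1 : ∀ j ∈ Finset.range k, j ≠ i.val → w ^ (i.val + 2) ∣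
          (POLY_Q k j).coeff (i.val + 1) * w ^ (j + 1) := by
        intro j hj hne
        rcases lt_or_gt_of_ne hne with h | h
        · rw [Polynomial.coeff_eq_zero_of_natDegree_lt
            (lt_of_le_of_lt (POLY_deg k j) (by omega)), zero_mul]
          exact dvd_zero _
        · exact Dvd.dvd.mul_left (pow_dvd_pow _ (by omega)) _
      have hmem : i.val ∈ Finset.range k := Finset.mem_range.2 i.isLt
      have h2 : w ^ (i.val + 2) ∣ ∑ j ∈ (Finset.range k).erase i.val,
          (POLY_Q k j).coeff (i.val + 1) * w ^ (j + 1) :=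
        Finset.dvd_sum fun j hj => h1 j (Finset.mem_of_mem_erase hj) (Finset.ne_of_mem_erase hj)
      obtain ⟨B, hB⟩ := h2
      refine ⟨B, ?_⟩
      show ∑ j ∈ Finset.range k, (POLY_Q k j).coeff (i.val + 1) * w ^ (j + 1) = _
      rw [← Finset.add_sum_erase _ _ hmem, hB, POLY_lead, ← hc0]
      ring
    obtain ⟨c', hc', hqc'⟩ : ∃ c' : ℕ, c0 = q ^ v * c' ∧ ¬ q ∣ c' := by
      obtain ⟨c', hc'⟩ := (pow_padicValNat_dvd : q ^ padicValNat q c0 ∣ c0)
      refine ⟨c', hc', ?_⟩
      intro hd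
      obtain ⟨d, hd⟩ := hd
      have : q ^ (padicValNat q c0 + 1) ∣ c0 := by
        rw [pow_succ]
        refine ⟨d, ?_⟩
        rw [mul_assoc, ← hd]; exact hc'
      exact pow_succ_padicValNat_not_dvd hc0pos this
    set D : ℤ := (u:ℤ) ^ (i.val + 1) * ((c' : ℤ) + (q:ℤ) ^ (ω - v) * (u * B)) with hD
    have hAD : A i.val = (q:ℤ) ^ e * D := by
      have hwp : w ^ (i.val + 1) = (q:ℤ) ^ (ω * (i.val + 1)) * (u:ℤ) ^ (i.val + 1) := by
        rw [hw, mul_pow, ← pow_mul]
      rw [hB, hwp, hc', hw, hD, he, pow_add]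
      have : (q:ℤ) ^ ω = (q:ℤ) ^ v * (q:ℤ) ^ (ω - v) := by
        rw [← pow_add]; congr 1; omega
      push_cast
      have h5 : (q:ℤ) ^ v * (c':ℤ) + (q:ℤ) ^ ω * (u:ℤ) * B =
          (q:ℤ) ^ v * ((c' : ℤ) + (q:ℤ) ^ (ω - v) * (u * B)) := by
        rw [this]; ring
      rw [h5]; ring
    have hqz : Prime (q:ℤ) := Nat.prime_iff_prime_int.1 hq
    have hDq : ¬ (q:ℤ) ∣ D := by
      rw [hD]
      intro hd
      rcases hqz.dvd_or_dvd hd with h | h
      · exact hu (by exact_mod_cast hqz.dvd_of_dvd_pow h)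
      · have h6 : (q:ℤ) ∣ (q:ℤ) ^ (ω - v) * (u * B) :=
          Dvd.dvd.mul_right (dvd_pow_self _ (by omega)) _
        have h7 := (dvd_add_left h6).1 h
        exact hqc' (by exact_mod_cast h7)
    have hq0 : (q:ℤ) ≠ 0 := hqz.ne_zero
    rcases Nat.eq_zero_or_pos (t - e) with h0 | h0
    · have het : e = t := by omega
      rw [h0, pow_zero, AddMonoid.addOrderOf_eq_one_iff, POLY_zero hz, hAD, het]
      exact Dvd.intro _ rfl
    · obtain ⟨s, hs⟩ : ∃ s, t - e = s + 1 := ⟨t - e - 1, by omega⟩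
      rw [hs]
      refine addOrderOf_eq_prime_pow ?_ ?_
      · rw [← natCast_zsmul, ← mul_smul, POLY_zero hz, hAD]
        push_cast
        rw [← mul_assoc, ← pow_add, show t = (s + e) + 1 by omega, pow_succ]
        intro hd
        exact hDq ((mul_dvd_mul_iff_left (pow_ne_zero _ hq0)).1 hd)
      · rw [← natCast_zsmul, ← mul_smul, POLY_zero hz, hAD]
        push_cast
        rw [← mul_assoc, ← pow_add, show s + 1 + e = t by omega]
        exact Dvd.intro _ rfl

end Pool.Agent.LLN
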