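import Pool.Agent.LLN.Vmvt
import Pool.Agent.LLN.BilA
import Pool.Agent.LLN.BilB
import Pool.Agent.LLN.Vbd
import Pool.Agent.LLN.Poly
import Pool.Agent.LLN.AuxPrime

open MeasureTheory Set Filter Topology
open scoped ENNReal NNReal

namespace Pool.Agent.LLN

/-! KORW. Assembly. HINT: `p` from `aux_prime`, `a = 32 k`, `X = p ^ a`, `s = 33 k ^ 2`. From `vmvt` (`S = s`) and
`sg_formula`: `J ^ 2 ≤ C1 ^ (2 a) X ^ (4 s) X ^ (-k (k + 1)) p ^ ((k ^ 3 - k) / 3)`, `C1 = 2 s ^ (2 k) k! + 2 k ^ (2 s) ≤ k ^ (67 k ^ 2)`.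
`bilA`, `bilB`: `‖W‖ ^ (4 s ^ 2) ≤ X ^ (8 s ^ 2 - 4 s) J ^ 2 ∏ Vb_i`. With `H_i = s X ^ i`, `2 H_i + 1 ≤ 3 s X ^ i`:
`∏ (2 H_i + 1) ^ 2 ≤ (3 s) ^ (2 k) X ^ (k (k + 1))`. For `k / 2 ≤ i ≤ 3 k / 4` (at least `k / 4` values) the order of
`α_i` is `Q_i = q ^ (t - ω i - c)`, `ω k / 4 - k ^ 2 ≤ t - ω i - c ≤ ω (k / 2 + 1)`, so `1 / √Q_i + √Q_i / (2 H_i + 1) ≤
2 q ^ (-ω k / 16)` (`X ≥ q ^ (7 ω / 8)`). And `p ^ (k ^ 3 / 3) ≤ q ^ (ω k ^ 2 / 96)`. Total: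
`(‖W‖ / X ^ 2) ^ (4 s ^ 2) ≤ C1 ^ (64 k) (3 s) ^ (2 k) 2 ^ k q ^ (-ω k ^ 2 / 192) ≤ ε ^ (4 s ^ 2)` if `ω ≥ C k ^ 2`. -/

private theorem korw_C1 (k : ℕ) (hk : 8 ≤ k) :
    2 * (33 * k ^ 2) ^ (2 * k) * k.factorial + 2 * k ^ (2 * (33 * k ^ 2)) ≤ k ^ (67 * k ^ 2) := by
  have hk1 : 1 ≤ k := by omega
  have h33 : 33 * k ^ 2 ≤ k ^ 4 := by
    have : 33 ≤ k ^ 2 := by nlinarith
    calc 33 * k ^ 2 ≤ k ^ 2 * k ^ 2 := Nat.mul_le_mul_right _ this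
      _ = k ^ 4 := by ring
  have h1 : (33 * k ^ 2) ^ (2 * k) ≤ k ^ (8 * k) := by
    calc (33 * k ^ 2) ^ (2 * k) ≤ (k ^ 4) ^ (2 * k) := Nat.pow_le_pow_left h33 _
      _ = k ^ (8 * k) := by rw [← pow_mul]; ring_nf
  have h2 : k.factorial ≤ k ^ k := Nat.factorial_le_pow k
  have h3 : 2 * (33 * k ^ 2) ^ (2 * k) * k.factorial ≤ 2 * k ^ (66 * k ^ 2) := by
    calc 2 * (33 * k ^ 2) ^ (2 * k) * k.factorial ≤ 2 * k ^ (8 * k) * k ^ k :=
          Nat.mul_le_mul (Nat.mul_le_mul_left _ h1) h2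
      _ = 2 * k ^ (9 * k) := by rw [mul_assoc, ← pow_add]; ring_nf
      _ ≤ 2 * k ^ (66 * k ^ 2) := by
          apply Nat.mul_le_mul_left
          apply Nat.pow_le_pow_right hk1
          nlinarith
  have h4 : 2 * k ^ (2 * (33 * k ^ 2)) = 2 * k ^ (66 * k ^ 2) := by ring_nf
  have h5 : 4 * k ^ (66 * k ^ 2) ≤ k ^ (67 * k ^ 2) := by
    calc 4 * k ^ (66 * k ^ 2) ≤ k * k ^ (66 * k ^ 2) := Nat.mul_le_mul_right _ (by omega)
      _ = k ^ (66 * k ^ 2 + 1) := by rw [pow_succ]; ring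
      _ ≤ k ^ (67 * k ^ 2) := by
          apply Nat.pow_le_pow_right hk1
          nlinarith
  rw [h4]
  omega

private theorem korw_num (k m : ℕ) (hk : 8 ≤ k) (hm : k = 4 * m) :
    (2 * (33 * k ^ 2) ^ (2 * k) * k.factorial + 2 * k ^ (2 * (33 * k ^ 2))) ^ (12 * (32 * k)) *
      (3 * (33 * k ^ 2)) ^ (12 * k) * 2 ^ (6 * m) ≤ 2 ^ (25794 * k ^ 4) := by
  have hk1 : 1 ≤ k := by omega
  have hk2 : k ≤ 2 ^ k := Nat.lt_two_pow_self.le
  have h1 : (2 * (33 * k ^ 2) ^ (2 * k) * k.factorial + 2 * k ^ (2 * (33 * k ^ 2))) ^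
      (12 * (32 * k)) ≤ 2 ^ (25728 * k ^ 4) := by
    calc _ ≤ (k ^ (67 * k ^ 2)) ^ (12 * (32 * k)) := Nat.pow_le_pow_left (korw_C1 k hk) _
      _ = k ^ (25728 * k ^ 3) := by rw [← pow_mul]; ring_nf
      _ ≤ (2 ^ k) ^ (25728 * k ^ 3) := Nat.pow_le_pow_left hk2 _
      _ = 2 ^ (25728 * k ^ 4) := by rw [← pow_mul]; ring_nf
  have h99 : 3 * (33 * k ^ 2) ≤ k ^ 5 := by
    have : 99 ≤ k ^ 3 := by
      calc 99 ≤ 8 ^ 3 := by norm_num
        _ ≤ k ^ 3 := Nat.pow_le_pow_left hk 3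
    calc 3 * (33 * k ^ 2) = 99 * k ^ 2 := by ring
      _ ≤ k ^ 3 * k ^ 2 := Nat.mul_le_mul_right _ this
      _ = k ^ 5 := by ring
  have hk24 : k ^ 2 ≤ k ^ 4 := Nat.pow_le_pow_right hk1 (by norm_num)
  have h2 : (3 * (33 * k ^ 2)) ^ (12 * k) ≤ 2 ^ (60 * k ^ 4) := by
    calc _ ≤ (k ^ 5) ^ (12 * k) := Nat.pow_le_pow_left h99 _
      _ = k ^ (60 * k) := by rw [← pow_mul]; ring_nf
      _ ≤ (2 ^ k) ^ (60 * k) := Nat.pow_le_pow_left hk2 _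
      _ = 2 ^ (60 * k ^ 2) := by rw [← pow_mul]; ring_nf
      _ ≤ 2 ^ (60 * k ^ 4) := Nat.pow_le_pow_right (by norm_num) (Nat.mul_le_mul_left _ hk24)
  have hk14 : k ≤ k ^ 4 := Nat.le_self_pow (by norm_num) k
  have h3 : 2 ^ (6 * m) ≤ 2 ^ (6 * k ^ 4) :=
    Nat.pow_le_pow_right (by norm_num) (by omega)
  calc _ ≤ 2 ^ (25728 * k ^ 4) * 2 ^ (60 * k ^ 4) * 2 ^ (6 * k ^ 4) :=
        Nat.mul_le_mul (Nat.mul_le_mul h1 h2) h3
    _ = 2 ^ (25794 * k ^ 4) := by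
        rw [← pow_add, ← pow_add]
        congr 1
        ring

private theorem korw_J {p k : ℕ} (hp : p.Prime) (hk : k < p) (hk8 : 8 ≤ k) :
    J k (33 * k ^ 2) (Finset.range (p ^ (32 * k))) ^ 6 * (p ^ (32 * k)) ^ (3 * (k * (k + 1))) ≤
      p ^ (k ^ 3) * (2 * (33 * k ^ 2) ^ (2 * k) * k.factorial + 2 * k ^ (2 * (33 * k ^ 2))) ^
        (6 * (32 * k)) * (p ^ (32 * k)) ^ (12 * (33 * k ^ 2)) := by
  have h1 := vmvt (S := 33 * k ^ 2) hp hk (by omega) (32 * k) (33 * k ^ 2) (by nlinarith) le_rfl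
  have h2 := sg_formula (k := k) (a := 32 * k) (by omega)
  generalize 2 * (33 * k ^ 2) ^ (2 * k) * k.factorial + 2 * k ^ (2 * (33 * k ^ 2)) = C1 at h1 ⊢
  generalize J k (33 * k ^ 2) (Finset.range (p ^ (32 * k))) = Jv at h1 ⊢
  have h3 := Nat.pow_le_pow_left h1 6
  have hpp : 1 ≤ p ^ k := Nat.one_le_pow _ _ hp.pos
  calc Jv ^ 6 * (p ^ (32 * k)) ^ (3 * (k * (k + 1)))
      ≤ Jv ^ 6 * ((p ^ (32 * k)) ^ (3 * (k * (k + 1))) * p ^ k) :=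
        Nat.mul_le_mul_left _ (Nat.le_mul_of_pos_right _ hpp)
    _ = p ^ (k ^ 3) * (p ^ sg k (32 * k) * Jv) ^ 6 := by
        have e1 : (p ^ (32 * k)) ^ (3 * (k * (k + 1))) * p ^ k =
            p ^ (k ^ 3) * (p ^ sg k (32 * k)) ^ 6 := by
          rw [← pow_mul, ← pow_mul, ← pow_add, ← pow_add]
          congr 1
          linarith
        rw [e1, mul_pow]
        ring
    _ ≤ p ^ (k ^ 3) * (C1 ^ (32 * k) * p ^ (2 * (32 * k) * (33 * k ^ 2))) ^ 6 :=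
        Nat.mul_le_mul_left _ h3
    _ = p ^ (k ^ 3) * C1 ^ (6 * (32 * k)) * (p ^ (32 * k)) ^ (12 * (33 * k ^ 2)) := by
        rw [mul_pow, ← pow_mul, ← pow_mul, ← pow_mul, ← mul_assoc]
        congr 2
        · congr 1
          ring
        · ring

private theorem korw_prod (s X k : ℕ) :
    ∏ i ∈ Finset.range k, ((3 * s * X ^ (i + 1) : ℝ)) ^ 2 =
      (3 * s : ℝ) ^ (2 * k) * (X : ℝ) ^ (k * (k + 1)) := by
  induction k with
  | zero => simp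
  | succ k ih =>
    rw [Finset.prod_range_succ, ih]
    ring

private theorem korw_win (m : ℕ) (hm : 1 ≤ m) (c : ℝ) :
    ∏ i ∈ Finset.range (4 * m), (if 2 * m ≤ i + 1 ∧ i + 1 < 3 * m then c else 1) = c ^ m := by
  rw [← Finset.prod_filter, Finset.prod_const]
  congr 1
  have : (Finset.range (4 * m)).filter (fun i => 2 * m ≤ i + 1 ∧ i + 1 < 3 * m) =
      Finset.Ico (2 * m - 1) (3 * m - 1) := by
    ext i
    rw [Finset.mem_filter, Finset.mem_range, Finset.mem_Ico]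
    omega
  rw [this, Nat.card_Ico]
  omega

/-- the bound in the window -/
private theorem korw_vb {q m ω t c j s X : ℕ} (hq : 2 ≤ q) (hm : 2 ≤ m) (hω : 16 * m ^ 2 ≤ ω)
    (ht1 : ω * (4 * m) ≤ t) (ht2 : t ≤ ω * (4 * m + 1)) (hc : c ≤ (4 * m) ^ 2)
    (hj1 : 2 * m ≤ j) (hj2 : j < 3 * m) (hs : 1 ≤ s) (hX : 1 ≤ X) (hX2 : q ^ (7 * ω) ≤ X ^ 8) {α : T}
    (hα : ω * j + c ≤ t → addOrderOf α = q ^ (t - (ω * j + c))) :
    Vb (s * X ^ j) α ≤ (2 * (s * X ^ j : ℕ) + 1 : ℝ) ^ 2 *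
      (2 / Real.sqrt ((q : ℝ) ^ (m * ω))) := by
  have hle : ω * j + c + m * ω ≤ t := by
    have h1 : ω * j + ω ≤ ω * (3 * m) := by
      have : ω * (j + 1) ≤ ω * (3 * m) := Nat.mul_le_mul_left _ hj2
      linarith
    nlinarith
  have hord := hα (by omega)
  have hqpos : 0 < q := by omega
  set e := t - (ω * j + c) with he
  have he1 : m * ω ≤ e := by omega
  have he2 : e ≤ ω * (2 * m + 1) := by
    have h1 : ω * (2 * m) ≤ ω * j := Nat.mul_le_mul_left _ hj1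
    have h2 : t ≤ ω * (4 * m) + ω := by linarith
    have h3 : ω * (4 * m) = ω * (2 * m) + ω * (2 * m) := by ring
    have h4 : ω * (2 * m + 1) = ω * (2 * m) + ω := by ring
    omega
  refine (vb_bound (pow_pos hqpos e) hord).trans ?_
  refine mul_le_mul_of_nonneg_left ?_ (by positivity)
  have hqr : (1 : ℝ) ≤ q := by exact_mod_cast hqpos
  set D := Real.sqrt ((q : ℝ) ^ (m * ω)) with hD
  have hDpos : 0 < D := Real.sqrt_pos.2 (by positivity)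
  have hQ : (((q ^ e : ℕ)) : ℝ) = (q : ℝ) ^ e := by push_cast; rfl
  rw [hQ]
  have h1 : 1 / Real.sqrt ((q : ℝ) ^ e) ≤ 1 / D := by
    apply one_div_le_one_div_of_le hDpos
    exact Real.sqrt_le_sqrt (pow_le_pow_right₀ hqr he1)
  have h2 : Real.sqrt ((q : ℝ) ^ e) / (2 * ((s * X ^ j : ℕ) : ℝ) + 1) ≤ 1 / D := by
    have hH : (0 : ℝ) < 2 * ((s * X ^ j : ℕ) : ℝ) + 1 := by positivity
    rw [div_le_div_iff₀ hH hDpos, one_mul, hD, ← Real.sqrt_mul (by positivity), ← pow_add]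
    apply Real.sqrt_le_iff.2
    refine ⟨hH.le, ?_⟩
    -- `q ^ (e + m ω) ≤ X ^ (4 m)`
    have h3 : q ^ (e + m * ω) ≤ X ^ (4 * m) := by
      have h4 : (q ^ (e + m * ω)) ^ 2 ≤ (X ^ (4 * m)) ^ 2 := by
        calc (q ^ (e + m * ω)) ^ 2 = q ^ ((e + m * ω) * 2) := by rw [← pow_mul]
          _ ≤ q ^ (7 * ω * m) := by
              apply Nat.pow_le_pow_right hqpos
              nlinarith
          _ = (q ^ (7 * ω)) ^ m := by rw [← pow_mul]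
          _ ≤ (X ^ 8) ^ m := Nat.pow_le_pow_left hX2 m
          _ = (X ^ (4 * m)) ^ 2 := by rw [← pow_mul, ← pow_mul]; ring_nf
      exact (Nat.pow_le_pow_iff_left (by norm_num)).1 h4
    have h5 : X ^ (4 * m) ≤ (2 * (s * X ^ j) + 1) ^ 2 := by
      calc X ^ (4 * m) = (X ^ (2 * m)) ^ 2 := by rw [← pow_mul]; ring_nf
        _ ≤ (X ^ j) ^ 2 := Nat.pow_le_pow_left (Nat.pow_le_pow_right hX hj1) 2
        _ ≤ (2 * (s * X ^ j) + 1) ^ 2 := by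
            apply Nat.pow_le_pow_left
            have : X ^ j ≤ s * X ^ j := Nat.le_mul_of_pos_left _ hs
            omega
    have h6 := h3.trans h5
    have h7 : ((q ^ (e + m * ω) : ℕ) : ℝ) ≤ (((2 * (s * X ^ j) + 1) ^ 2 : ℕ) : ℝ) := by
      exact_mod_cast h6
    push_cast at h7 ⊢
    exact h7
  calc _ ≤ 1 / D + 1 / D := add_le_add h1 h2
    _ = 2 / D := by ring

theorem korw {ε : ℝ} (hε : 0 < ε) : ∃ C : ℕ, ∀ q : ℕ, (q = 2 ∨ q = 3) → ∀ k ω : ℕ, 8 ≤ k → 4 ∣ k →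
    C * k ^ 2 ≤ ω → ∃ X : ℕ, 0 < X ∧ X ≤ q ^ ω ∧ ∀ t g u : ℕ, ω * k ≤ t → t ≤ ω * (k + 1) →
      g = 1 + q ^ ω * u → ¬ q ∣ u → ∀ z : T, addOrderOf z = q ^ t →
        ‖∑ x ∈ Finset.range X, ∑ y ∈ Finset.range X,
          fourier 1 (g ^ (k.factorial * (x * y)) • z)‖ ≤ ε * (X : ℝ) ^ 2 := by
  obtain ⟨E, hE⟩ := exists_pow_lt_of_lt_one hε (by norm_num : (1 / 2 : ℝ) < 1)
  refine ⟨209088 * (E + 1), ?_⟩
  intro q hq k ω hk hk4 hω
  obtain ⟨m, hm⟩ := hk4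
  have hq2 : 2 ≤ q := by rcases hq with h | h <;> omega
  have hqp : q.Prime := by
    rcases hq with rfl | rfl
    · exact Nat.prime_two
    · exact Nat.prime_three
  have hk2pos : 1 ≤ k ^ 2 := Nat.one_le_pow _ _ (by omega)
  have hω1 : 1000 * k ^ 2 ≤ ω := le_trans (Nat.mul_le_mul_right _ (by omega)) hω
  obtain ⟨p, hp, hkp, hpX, hX8⟩ := aux_prime hq hk hω1
  have hJ := korw_J hp hkp hk
  have hnum := korw_num k m hk hm
  have hX1 : 1 ≤ p ^ (32 * k) := Nat.one_le_pow _ _ hp.pos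
  have hpk : (p ^ (k ^ 3)) ^ 2 ≤ q ^ (m ^ 2 * ω) := by
    calc (p ^ (k ^ 3)) ^ 2 = (p ^ (32 * k)) ^ (m ^ 2) := by
          rw [← pow_mul, ← pow_mul]
          congr 1
          rw [hm]
          ring
      _ ≤ (q ^ ω) ^ (m ^ 2) := Nat.pow_le_pow_left hpX _
      _ = q ^ (m ^ 2 * ω) := by rw [← pow_mul]; ring_nf
  obtain ⟨X, hXd⟩ : ∃ X, X = p ^ (32 * k) := ⟨_, rfl⟩
  obtain ⟨s, hs⟩ : ∃ s, s = 33 * k ^ 2 := ⟨_, rfl⟩
  rw [← hXd] at hpX hX8 hJ hX1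
  rw [← hs] at hJ hnum
  refine ⟨X, hX1, hpX, ?_⟩
  intro t g u ht1 ht2 hg hu z hz
  have hωk : k ^ 2 < ω := by omega
  obtain ⟨α, hα, hord⟩ := poly_exp hqp hg hu hωk ht2 hz
  have hs1 : 1 ≤ s := by omega
  -- reduction to the bilinear form
  set W := ∑ x ∈ Finset.range X, ∑ y ∈ Finset.range X,
      fourier 1 (∑ i : Fin k, (x * y) ^ (i.val + 1) • α i) with hW
  have hWeq : ‖∑ x ∈ Finset.range X, ∑ y ∈ Finset.range X,
          fourier 1 (g ^ (k.factorial * (x * y)) • z)‖ = ‖W‖ := by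
    have h1 : ∑ x ∈ Finset.range X, ∑ y ∈ Finset.range X,
          fourier 1 (g ^ (k.factorial * (x * y)) • z) = fourier 1 z * W := by
      rw [hW, Finset.mul_sum]
      apply Finset.sum_congr rfl
      intro x _
      rw [Finset.mul_sum]
      apply Finset.sum_congr rfl
      intro y _
      rw [hα (x * y)]
      simp only [fourier_apply, smul_add, AddCircle.toCircle_add, Circle.coe_mul]
    rw [h1, norm_mul]
    have h2 : ‖fourier 1 z‖ = 1 := by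
      rw [fourier_apply]
      exact Circle.norm_coe _
    rw [h2, one_mul]
  rw [hWeq]
  have hA := bilA hs1 hX1 α
  have hB := bilB hs1 hX1 α
  rw [← hW] at hA
  obtain ⟨Jv, hJv⟩ : ∃ Jv, Jv = J k s (Finset.range X) := ⟨_, rfl⟩
  obtain ⟨w, hw⟩ : ∃ w, w = ‖W‖ := ⟨_, rfl⟩
  rw [← hJv] at hA hB hJ
  rw [← hw] at hA ⊢
  have hw0 : 0 ≤ w := by rw [hw]; exact norm_nonneg _
  have hXr : (1 : ℝ) ≤ X := by exact_mod_cast hX1
  have hX0 : (0 : ℝ) < X := by linarith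
  have hs0 : (0 : ℝ) < s := by exact_mod_cast hs1
  obtain ⟨V, hV⟩ : ∃ V, V = ∏ i : Fin k, Vb (s * X ^ (i.val + 1)) (α i) := ⟨_, rfl⟩
  rw [← hV] at hB
  have hV0 : 0 ≤ V := by
    rw [hV]
    apply Finset.prod_nonneg
    intro i _
    unfold Vb
    exact Finset.sum_nonneg fun _ _ => norm_nonneg _
  have h1 : w ^ (4 * s ^ 2) ≤ (X : ℝ) ^ (8 * s ^ 2 - 4 * s) * (Jv : ℝ) ^ 2 * V := by
    refine hA.trans ?_
    have : (X : ℝ) ^ (8 * s ^ 2 - 4 * s) * (Jv : ℝ) ^ 2 * V =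
        (X : ℝ) ^ (8 * s ^ 2 - 4 * s) * (Jv : ℝ) * ((Jv : ℝ) * V) := by ring
    rw [this]
    exact mul_le_mul_of_nonneg_left hB (by positivity)
  -- the product
  set D := Real.sqrt ((q : ℝ) ^ (m * ω)) with hD
  have hqr : (1 : ℝ) ≤ q := by exact_mod_cast (by omega : 1 ≤ q)
  have hDpos : 0 < D := Real.sqrt_pos.2 (by positivity)
  have hD2 : D ^ 2 = (q : ℝ) ^ (m * ω) := Real.sq_sqrt (by positivity)
  have hVle : V ≤ (3 * s : ℝ) ^ (2 * k) * (X : ℝ) ^ (k * (k + 1)) * (2 / D) ^ m := by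
    have e1 : (3 * s : ℝ) ^ (2 * k) * (X : ℝ) ^ (k * (k + 1)) * (2 / D) ^ m =
        ∏ i : Fin k, (((3 * s * X ^ (i.val + 1) : ℝ)) ^ 2 *
          (if 2 * m ≤ i.val + 1 ∧ i.val + 1 < 3 * m then 2 / D else 1)) := by
      rw [Finset.prod_mul_distrib,
        Fin.prod_univ_eq_prod_range (fun i => ((3 * s * X ^ (i + 1) : ℝ)) ^ 2) k,
        Fin.prod_univ_eq_prod_range
          (fun i => (if 2 * m ≤ i + 1 ∧ i + 1 < 3 * m then 2 / D else (1 : ℝ))) k,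
        korw_prod, hm, korw_win m (by omega)]
    rw [e1, hV]
    apply Finset.prod_le_prod
    · intro i _
      unfold Vb
      exact Finset.sum_nonneg fun _ _ => norm_nonneg _
    · intro i _
      have hH : (2 * ((s * X ^ (i.val + 1) : ℕ) : ℝ) + 1) ≤ 3 * s * X ^ (i.val + 1) := by
        push_cast
        have : (1 : ℝ) ≤ s * X ^ (i.val + 1) := by
          have : 1 ≤ s * X ^ (i.val + 1) := Nat.mul_pos hs1 (pow_pos hX1 _)
          exact_mod_cast this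
        linarith
      have hH2 : (2 * ((s * X ^ (i.val + 1) : ℕ) : ℝ) + 1) ^ 2 ≤
          ((3 * s * X ^ (i.val + 1) : ℝ)) ^ 2 := pow_le_pow_left₀ (by positivity) hH 2
      split_ifs with hwin
      · obtain ⟨c, hc, hcord⟩ := hord i
        have hvb := korw_vb (q := q) (m := m) (ω := ω) (t := t) (c := c) (j := i.val + 1) (s := s)
          (X := X) (α := α i) hq2 (by omega) (by
            have : 16 * m ^ 2 = k ^ 2 := by rw [hm]; ring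
            omega) (by rw [← hm]; exact ht1) (by rw [← hm]; exact ht2) (by rw [← hm]; exact hc)
          hwin.1 hwin.2 hs1 hX1 (by exact hX8) hcord
        exact hvb.trans (mul_le_mul_of_nonneg_right hH2 (by positivity))
      · rw [mul_one]
        exact (vb_trivial _ _).trans hH2
  -- the sixth power
  have h2 : w ^ (24 * s ^ 2) ≤ (X : ℝ) ^ (48 * s ^ 2 - 24 * s) * (Jv : ℝ) ^ 12 * V ^ 6 := by
    have h3 := pow_le_pow_left₀ (by positivity) h1 6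
    rw [← pow_mul, mul_pow, mul_pow, ← pow_mul, ← pow_mul] at h3
    rw [show 24 * s ^ 2 = 4 * s ^ 2 * 6 by ring,
      show 48 * s ^ 2 - 24 * s = (8 * s ^ 2 - 4 * s) * 6 by
        have : 4 * s ≤ 8 * s ^ 2 := by nlinarith
        omega]
    exact h3
  -- the mean value
  generalize 2 * s ^ (2 * k) * k.factorial + 2 * k ^ (2 * s) = C1 at hJ hnum
  have hJ2 : (Jv : ℝ) ^ 12 * (X : ℝ) ^ (6 * (k * (k + 1))) ≤
      (q : ℝ) ^ (m ^ 2 * ω) * (C1 : ℝ) ^ (12 * (32 * k)) * (X : ℝ) ^ (24 * s) := by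
    have e1 : Jv ^ 12 * X ^ (6 * (k * (k + 1))) ≤
        q ^ (m ^ 2 * ω) * C1 ^ (12 * (32 * k)) * X ^ (24 * s) := by
      have e2 := Nat.pow_le_pow_left hJ 2
      calc Jv ^ 12 * X ^ (6 * (k * (k + 1)))
          = (Jv ^ 6 * X ^ (3 * (k * (k + 1)))) ^ 2 := by ring
        _ ≤ (p ^ (k ^ 3) * C1 ^ (6 * (32 * k)) * X ^ (12 * s)) ^ 2 := e2
        _ = (p ^ (k ^ 3)) ^ 2 * (C1 ^ (12 * (32 * k)) * X ^ (24 * s)) := by ring
        _ ≤ q ^ (m ^ 2 * ω) * (C1 ^ (12 * (32 * k)) * X ^ (24 * s)) := Nat.mul_le_mul_right _ hpk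
        _ = _ := by ring
    exact_mod_cast e1
  have hV6 : V ^ 6 ≤ (3 * s : ℝ) ^ (12 * k) * (X : ℝ) ^ (6 * (k * (k + 1))) *
      (2 ^ (6 * m) / (q : ℝ) ^ (3 * m ^ 2 * ω)) := by
    have e1 := pow_le_pow_left₀ hV0 hVle 6
    have e2 : ((2 / D) ^ m) ^ 6 = 2 ^ (6 * m) / (q : ℝ) ^ (3 * m ^ 2 * ω) := by
      rw [← pow_mul, div_pow, show D ^ (m * 6) = (D ^ 2) ^ (3 * m) by rw [← pow_mul]; ring_nf, hD2,
        ← pow_mul, mul_comm m 6]
      congr 2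
      ring
    rw [mul_pow, mul_pow, e2, ← pow_mul, ← pow_mul] at e1
    rw [show 12 * k = 2 * k * 6 by ring, show 6 * (k * (k + 1)) = k * (k + 1) * 6 by ring]
    exact e1
  have hnum' : (C1 : ℝ) ^ (12 * (32 * k)) * (3 * s : ℝ) ^ (12 * k) * 2 ^ (6 * m) ≤
      2 ^ (25794 * k ^ 4) := by
    exact_mod_cast hnum
  have hqpow : (2 : ℝ) ^ (26136 * (E + 1) * k ^ 4) ≤ (q : ℝ) ^ (2 * m ^ 2 * ω) := by
    have e1 : 26136 * (E + 1) * k ^ 4 ≤ 2 * m ^ 2 * ω := by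
      have e2 : 2 * m ^ 2 * (209088 * (E + 1) * k ^ 2) ≤ 2 * m ^ 2 * ω := Nat.mul_le_mul_left _ hω
      have e3 : 2 * m ^ 2 * (209088 * (E + 1) * k ^ 2) = 26136 * (E + 1) * k ^ 4 := by
        rw [hm]; ring
      omega
    calc (2 : ℝ) ^ (26136 * (E + 1) * k ^ 4) ≤ 2 ^ (2 * m ^ 2 * ω) :=
          pow_le_pow_right₀ (by norm_num) e1
      _ ≤ (q : ℝ) ^ (2 * m ^ 2 * ω) := pow_le_pow_left₀ (by norm_num) (by exact_mod_cast hq2) _
  have hfin : w ^ (24 * s ^ 2) ≤ (ε * (X : ℝ) ^ 2) ^ (24 * s ^ 2) := by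
    have hqm : (0 : ℝ) < (q : ℝ) ^ (m ^ 2 * ω) := by positivity
    have hq2m : (0 : ℝ) < (q : ℝ) ^ (2 * m ^ 2 * ω) := by positivity
    calc w ^ (24 * s ^ 2) ≤ (X : ℝ) ^ (48 * s ^ 2 - 24 * s) * (Jv : ℝ) ^ 12 * V ^ 6 := h2
      _ ≤ (X : ℝ) ^ (48 * s ^ 2 - 24 * s) * (Jv : ℝ) ^ 12 *
          ((3 * s : ℝ) ^ (12 * k) * (X : ℝ) ^ (6 * (k * (k + 1))) *
            (2 ^ (6 * m) / (q : ℝ) ^ (3 * m ^ 2 * ω))) :=
          mul_le_mul_of_nonneg_left hV6 (by positivity)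
      _ = (X : ℝ) ^ (48 * s ^ 2 - 24 * s) * ((Jv : ℝ) ^ 12 * (X : ℝ) ^ (6 * (k * (k + 1)))) *
          ((3 * s : ℝ) ^ (12 * k) * (2 ^ (6 * m) / (q : ℝ) ^ (3 * m ^ 2 * ω))) := by ring
      _ ≤ (X : ℝ) ^ (48 * s ^ 2 - 24 * s) *
          ((q : ℝ) ^ (m ^ 2 * ω) * (C1 : ℝ) ^ (12 * (32 * k)) * (X : ℝ) ^ (24 * s)) *
          ((3 * s : ℝ) ^ (12 * k) * (2 ^ (6 * m) / (q : ℝ) ^ (3 * m ^ 2 * ω))) := by
          refine mul_le_mul_of_nonneg_right ?_ (by positivity)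
          exact mul_le_mul_of_nonneg_left hJ2 (by positivity)
      _ = ((X : ℝ) ^ (48 * s ^ 2 - 24 * s) * (X : ℝ) ^ (24 * s)) *
          (((C1 : ℝ) ^ (12 * (32 * k)) * (3 * s : ℝ) ^ (12 * k) * 2 ^ (6 * m)) /
            (q : ℝ) ^ (2 * m ^ 2 * ω)) := by
          rw [show 3 * m ^ 2 * ω = m ^ 2 * ω + 2 * m ^ 2 * ω by ring, pow_add (q : ℝ)]
          field_simp
      _ = (X : ℝ) ^ (48 * s ^ 2) *
          (((C1 : ℝ) ^ (12 * (32 * k)) * (3 * s : ℝ) ^ (12 * k) * 2 ^ (6 * m)) /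
            (q : ℝ) ^ (2 * m ^ 2 * ω)) := by
          rw [← pow_add, Nat.sub_add_cancel]
          nlinarith
      _ ≤ (X : ℝ) ^ (48 * s ^ 2) *
          ((2 : ℝ) ^ (25794 * k ^ 4) / 2 ^ (26136 * (E + 1) * k ^ 4)) := by
          refine mul_le_mul_of_nonneg_left ?_ (by positivity)
          exact div_le_div₀ (by positivity) hnum' (by positivity) hqpow
      _ ≤ (X : ℝ) ^ (48 * s ^ 2) * ε ^ (24 * s ^ 2) := by
          refine mul_le_mul_of_nonneg_left ?_ (by positivity)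
          have e1 : 24 * s ^ 2 = 26136 * k ^ 4 := by rw [hs]; ring
          rw [e1]
          have e2 : ((1 / 2 : ℝ) ^ E) ^ (26136 * k ^ 4) ≤ ε ^ (26136 * k ^ 4) :=
            pow_le_pow_left₀ (by positivity) hE.le _
          refine le_trans ?_ e2
          rw [← pow_mul, one_div, inv_pow, div_le_iff₀ (by positivity), ← div_eq_inv_mul,
            le_div_iff₀ (by positivity), ← pow_add]
          apply pow_le_pow_right₀ (by norm_num)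
          have e3 : 26136 * (E + 1) * k ^ 4 = E * (26136 * k ^ 4) + 26136 * k ^ 4 := by ring
          rw [e3]
          omega
      _ = (ε * (X : ℝ) ^ 2) ^ (24 * s ^ 2) := by
          rw [mul_pow, ← pow_mul, mul_comm]
          congr 2
          ring
  have hne : 24 * s ^ 2 ≠ 0 := by positivity
  exact le_of_pow_le_pow_left₀ hne (by positivity) hfin

end Pool.Agent.LLN
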