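import Pool.Agent.LLN.Defs

open MeasureTheory Set Filter Topology
open scoped ENNReal NNReal

namespace Pool.Agent.LLN

/-! RATEF. Complete convergence for continuous functions, ergodicity. HINT: a trigonometric polynomial `η / 4`-close to
`f` (`span_fourier_closure_eq_top`), union bound over its frequencies (all steps also hold for `N j = 0`). `rate_inv`: for continuous `f` and
invariant `S`: `∫_S f = ∫_S A_N f → μ(S) ∫ f` along `N j` (convergence in measure by summability, boundedness), so
`μ.restrict S = μ S • μ` (it is enough to compare the integrals of the characters); evaluate at `Sᶜ`. -/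

private theorem rf_int (κ : Measure T) [IsFiniteMeasure κ] (f : C(T, ℂ)) : Integrable f κ :=
  f.continuous.integrable_of_hasCompactSupport (HasCompactSupport.of_compactSpace _)

private theorem rf_bd (κ : Measure T) [IsFiniteMeasure κ] (f : C(T, ℂ)) :
    ‖∫ x, f x ∂κ‖ ≤ ‖f‖ * κ.real univ :=
  norm_integral_le_of_norm_le_const (C := ‖f‖) (Eventually.of_forall fun x => f.norm_coe_le_norm x)

private theorem rf_ext {ν κ : Measure T} [IsFiniteMeasure ν] [IsFiniteMeasure κ]
    (h : ∀ n : ℤ, ∫ x, fourier n x ∂ν = ∫ x, fourier n x ∂κ) : ν = κ := by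
  have hspan : ∀ g ∈ Submodule.span ℂ (range (@fourier 1)), ∫ x, g x ∂ν = ∫ x, g x ∂κ := by
    intro g hg
    induction hg using Submodule.span_induction with
    | mem g hg =>
      obtain ⟨n, rfl⟩ := hg
      exact h n
    | zero => simp
    | add f g _ _ hf hg =>
      simp only [ContinuousMap.add_apply]
      rw [integral_add (rf_int ν f) (rf_int ν g), integral_add (rf_int _ f) (rf_int _ g), hf, hg]
    | smul c f _ hf =>
      simp only [ContinuousMap.smul_apply, smul_eq_mul]
      rw [integral_const_mul, integral_const_mul, hf]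
  have hall : ∀ f : C(AddCircle (1 : ℝ), ℂ), ∫ x, f x ∂ν = ∫ x, f x ∂κ := by
    intro f
    have hf : f ∈ (Submodule.span ℂ (range (@fourier 1))).topologicalClosure := by
      have : Fact ((0 : ℝ) < 1) := ⟨one_pos⟩
      rw [span_fourier_closure_eq_top]; trivial
    rw [← SetLike.mem_coe, Submodule.topologicalClosure_coe, Metric.mem_closure_iff] at hf
    rw [← sub_eq_zero, ← norm_eq_zero]
    refine le_antisymm (le_of_forall_pos_le_add fun δ hδ => ?_) (norm_nonneg _)
    set M : ℝ := ν.real univ + κ.real univ with hM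
    have hM0 : 0 ≤ M := by positivity
    obtain ⟨g, hg, hfg⟩ := hf (δ / (M + 1)) (by positivity)
    rw [dist_eq_norm] at hfg
    have e1 : ∫ x, f x ∂ν - ∫ x, f x ∂κ = ∫ x, (f - g) x ∂ν - ∫ x, (f - g) x ∂κ := by
      simp only [ContinuousMap.sub_apply]
      rw [integral_sub (rf_int ν f) (rf_int ν g), integral_sub (rf_int _ f) (rf_int _ g),
        hspan g hg]
      ring
    rw [e1]
    calc ‖∫ x, (f - g) x ∂ν - ∫ x, (f - g) x ∂κ‖
        ≤ ‖∫ x, (f - g) x ∂ν‖ + ‖∫ x, (f - g) x ∂κ‖ := norm_sub_le _ _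
      _ ≤ ‖f - g‖ * ν.real univ + ‖f - g‖ * κ.real univ := add_le_add (rf_bd ν _) (rf_bd _ _)
      _ = ‖f - g‖ * M := by rw [hM]; ring
      _ ≤ δ / (M + 1) * (M + 1) := by
          refine mul_le_mul hfg.le (by linarith) hM0 (by positivity)
      _ = 0 + δ := by field_simp; ring
  apply ext_of_forall_integral_eq_of_IsFiniteMeasure
  intro f
  have h1 := hall ⟨fun x => ((f x : ℝ) : ℂ), Complex.continuous_ofReal.comp f.continuous⟩
  simp only [ContinuousMap.coe_mk] at h1
  rw [integral_complex_ofReal, integral_complex_ofReal] at h1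
  exact_mod_cast h1

/-- The average. -/
private noncomputable def av (p : ℕ) (N : ℕ) (f : C(T, ℂ)) (x : T) : ℂ :=
  (N : ℂ)⁻¹ * ∑ i ∈ Finset.range N, f (p ^ i • x)

private theorem av_add (p N : ℕ) (f g : C(T, ℂ)) (x : T) :
    av p N (f + g) x = av p N f x + av p N g x := by
  simp only [av, ContinuousMap.add_apply, Finset.sum_add_distrib, mul_add]

private theorem av_smul (p N : ℕ) (c : ℂ) (f : C(T, ℂ)) (x : T) :
    av p N (c • f) x = c * av p N f x := by
  simp only [av, ContinuousMap.smul_apply, smul_eq_mul]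
  rw [← Finset.mul_sum]
  ring

private theorem av_norm (p N : ℕ) (f : C(T, ℂ)) (x : T) : ‖av p N f x‖ ≤ ‖f‖ := by
  unfold av
  rcases Nat.eq_zero_or_pos N with h | h
  · subst h
    simp
  · rw [norm_mul, norm_inv, Complex.norm_natCast]
    have h1 : ‖∑ i ∈ Finset.range N, f (p ^ i • x)‖ ≤ N * ‖f‖ := by
      refine (norm_sum_le _ _).trans ?_
      refine (Finset.sum_le_sum (fun i _ => f.norm_coe_le_norm _)).trans ?_
      simp
    have hN : (0 : ℝ) < N := by exact_mod_cast h
    calc (N : ℝ)⁻¹ * ‖∑ i ∈ Finset.range N, f (p ^ i • x)‖ ≤ (N : ℝ)⁻¹ * (N * ‖f‖) :=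
          mul_le_mul_of_nonneg_left h1 (by positivity)
      _ = ‖f‖ := by field_simp

/-- Deviation sets of elements of the span are covered by the deviation sets of characters. -/
private theorem rf_span {μ : Measure T} [IsProbabilityMeasure μ] (p : ℕ) {g : C(T, ℂ)}
    (hg : g ∈ Submodule.span ℂ (range (@fourier 1))) : ∀ η : ℝ, 0 < η →
      ∃ (s : Finset ℤ) (δ : ℝ), 0 < δ ∧ ∀ (N : ℕ) (x : T), (∀ m ∈ s, x ∉ Dev μ p m δ N) →
        ‖av p N g x - ∫ y, g y ∂μ‖ < η := by
  induction hg using Submodule.span_induction with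
  | mem g hg =>
    obtain ⟨n, rfl⟩ := hg
    intro η hη
    refine ⟨{n}, η, hη, fun N x hx => ?_⟩
    have h1 := hx n (by simp)
    simp only [Dev, mem_ofPred_eq, not_le] at h1
    exact h1
  | zero =>
    intro η hη
    refine ⟨∅, 1, one_pos, fun N x _ => ?_⟩
    simp [av, hη]
  | add f g _ _ hf hg =>
    intro η hη
    obtain ⟨s, δ, hδ, hs⟩ := hf (η / 2) (by positivity)
    obtain ⟨t, ε, hε, ht⟩ := hg (η / 2) (by positivity)
    refine ⟨s ∪ t, min δ ε, lt_min hδ hε, fun N x hx => ?_⟩
    have h1 := hs N x (fun m hm hm' => hx m (Finset.mem_union_left _ hm) (by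
      simp only [Dev, mem_ofPred_eq] at hm' ⊢
      exact (min_le_left _ _).trans hm'))
    have h2 := ht N x (fun m hm hm' => hx m (Finset.mem_union_right _ hm) (by
      simp only [Dev, mem_ofPred_eq] at hm' ⊢
      exact (min_le_right _ _).trans hm'))
    rw [av_add]
    simp only [ContinuousMap.add_apply]
    rw [integral_add (rf_int μ f) (rf_int μ g)]
    calc ‖av p N f x + av p N g x - (∫ y, f y ∂μ + ∫ y, g y ∂μ)‖
        = ‖(av p N f x - ∫ y, f y ∂μ) + (av p N g x - ∫ y, g y ∂μ)‖ := by congr 1; ring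
      _ ≤ ‖av p N f x - ∫ y, f y ∂μ‖ + ‖av p N g x - ∫ y, g y ∂μ‖ := norm_add_le _ _
      _ < η := by linarith
  | smul c f _ hf =>
    intro η hη
    obtain ⟨s, δ, hδ, hs⟩ := hf (η / (‖c‖ + 1)) (by positivity)
    refine ⟨s, δ, hδ, fun N x hx => ?_⟩
    have h1 := hs N x hx
    rw [av_smul]
    simp only [ContinuousMap.smul_apply, smul_eq_mul]
    rw [integral_const_mul, ← mul_sub, norm_mul]
    calc ‖c‖ * ‖av p N f x - ∫ y, f y ∂μ‖ ≤ ‖c‖ * (η / (‖c‖ + 1)) :=
          mul_le_mul_of_nonneg_left h1.le (norm_nonneg _)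
      _ < (‖c‖ + 1) * (η / (‖c‖ + 1)) := by
          apply mul_lt_mul_of_pos_right (by linarith) (by positivity)
      _ = η := by field_simp

private theorem rf_cont {μ : Measure T} [IsProbabilityMeasure μ] (p : ℕ) (f : C(T, ℂ)) {η : ℝ}
    (hη : 0 < η) : ∃ (s : Finset ℤ) (δ : ℝ), 0 < δ ∧ ∀ (N : ℕ) (x : T),
      (∀ m ∈ s, x ∉ Dev μ p m δ N) → ‖av p N f x - ∫ y, f y ∂μ‖ < η := by
  have hf : f ∈ (Submodule.span ℂ (range (@fourier 1))).topologicalClosure := by
    have : Fact ((0 : ℝ) < 1) := ⟨one_pos⟩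
    rw [span_fourier_closure_eq_top]; trivial
  rw [← SetLike.mem_coe, Submodule.topologicalClosure_coe, Metric.mem_closure_iff] at hf
  obtain ⟨g, hg, hfg⟩ := hf (η / 4) (by positivity)
  rw [dist_eq_norm] at hfg
  obtain ⟨s, δ, hδ, hs⟩ := rf_span (μ := μ) p hg (η / 4) (by positivity)
  refine ⟨s, δ, hδ, fun N x hx => ?_⟩
  have h1 := hs N x hx
  have h2 : av p N f x = av p N g x + av p N (f - g) x := by
    rw [← av_add]
    congr 1
    abel
  have h3 : ∫ y, f y ∂μ = ∫ y, g y ∂μ + ∫ y, (f - g) y ∂μ := by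
    rw [← integral_add (rf_int μ g) (rf_int μ _)]
    congr 1
    funext y
    simp
  have h4 := av_norm p N (f - g) x
  have h5 := rf_bd μ (f - g)
  rw [probReal_univ, mul_one] at h5
  calc ‖av p N f x - ∫ y, f y ∂μ‖
      = ‖(av p N g x - ∫ y, g y ∂μ) + (av p N (f - g) x - ∫ y, (f - g) y ∂μ)‖ := by
        rw [h2, h3]; congr 1; ring
    _ ≤ ‖av p N g x - ∫ y, g y ∂μ‖ + (‖av p N (f - g) x‖ + ‖∫ y, (f - g) y ∂μ‖) :=
        (norm_add_le _ _).trans (add_le_add le_rfl (norm_sub_le _ _))
    _ < η := by linarith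

theorem rate_cont {μ : Measure T} [IsProbabilityMeasure μ] {p : ℕ} {N : ℕ → ℕ} (h : CC μ p N)
    {f : T → ℝ} (hf : Continuous f) {η : ℝ} (hη : 0 < η) :
    Summable fun j : ℕ => (μ {x | ∫ y, f y ∂μ + η ≤
      ((N j : ℕ) : ℝ)⁻¹ * ∑ i ∈ Finset.range (N j), f (p ^ i • x)}).toReal := by
  set F : C(T, ℂ) := ⟨fun x => ((f x : ℝ) : ℂ), Complex.continuous_ofReal.comp hf⟩ with hF
  obtain ⟨s, δ, hδ, hs⟩ := rf_cont (μ := μ) p F hη
  have hsum : Summable fun j : ℕ => ∑ m ∈ s, (μ (Dev μ p m δ (N j))).toReal :=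
    summable_sum (fun m _ => h m δ hδ)
  refine Summable.of_nonneg_of_le (fun j => ENNReal.toReal_nonneg) (fun j => ?_) hsum
  have hsub : {x | ∫ y, f y ∂μ + η ≤
      ((N j : ℕ) : ℝ)⁻¹ * ∑ i ∈ Finset.range (N j), f (p ^ i • x)} ⊆
      ⋃ m ∈ s, Dev μ p m δ (N j) := by
    intro x hx
    rw [mem_ofPred_eq] at hx
    by_contra hcon
    simp only [mem_iUnion, not_exists] at hcon
    have h1 := hs (N j) x (fun m hm => hcon m hm)
    have h2 : av p (N j) F x =
        ((((N j : ℕ) : ℝ)⁻¹ * ∑ i ∈ Finset.range (N j), f (p ^ i • x) : ℝ) : ℂ) := by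
      simp only [av, hF, ContinuousMap.coe_mk]
      push_cast
      rfl
    have h3 : ∫ y, F y ∂μ = ((∫ y, f y ∂μ : ℝ) : ℂ) := by
      simp only [hF, ContinuousMap.coe_mk]
      rw [integral_complex_ofReal]
    rw [h2, h3, ← Complex.ofReal_sub, Complex.norm_real, Real.norm_eq_abs] at h1
    have h4 := (abs_lt.mp h1).2
    linarith
  have h1 : μ {x | ∫ y, f y ∂μ + η ≤
      ((N j : ℕ) : ℝ)⁻¹ * ∑ i ∈ Finset.range (N j), f (p ^ i • x)} ≤
      ∑ m ∈ s, μ (Dev μ p m δ (N j)) :=
    (measure_mono hsub).trans (measure_biUnion_finset_le _ _)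
  have h2 := ENNReal.toReal_mono (ENNReal.sum_ne_top.mpr (fun m _ => measure_ne_top μ _)) h1
  rwa [ENNReal.toReal_sum (fun m _ => measure_ne_top μ _)] at h2

private theorem dev_meas (μ : Measure T) (p : ℕ) (m : ℤ) (η : ℝ) (N : ℕ) :
    MeasurableSet (Dev μ p m η N) := by
  apply IsClosed.measurableSet
  apply isClosed_le continuous_const
  fun_prop

theorem rate_inv {μ : Measure T} [IsProbabilityMeasure μ] {p : ℕ} {N : ℕ → ℕ} (h : CC μ p N)
    (hN : StrictMono N) (hp : MeasurePreserving (fun x : T => p • x) μ μ) {S : Set T}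
    (hS : MeasurableSet S) (hinv : (fun x : T => p • x) ⁻¹' S = S) : μ S = 0 ∨ μ Sᶜ = 0 := by
  have hr : MeasurePreserving (fun x : T => p • x) (μ.restrict S) (μ.restrict S) := by
    have h1 := hp.restrict_preimage hS
    rwa [hinv] at h1
  have hri : ∀ i : ℕ, MeasurePreserving (fun x : T => p ^ i • x) (μ.restrict S) (μ.restrict S) := by
    intro i
    induction i with
    | zero =>
      simp only [pow_zero, one_smul]
      exact MeasurePreserving.id _
    | succ i ih =>
      have h1 := hr.comp ih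
      have e : (fun x : T => p • x) ∘ (fun x : T => p ^ i • x) = fun x : T => p ^ (i + 1) • x := by
        funext x
        simp only [Function.comp_apply]
        rw [← mul_smul, pow_succ']
      rwa [e] at h1
  have hchar : ∀ m : ℤ, ∫ x, fourier m x ∂(μ.restrict S) = ∫ x, fourier m x ∂(μ S • μ) := by
    intro m
    have hi : ∀ i : ℕ, ∫ x, fourier m (p ^ i • x) ∂(μ.restrict S) =
        ∫ x, fourier m x ∂(μ.restrict S) := by
      intro i
      have h1 := integral_map (hri i).aemeasurable (f := fun x => fourier m x)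
        (fourier m).continuous.aestronglyMeasurable
      rw [(hri i).map_eq] at h1
      exact h1.symm
    have hav : ∀ n : ℕ, 1 ≤ n → ∫ x, av p n (fourier m) x ∂(μ.restrict S) =
        ∫ x, fourier m x ∂(μ.restrict S) := by
      intro n hn
      unfold av
      rw [integral_const_mul, integral_finsetSum]
      · simp_rw [hi]
        rw [Finset.sum_const, Finset.card_range, nsmul_eq_mul, ← mul_assoc]
        have : (n : ℂ) ≠ 0 := by exact_mod_cast (by omega : n ≠ 0)
        rw [inv_mul_cancel₀ this, one_mul]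
      · intro i _
        have hc : Continuous fun x : T => fourier m (p ^ i • x) := by fun_prop
        exact rf_int _ ⟨_, hc⟩
    rw [integral_smul_measure, Complex.real_smul]
    rw [← sub_eq_zero, ← norm_eq_zero]
    refine le_antisymm (le_of_forall_pos_le_add fun δ hδ => ?_) (norm_nonneg _)
    have hlim := (h m (δ / 2) (by positivity)).tendsto_atTop_zero
    obtain ⟨j, hj1, hj2⟩ := ((hlim.eventually_lt_const (show (0 : ℝ) < δ / 4 by positivity)).and
      (eventually_ge_atTop 1)).exists
    have hNj : 1 ≤ N j := hj2.trans (hN.id_le j)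
    rw [← hav (N j) hNj]
    have hcont : Continuous fun x : T => av p (N j) (fourier m) x := by
      unfold av
      fun_prop
    have e1 : ((μ S).toReal : ℂ) * ∫ x, fourier m x ∂μ =
        ∫ x, (∫ y, fourier m y ∂μ) ∂(μ.restrict S) := by
      rw [integral_const, Complex.real_smul, measureReal_def, Measure.restrict_apply_univ]
    have hIa : ∀ κ : Measure T, IsFiniteMeasure κ →
        Integrable (fun x => av p (N j) (fourier m) x) κ := fun κ _ => rf_int κ ⟨_, hcont⟩
    rw [e1, ← integral_sub (hIa _ inferInstance) (integrable_const _), zero_add]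
    have hI : Integrable (fun x => ‖av p (N j) (fourier m) x - ∫ y, fourier m y ∂μ‖) μ :=
      ((hIa μ inferInstance).sub (integrable_const _)).norm
    refine (norm_integral_le_integral_norm _).trans ?_
    refine (setIntegral_mono_set (t := univ) (hI.integrableOn)
      (Eventually.of_forall (fun x => norm_nonneg _)) (Eventually.of_forall (fun x _ => trivial))).trans ?_
    rw [setIntegral_univ]
    have hb : ∀ x, ‖av p (N j) (fourier m) x - ∫ y, fourier m y ∂μ‖ ≤
        δ / 2 + (Dev μ p m (δ / 2) (N j)).indicator (fun _ => (2 : ℝ)) x := by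
      intro x
      by_cases hx : x ∈ Dev μ p m (δ / 2) (N j)
      · rw [indicator_of_mem hx]
        have h1 := av_norm p (N j) (fourier m) x
        have h2 := rf_bd μ (fourier m)
        rw [probReal_univ, mul_one] at h2
        have h3 : ‖(fourier m : C(T, ℂ))‖ = 1 := fourier_norm m
        rw [h3] at h1 h2
        have h4 := norm_sub_le (av p (N j) (fourier m) x) (∫ y, fourier m y ∂μ)
        linarith
      · rw [indicator_of_notMem hx]
        simp only [Dev, mem_ofPred_eq, not_le] at hx
        have : ‖av p (N j) (fourier m) x - ∫ y, fourier m y ∂μ‖ < δ / 2 := hx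
        linarith
    have hI2 : Integrable ((Dev μ p m (δ / 2) (N j)).indicator (fun _ => (2 : ℝ))) μ :=
      (integrable_const (2 : ℝ)).indicator (dev_meas μ p m _ _)
    refine (integral_mono hI ((integrable_const (δ / 2)).add hI2) hb).trans ?_
    simp only [Pi.add_apply]
    rw [integral_add (integrable_const _) hI2, integral_const, probReal_univ, one_smul,
      integral_indicator (dev_meas μ p m _ _), setIntegral_const, smul_eq_mul, measureReal_def]
    linarith
  have hfin : IsFiniteMeasure (μ S • μ) := by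
    refine ⟨?_⟩
    simp only [Measure.smul_apply, smul_eq_mul, measure_univ, mul_one]
    exact measure_lt_top μ S
  have heq : μ.restrict S = μ S • μ := rf_ext hchar
  have h1 : (μ.restrict S) Sᶜ = (μ S • μ) Sᶜ := by rw [heq]
  rw [Measure.restrict_apply hS.compl, compl_inter_self, measure_empty, Measure.smul_apply,
    smul_eq_mul] at h1
  exact mul_eq_zero.mp h1.symm

end Pool.Agent.LLN
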