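import Pool.Agent.LLN.Defs
import Pool.Agent.LogSc.Cell

open MeasureTheory Set Filter Topology
open scoped ENNReal NNReal

namespace Pool.Agent.LLN

/-! VSET. The set of differences of the covering set. HINT: a finite union of closed balls (`Metric.closedBall`, `dist_eq_norm`,
`AddCircle.volume_closedBall`), measure at most `|W| ^ 2 * 4 / 2 ^ L`. For `vs_mem`: `rep x ∈ [w / 2 ^ L, (w + 1) / 2 ^ L)` for
`w = cell 2 L x` and the same for `y`; `AddCircle.norm_eq` / `‖(a : T)‖ ≤ |a|` (see `LogSc.Br`, `LogSc.Cell`). -/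

private theorem vset_eq (L : ℕ) (W : Finset ℕ) : VS L W = ⋃ p ∈ W ×ˢ W,
    Metric.closedBall ((((p.1 : ℝ) - (p.2 : ℝ)) / (2 : ℝ) ^ L : ℝ) : T) (2 * ((2 : ℝ) ^ L)⁻¹) := by
  ext z
  simp only [VS, mem_ofPred_eq, mem_iUnion, Metric.mem_closedBall, dist_eq_norm, Finset.mem_product,
    exists_prop, Prod.exists]
  constructor
  · rintro ⟨w, hw, w', hw', h⟩
    exact ⟨w, w', ⟨hw, hw'⟩, h⟩
  · rintro ⟨w, w', ⟨hw, hw'⟩, h⟩
    exact ⟨w, hw, w', hw', h⟩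

theorem isClosed_vs (L : ℕ) (W : Finset ℕ) : IsClosed (VS L W) := by
  rw [vset_eq]
  exact Set.Finite.isClosed_biUnion (Finset.finite_toSet _) (fun p _ => Metric.isClosed_closedBall)

theorem volume_vs {L : ℕ} {W : Finset ℕ} (hW : 64 * W.card ^ 2 ≤ 2 ^ L) :
    volume (VS L W) ≤ 1 / 16 := by
  have hL : (0 : ℝ) < (2 : ℝ) ^ L := by positivity
  have hball : ∀ c : T, volume (Metric.closedBall c (2 * ((2 : ℝ) ^ L)⁻¹)) ≤
      ENNReal.ofReal (4 / (2 : ℝ) ^ L) := by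
    intro c
    rw [AddCircle.volume_closedBall]
    apply ENNReal.ofReal_le_ofReal
    refine (min_le_right _ _).trans (le_of_eq ?_)
    rw [div_eq_mul_inv]; ring
  rw [vset_eq]
  calc volume (⋃ p ∈ W ×ˢ W,
        Metric.closedBall ((((p.1 : ℝ) - (p.2 : ℝ)) / (2 : ℝ) ^ L : ℝ) : T) (2 * ((2 : ℝ) ^ L)⁻¹))
      ≤ ∑ p ∈ W ×ˢ W, volume
        (Metric.closedBall ((((p.1 : ℝ) - (p.2 : ℝ)) / (2 : ℝ) ^ L : ℝ) : T) (2 * ((2 : ℝ) ^ L)⁻¹)) :=
        measure_biUnion_finset_le _ _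
    _ ≤ ∑ _p ∈ W ×ˢ W, ENNReal.ofReal (4 / (2 : ℝ) ^ L) := Finset.sum_le_sum (fun p _ => hball _)
    _ = ENNReal.ofReal ((W.card : ℝ) ^ 2 * (4 / (2 : ℝ) ^ L)) := by
        rw [Finset.sum_const, Finset.card_product, nsmul_eq_mul,
          ENNReal.ofReal_mul (by positivity : (0 : ℝ) ≤ (W.card : ℝ) ^ 2)]
        congr 1
        rw [← sq, ← Nat.cast_pow, ENNReal.ofReal_natCast]
    _ ≤ ENNReal.ofReal (1 / 16) := by
        apply ENNReal.ofReal_le_ofReal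
        have h1 : (64 : ℝ) * (W.card : ℝ) ^ 2 ≤ 2 ^ L := by exact_mod_cast hW
        rw [mul_div_assoc', div_le_div_iff₀ hL (by norm_num)]
        linarith
    _ = 1 / 16 := by
        rw [ENNReal.ofReal_div_of_pos (by norm_num), ENNReal.ofReal_one]
        norm_num

theorem vs_mem {L : ℕ} {W : Finset ℕ} {x y z : T} (hx : cell 2 L x ∈ W) (hy : cell 2 L y ∈ W)
    (hz : ‖z - (x - y)‖ ≤ ((2 : ℝ) ^ L)⁻¹) : z ∈ VS L W := by
  refine ⟨cell 2 L x, hx, cell 2 L y, hy, ?_⟩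
  have h := LogSc.cell_near (b := 2) (by norm_num) L x y
  push_cast at h
  set c : T := (((((cell 2 L x : ℕ) : ℝ) - ((cell 2 L y : ℕ) : ℝ)) / (2 : ℝ) ^ L : ℝ) : T) with hc
  calc ‖z - c‖ = ‖(z - (x - y)) + ((x - y) - c)‖ := by
        congr 1; abel
    _ ≤ ‖z - (x - y)‖ + ‖(x - y) - c‖ := norm_add_le _ _
    _ ≤ 2 * ((2 : ℝ) ^ L)⁻¹ := by linarith [h.le]

end Pool.Agent.LLN
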