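import Pool.Agent.LLN.Count
import Pool.Agent.LLN.Vset
import Pool.Agent.LogSc.Cover
import Pool.Agent.LogSc.Small
import Pool.Agent.LogSc.Inj

open MeasureTheory Set Filter Topology
open scoped ENNReal NNReal

namespace Pool.Agent.LLN

/-! SEPAR. The separation, steps (2), (3) of the text. HINT: `LogSc.inj_of_singular` for `(2, 9)` and `(3, 4)`;
`LogSc.cover` with `δ = 1/200` gives `L, W`; `count` for `VS L W` (`isClosed_vs`, `volume_vs`) gives `t0, N0`;
`LogSc.small` with `L := t0`, `δ = 1/200` gives `K, η0`; `F` compact, `F ⊆ K ∩ {cell 2 L x ∈ W}`, `μ Fᶜ ≤ 1/64` (inner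
regularity); `f x = min 1 (infDist x F / ε)`, `3 ε < η0`, `3 ε ≤ 2 ^ (-L)`, so `∫ f ≤ μ Fᶜ`. If `∑_{i<n} f (p ^ i x) ≤ n / 16` then
`p ^ i x` is `ε`-close to `F` for at least `15 n / 16` of the `i < n`. If `‖x - y - θ‖ < 16 ^ (-n)`, `3 ^ n 16 ^ (-n) ≤ ε`, then
for at least `7 n / 8` of the `i` there are `x', y' ∈ F` with `‖p ^ i θ - (x' - y')‖ ≤ 3 ε`. If `q ^ t0 • θ = 0`: contradiction
to `K` (`p ^ i θ ≠ 0`, `6 ^ t0 • p ^ i θ = 0`). Else `θ` has order `q ^ t`, `t0 < t ≤ k`, and `p ^ i θ ∈ VS L W` for `7 n / 8` of the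
`i` (`vs_mem`): contradiction to `count`. -/

private theorem separ_norm_nsmul (k : ℕ) (x : T) : ‖k • x‖ ≤ k * ‖x‖ := by
  induction k with
  | zero => simp
  | succ k ih =>
    rw [succ_nsmul]
    refine (norm_add_le _ _).trans ?_
    push_cast
    nlinarith

/-- Points of the orbit close to `F`. -/
private theorem separ_bad {F : Set T} {ε : ℝ} (hε : 0 < ε) (n : ℕ) (g : ℕ → T)
    (h : ∑ i ∈ Finset.range n, min 1 (Metric.infDist (g i) F / ε) ≤ (n : ℝ) / 16) :
    (((Finset.range n).filter (fun i => ε ≤ Metric.infDist (g i) F)).card : ℝ) ≤ (n : ℝ) / 16 := by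
  refine le_trans ?_ h
  rw [Finset.card_eq_sum_ones]
  push_cast
  refine (Finset.sum_le_sum (f := fun _ => (1 : ℝ))
    (g := fun i => min 1 (Metric.infDist (g i) F / ε)) ?_).trans ?_
  · intro i hi
    rw [Finset.mem_filter] at hi
    have : 1 ≤ Metric.infDist (g i) F / ε := (one_le_div hε).mpr hi.2
    simp [this]
  · refine Finset.sum_le_sum_of_subset_of_nonneg (Finset.filter_subset _ _) ?_
    intro i _ _
    exact le_min zero_le_one (div_nonneg Metric.infDist_nonneg hε.le)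

theorem separ {μ : Measure T} [IsProbabilityMeasure μ]
    (h2 : MeasurePreserving (fun x : T => 2 • x) μ μ)
    (h3 : MeasurePreserving (fun x : T => 3 • x) μ μ) (hs : μ ⟂ₘ volume)
    {p q : ℕ} (hpq : (p = 2 ∧ q = 3) ∨ (p = 3 ∧ q = 2)) {κ : ℝ} (hκ1 : 1 < κ) (hκ2 : κ < 3 / 2) :
    ∃ (f : T → ℝ) (n1 : ℕ), Continuous f ∧ ∫ x, f x ∂μ ≤ 1 / 32 ∧
      ∀ n ≥ n1, ∀ x y : T, ∑ i ∈ Finset.range n, f (p ^ i • x) ≤ (n : ℝ) / 16 →
        ∑ i ∈ Finset.range n, f (p ^ i • y) ≤ (n : ℝ) / 16 →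
        ∀ k : ℕ, (k : ℝ) ≤ (Nat.log 2 n : ℝ) ^ κ → ∀ θ : T, θ ≠ 0 → q ^ k • θ = 0 →
          ((16 : ℝ) ^ n)⁻¹ ≤ ‖x - y - θ‖ := by
  classical
  have h4 : MeasurePreserving (fun x : T => 4 • x) μ μ := by
    have h := h2.comp h2
    have e : (fun x : T => 2 • x) ∘ (fun x : T => 2 • x) = fun x : T => 4 • x := by
      funext x
      simp only [Function.comp_apply]
      rw [← mul_smul]
      norm_num
    rwa [e] at h
  have h9 : MeasurePreserving (fun x : T => 9 • x) μ μ := by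
    have h := h3.comp h3
    have e : (fun x : T => 3 • x) ∘ (fun x : T => 3 • x) = fun x : T => 9 • x := by
      funext x
      simp only [Function.comp_apply]
      rw [← mul_smul]
      norm_num
    rwa [e] at h
  obtain ⟨X, hX, hX0, hXi⟩ := LogSc.inj_of_singular (Or.inr ⟨rfl, rfl⟩) h2 h9 hs
  obtain ⟨Y, hY, hY0, hYi⟩ := LogSc.inj_of_singular (Or.inl ⟨rfl, rfl⟩) h3 h4 hs
  have hδ : (1 / 200 : ℝ≥0∞) ≠ 0 := by simp
  obtain ⟨L, W, hW, hcov⟩ := LogSc.cover h2 hX hX0 hXi hδ
  obtain ⟨t0, N0, hcount⟩ := count hpq hκ1 hκ2 (isClosed_vs L W) (volume_vs hW)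
  obtain ⟨K, hKm, hK0, η, hη, hKs⟩ := LogSc.small h2 h3 hX hX0 hXi hY hY0 hYi t0 hδ
  -- the compact set
  have hSm : MeasurableSet (K ∩ {x : T | cell 2 L x ∈ W}) :=
    hKm.inter ((LogSc.measurable_cell 2 L) (MeasurableSet.of_discrete (s := (W : Set ℕ))))
  have hS0 : μ (K ∩ {x : T | cell 2 L x ∈ W})ᶜ ≤ 1 / 100 := by
    rw [compl_inter]
    refine (measure_union_le _ _).trans ?_
    have e : {x : T | cell 2 L x ∈ W}ᶜ = {x | LogSc.cell 2 L x ∉ W} := rfl
    rw [e]
    calc μ Kᶜ + μ {x | LogSc.cell 2 L x ∉ W} ≤ 1 / 200 + 1 / 200 := add_le_add hK0 hcov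
      _ = 1 / 100 := by
        rw [ENNReal.div_add_div_same]
        rw [ENNReal.div_eq_div_iff] <;> norm_num
  obtain ⟨F, hFS, hFc, hFlt⟩ := hSm.exists_isCompact_lt_add (measure_ne_top μ _) hδ
  have hF0 : μ Fᶜ ≤ 1 / 64 := by
    have e1 := measure_add_measure_compl (μ := μ) hSm
    have e2 := measure_add_measure_compl (μ := μ) hFc.measurableSet
    have h5 : μ F + μ Fᶜ < μ F + (1 / 200 + 1 / 100) := by
      rw [e2, ← e1, ← add_assoc]
      exact ENNReal.add_lt_add_of_lt_of_le (measure_ne_top _ _) hFlt hS0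
    have h6 : μ Fᶜ < 1 / 200 + 1 / 100 := (ENNReal.add_lt_add_iff_left (measure_ne_top _ _)).mp h5
    refine h6.le.trans ?_
    have : (1 / 200 + 1 / 100 : ℝ≥0∞) = ENNReal.ofReal (3 / 200) := by
      rw [show (3 / 200 : ℝ) = 1 / 200 + 1 / 100 by norm_num, ENNReal.ofReal_add (by norm_num)
        (by norm_num)]
      congr 1 <;> rw [ENNReal.ofReal_div_of_pos (by norm_num)] <;> simp
    rw [this]
    have e64 : (1 / 64 : ℝ≥0∞) = ENNReal.ofReal (1 / 64) := by
      rw [ENNReal.ofReal_div_of_pos (by norm_num)]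
      simp
    rw [e64]
    exact ENNReal.ofReal_le_ofReal (by norm_num)
  have hFne : F.Nonempty := by
    rw [nonempty_iff_ne_empty]
    intro h0
    rw [h0, compl_empty, measure_univ] at hF0
    have : ¬ ((1 : ℝ≥0∞) ≤ 1 / 64) := by
      rw [not_le]
      rw [ENNReal.div_lt_iff] <;> norm_num
    exact this hF0
  obtain ⟨ε, hε, hε1, hε2⟩ : ∃ ε : ℝ, 0 < ε ∧ 3 * ε < η ∧ 3 * ε ≤ ((2 : ℝ) ^ L)⁻¹ := by
    refine ⟨min η ((2 : ℝ) ^ L)⁻¹ / 4, by positivity, ?_, ?_⟩
    · have h1 := min_le_left η ((2 : ℝ) ^ L)⁻¹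
      linarith
    · have h1 := min_le_right η ((2 : ℝ) ^ L)⁻¹
      have h2 : 0 < ((2 : ℝ) ^ L)⁻¹ := by positivity
      linarith
  have hnlim : ∀ᶠ n : ℕ in atTop, (3 / 16 : ℝ) ^ n < ε :=
    (tendsto_pow_atTop_nhds_zero_of_lt_one (by norm_num) (by norm_num)).eventually_lt_const hε
  obtain ⟨n2, hn2⟩ := eventually_atTop.mp hnlim
  refine ⟨fun x => min 1 (Metric.infDist x F / ε), max (max n2 N0) 1, ?_, ?_, ?_⟩
  · exact continuous_const.min ((Metric.continuous_infDist_pt F).div_const ε)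
  · have h5 : ∫ x, min 1 (Metric.infDist x F / ε) ∂μ ≤ ∫ x, (Fᶜ).indicator (fun _ => (1 : ℝ)) x ∂μ := by
      apply integral_mono_of_nonneg
      · exact Eventually.of_forall (fun x =>
          le_min zero_le_one (div_nonneg Metric.infDist_nonneg hε.le))
      · exact (integrable_const (1 : ℝ)).indicator hFc.measurableSet.compl
      · refine Eventually.of_forall (fun x => ?_)
        by_cases hx : x ∈ F
        · simp [Metric.infDist_zero_of_mem hx, hx]
        · simp [hx]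
    rw [integral_indicator hFc.measurableSet.compl, setIntegral_const, smul_eq_mul, mul_one] at h5
    refine h5.trans ?_
    have h6 : μ.real Fᶜ ≤ 1 / 64 := by
      rw [measureReal_def]
      have := ENNReal.toReal_mono (by simp) hF0
      simpa using this
    linarith
  · intro n hn x y hx hy k hk θ hθ hθ0
    by_contra hcon
    rw [not_le] at hcon
    have hnn2 : n2 ≤ n := le_trans (le_trans (le_max_left _ _) (le_max_left _ _)) hn
    have hnN0 : N0 ≤ n := le_trans (le_trans (le_max_right _ _) (le_max_left _ _)) hn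
    have hn1 : 1 ≤ n := le_trans (le_max_right _ _) hn
    have hp3 : p ≤ 3 := by rcases hpq with ⟨h, _⟩ | ⟨h, _⟩ <;> omega
    have hpqc : Nat.Coprime p q := by
      rcases hpq with ⟨h, h'⟩ | ⟨h, h'⟩ <;> subst h <;> subst h' <;> decide
    have hpq6 : p * q = 6 := by
      rcases hpq with ⟨h, h'⟩ | ⟨h, h'⟩ <;> subst h <;> subst h' <;> rfl
    have hqp : Nat.Prime q := by
      rcases hpq with ⟨h, h'⟩ | ⟨h, h'⟩ <;> subst h' <;> norm_num
    have bx := separ_bad hε n (fun i => p ^ i • x) hx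
    have by' := separ_bad hε n (fun i => p ^ i • y) hy
    set G : Finset ℕ := (Finset.range n).filter (fun i =>
      Metric.infDist (p ^ i • x) F < ε ∧ Metric.infDist (p ^ i • y) F < ε) with hG
    have hGcard : (7 / 8 : ℝ) * n ≤ G.card := by
      have hsub : Finset.range n ⊆ G ∪
          ((Finset.range n).filter (fun i => ε ≤ Metric.infDist (p ^ i • x) F) ∪
          (Finset.range n).filter (fun i => ε ≤ Metric.infDist (p ^ i • y) F)) := by
        intro i hi
        simp only [hG, Finset.mem_union, Finset.mem_filter]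
        by_cases a : Metric.infDist (p ^ i • x) F < ε
        · by_cases b : Metric.infDist (p ^ i • y) F < ε
          · exact Or.inl ⟨hi, a, b⟩
          · exact Or.inr (Or.inr ⟨hi, not_lt.mp b⟩)
        · exact Or.inr (Or.inl ⟨hi, not_lt.mp a⟩)
      have h5 := (Finset.card_le_card hsub).trans (Finset.card_union_le _ _)
      have h6 := Finset.card_union_le
        ((Finset.range n).filter (fun i => ε ≤ Metric.infDist (p ^ i • x) F))
        ((Finset.range n).filter (fun i => ε ≤ Metric.infDist (p ^ i • y) F))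
      rw [Finset.card_range] at h5
      have h7 : (n : ℝ) ≤ G.card +
          (((Finset.range n).filter (fun i => ε ≤ Metric.infDist (p ^ i • x) F)).card +
          ((Finset.range n).filter (fun i => ε ≤ Metric.infDist (p ^ i • y) F)).card) := by
        exact_mod_cast h5.trans (Nat.add_le_add_left h6 _)
      linarith
    have hclose : ∀ i ∈ G, ∃ x' ∈ F, ∃ y' ∈ F, ‖p ^ i • θ - (x' - y')‖ ≤ 3 * ε := by
      intro i hi
      rw [hG, Finset.mem_filter, Finset.mem_range] at hi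
      obtain ⟨hin, hix, hiy⟩ := hi
      obtain ⟨x', hx', hdx⟩ := (Metric.infDist_lt_iff hFne).mp hix
      obtain ⟨y', hy', hdy⟩ := (Metric.infDist_lt_iff hFne).mp hiy
      refine ⟨x', hx', y', hy', ?_⟩
      rw [dist_eq_norm] at hdx hdy
      have h5 : ‖p ^ i • (x - y - θ)‖ ≤ ε := by
        refine (separ_norm_nsmul _ _).trans ?_
        have h6 : ((p ^ i : ℕ) : ℝ) ≤ 3 ^ n := by
          push_cast
          calc (p : ℝ) ^ i ≤ 3 ^ i := pow_le_pow_left₀ (by positivity) (by exact_mod_cast hp3) _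
            _ ≤ 3 ^ n := pow_le_pow_right₀ (by norm_num) hin.le
        calc ((p ^ i : ℕ) : ℝ) * ‖x - y - θ‖ ≤ 3 ^ n * ((16 : ℝ) ^ n)⁻¹ :=
              mul_le_mul h6 hcon.le (norm_nonneg _) (by positivity)
          _ = (3 / 16 : ℝ) ^ n := by rw [div_pow, div_eq_mul_inv]
          _ ≤ ε := (hn2 n hnn2).le
      have e : p ^ i • θ - (x' - y') = (p ^ i • x - x') - (p ^ i • y - y') -
          p ^ i • (x - y - θ) := by
        rw [smul_sub, smul_sub]
        abel
      rw [e]
      calc ‖(p ^ i • x - x') - (p ^ i • y - y') - p ^ i • (x - y - θ)‖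
          ≤ ‖(p ^ i • x - x') - (p ^ i • y - y')‖ + ‖p ^ i • (x - y - θ)‖ := norm_sub_le _ _
        _ ≤ (‖p ^ i • x - x'‖ + ‖p ^ i • y - y'‖) + ‖p ^ i • (x - y - θ)‖ := by
            gcongr
            exact norm_sub_le _ _
        _ ≤ 3 * ε := by linarith
    -- order of θ
    obtain ⟨t, htk, ht⟩ := (Nat.dvd_prime_pow hqp).mp (addOrderOf_dvd_of_nsmul_eq_zero hθ0)
    by_cases htt : t ≤ t0
    · have hGne : G.Nonempty := by
        rw [← Finset.card_pos]
        have : (0 : ℝ) < G.card := lt_of_lt_of_le (by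
          have : (1 : ℝ) ≤ n := by exact_mod_cast hn1
          linarith) hGcard
        exact_mod_cast this
      obtain ⟨i, hi⟩ := hGne
      obtain ⟨x', hx', y', hy', hc⟩ := hclose i hi
      have hne : p ^ i • θ ≠ 0 := by
        intro h0
        have h5 : addOrderOf θ ∣ p ^ i := addOrderOf_dvd_of_nsmul_eq_zero h0
        rw [ht] at h5
        have h6 : Nat.Coprime (q ^ t) (p ^ i) := Nat.Coprime.pow _ _ hpqc.symm
        have h7 : q ^ t = 1 := Nat.Coprime.eq_one_of_dvd h6 h5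
        rw [h7] at ht
        exact hθ (AddMonoid.addOrderOf_eq_one_iff.mp ht)
      have h6 : 6 ^ t0 • (p ^ i • θ) = 0 := by
        rw [← mul_smul]
        apply (addOrderOf_dvd_iff_nsmul_eq_zero).mp
        rw [ht, ← hpq6, mul_pow]
        exact Dvd.dvd.mul_right (Dvd.dvd.mul_left (pow_dvd_pow _ htt) _) _
      have h7 := hKs x' (hFS hx').1 y' (hFS hy').1 (p ^ i • θ) hne h6
      rw [norm_sub_rev] at hc
      have : η ≤ 3 * ε := h7.trans hc
      linarith
    · have htk' : (t : ℝ) ≤ (Nat.log 2 n : ℝ) ^ κ := by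
        refine le_trans ?_ hk
        exact_mod_cast htk
      have h5 := hcount n hnN0 t (by omega) htk' θ ht
      have h6 : G ⊆ (Finset.range n).filter (fun i => p ^ i • θ ∈ VS L W) := by
        intro i hi
        obtain ⟨x', hx', y', hy', hc⟩ := hclose i hi
        rw [Finset.mem_filter]
        refine ⟨(Finset.mem_filter.mp hi).1, ?_⟩
        exact vs_mem (hFS hx').2 (hFS hy').2 (hc.trans hε2)
      have h7 : 2 * G.card ≤ n := (Nat.mul_le_mul_left 2 (Finset.card_le_card h6)).trans h5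
      have h8 : (2 : ℝ) * G.card ≤ n := by exact_mod_cast h7
      have h9 : (1 : ℝ) ≤ n := by exact_mod_cast hn1
      linarith

end Pool.Agent.LLN
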