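import Pool.Agent.LLN.Decomp
import Pool.Agent.LLN.Separ
import Pool.Agent.LLN.Chain
import Pool.Agent.LLN.RateF

open MeasureTheory Set Filter Topology
open scoped ENNReal NNReal

namespace Pool.Agent.LLN

/-! MAIN. -/

theorem log_le_natLog : ∀ᶠ n : ℕ in atTop, Real.log n ≤ (Nat.log 2 n : ℝ) := by
  have hl2 : Real.log 2 < 1 := by linarith [Real.log_two_lt_d9]
  have hl0 : 0 < Real.log 2 := Real.log_pos (by norm_num)
  have h1 : Tendsto (fun n : ℕ => Real.log n) atTop atTop :=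
    Real.tendsto_log_atTop.comp tendsto_natCast_atTop_atTop
  filter_upwards [h1.eventually_ge_atTop (Real.log 2 / (1 - Real.log 2)), eventually_ge_atTop 1]
    with n hn hn1
  have h2 : Real.log n < (Nat.log 2 n + 1 : ℝ) * Real.log 2 := by
    have h3 : n < 2 ^ (Nat.log 2 n + 1) := Nat.lt_pow_succ_log_self (by norm_num) n
    have h4 : (n : ℝ) < (2 : ℝ) ^ (Nat.log 2 n + 1) := by exact_mod_cast h3
    have hn0 : (0 : ℝ) < n := by exact_mod_cast hn1
    have h5 := Real.log_lt_log hn0 h4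
    rw [Real.log_pow] at h5
    push_cast at h5
    exact h5
  rw [div_le_iff₀ (by linarith)] at hn
  nlinarith

theorem four_rpow {κ κ' : ℝ} (h : κ < κ') (h1 : 0 < κ') :
    ∀ᶠ n : ℕ in atTop, 4 * Real.log n ^ κ ≤ (Nat.log 2 n : ℝ) ^ κ' := by
  have h0 : Tendsto (fun n : ℕ => Real.log n) atTop atTop :=
    Real.tendsto_log_atTop.comp tendsto_natCast_atTop_atTop
  have h2 : Tendsto (fun y : ℝ => y ^ (κ' - κ)) atTop atTop := tendsto_rpow_atTop (by linarith)
  filter_upwards [log_le_natLog, h0.eventually_ge_atTop 1,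
    (h2.comp h0).eventually_ge_atTop 4] with n hn hn1 hn4
  have hpos : 0 < Real.log n := by linarith
  calc 4 * Real.log n ^ κ ≤ Real.log n ^ (κ' - κ) * Real.log n ^ κ :=
        mul_le_mul_of_nonneg_right hn4 (Real.rpow_nonneg hpos.le _)
    _ = Real.log n ^ κ' := by rw [← Real.rpow_add hpos]; congr 1; ring
    _ ≤ (Nat.log 2 n : ℝ) ^ κ' := Real.rpow_le_rpow hpos.le hn h1.le

theorem eq_volume_of_cc {μ : Measure T} [IsProbabilityMeasure μ]
    (h2 : MeasurePreserving (fun x : T => 2 • x) μ μ)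
    (h3 : MeasurePreserving (fun x : T => 3 • x) μ μ) (hat : ∀ x, μ {x} = 0)
    {p q : ℕ} (hpq : (p = 2 ∧ q = 3) ∨ (p = 3 ∧ q = 2)) {κ : ℝ} (hκ : κ < 3 / 2) {N : ℕ → ℕ}
    (hN : StrictMono N) (hgap : ∀ᶠ j in atTop, (N (j + 1) : ℝ) ≤ N j + Real.log (N j) ^ κ)
    (h : CC μ p N) : μ = volume := by
  have hp : MeasurePreserving (fun x : T => p • x) μ μ := by
    rcases hpq with ⟨rfl, rfl⟩ | ⟨rfl, rfl⟩ <;> assumption
  have hq : MeasurePreserving (fun x : T => q • x) μ μ := by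
    rcases hpq with ⟨rfl, rfl⟩ | ⟨rfl, rfl⟩ <;> assumption
  have hq2 : 2 ≤ q := by rcases hpq with ⟨rfl, rfl⟩ | ⟨rfl, rfl⟩ <;> norm_num
  obtain ⟨S, hS, hS2, hS3, hS0, hdec, hsing, -, -⟩ := decomp μ h2 h3
  have hSp : (fun x : T => p • x) ⁻¹' S = S := by
    rcases hpq with ⟨rfl, rfl⟩ | ⟨rfl, rfl⟩ <;> assumption
  rcases rate_inv h hN hp hS hSp with hz | hz
  · -- no singular part
    have hr : μ.restrict S = 0 := Measure.restrict_eq_zero.2 hz
    have hc : μ Sᶜ = 1 := by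
      have := prob_add_prob_compl (μ := μ) hS
      rw [hz, zero_add] at this
      exact this
    rw [hr, hc, one_smul, add_zero] at hdec
    exact hdec
  exfalso
  have hs : μ ⟂ₘ volume := by
    have : μ.restrict S = μ := by
      refine Measure.restrict_eq_self_of_ae_mem ?_
      rw [ae_iff]
      exact hz
    rwa [this] at hsing
  set κ' : ℝ := (max κ 1 + 3 / 2) / 2 with hκ'
  have hm1 : κ ≤ max κ 1 := le_max_left _ _
  have hm2 : (1 : ℝ) ≤ max κ 1 := le_max_right _ _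
  have hm3 : max κ 1 < 3 / 2 := max_lt hκ (by norm_num)
  have hk1 : 1 < κ' := by rw [hκ']; linarith
  have hk2 : κ' < 3 / 2 := by rw [hκ']; linarith
  have hk3 : κ < κ' := by rw [hκ']; linarith
  obtain ⟨f, n1, hf, hint, hsep⟩ := separ h2 h3 hs hpq hk1 hk2
  have hNt : Tendsto N atTop atTop := hN.tendsto_atTop
  -- the sets
  let E : ℕ → Set T := fun n => {x | ∑ i ∈ Finset.range n, f (p ^ i • x) ≤ (n : ℝ) / 16}
  have hE : ∀ n, MeasurableSet (E n) := by
    intro n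
    have hc : Continuous fun x : T => ∑ i ∈ Finset.range n, f (p ^ i • x) :=
      continuous_finsetSum _ fun i _ => hf.comp (continuous_nsmul _)
    exact (isClosed_le hc continuous_const).measurableSet
  have hsm := rate_cont h hf (η := 1 / 32) (by norm_num)
  have hle : ∀ᶠ j in atTop, μ (E (N j))ᶜ ≤ ENNReal.ofReal ((μ {x | ∫ y, f y ∂μ + 1 / 32 ≤
      ((N j : ℕ) : ℝ)⁻¹ * ∑ i ∈ Finset.range (N j), f (p ^ i • x)}).toReal) := by
    filter_upwards [hNt.eventually_ge_atTop 1] with j hj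
    rw [ENNReal.ofReal_toReal (measure_ne_top _ _)]
    refine measure_mono ?_
    intro x hx
    simp only [E, mem_compl_iff, mem_ofPred_eq, not_le] at hx ⊢
    have hj0 : (0 : ℝ) < (N j : ℝ) := by exact_mod_cast hj
    have h5 : (1 : ℝ) / 16 ≤ ((N j : ℕ) : ℝ)⁻¹ *
        ∑ i ∈ Finset.range (N j), f (p ^ i • x) := by
      rw [inv_mul_eq_div, le_div_iff₀ hj0]
      linarith
    linarith
  -- a late starting point
  have htail : ∃ j0, n1 ≤ N j0 ∧ ∑' j, μ (E (N (j0 + j)))ᶜ ≤ 1 / 2 ∧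
      ∀ j, ((4 * (N (j0 + j + 1) - N (j0 + j)) : ℕ) : ℝ) ≤ (Nat.log 2 (N (j0 + j)) : ℝ) ^ κ' := by
    have h6 : Tendsto (fun j0 : ℕ => ∑' j, ENNReal.ofReal ((μ {x | ∫ y, f y ∂μ + 1 / 32 ≤
      ((N (j0 + j) : ℕ) : ℝ)⁻¹ * ∑ i ∈ Finset.range (N (j0 + j)), f (p ^ i • x)}).toReal))
      atTop (𝓝 0) := by
      have := ENNReal.tendsto_sum_nat_add (fun j => ENNReal.ofReal ((μ {x | ∫ y, f y ∂μ + 1 / 32 ≤
        ((N j : ℕ) : ℝ)⁻¹ * ∑ i ∈ Finset.range (N j), f (p ^ i • x)}).toReal)) (by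
          rw [← ENNReal.ofReal_tsum_of_nonneg (fun _ => ENNReal.toReal_nonneg) hsm]
          exact ENNReal.ofReal_ne_top)
      simpa only [add_comm] using this
    have h7 : ∀ᶠ j in atTop, 4 * Real.log (N j) ^ κ ≤ (Nat.log 2 (N j) : ℝ) ^ κ' :=
      hNt.eventually (four_rpow hk3 (by linarith))
    have h8 := (h6.eventually (gt_mem_nhds (show (0 : ℝ≥0∞) < 1 / 2 by norm_num)))
    have h9 : ∀ᶠ j in atTop, ((4 * (N (j + 1) - N j) : ℕ) : ℝ) ≤ (Nat.log 2 (N j) : ℝ) ^ κ' := by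
      filter_upwards [h7, hgap] with j ha hb
      have hc : N j ≤ N (j + 1) := hN.monotone (Nat.le_succ j)
      push_cast [Nat.cast_sub hc]
      linarith
    obtain ⟨j0, h10, h11, h12, h13⟩ := (h8.and ((eventually_forall_ge_atTop.2 h9).and
      ((eventually_forall_ge_atTop.2 hle).and (hNt.eventually_ge_atTop n1)))).exists
    refine ⟨j0, h13, ?_, fun j => h11 (j0 + j) (by omega)⟩
    exact (ENNReal.tsum_le_tsum fun j => h12 (j0 + j) (by omega)).trans h10.le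
  obtain ⟨j0, hj0, hsum, hK⟩ := htail
  obtain ⟨x, hx⟩ := chain hq2 hq (E := fun j => E (N (j0 + j))) (fun j => hE _)
    (n := fun j => 4 * N (j0 + j)) (κ := fun j => 4 * (N (j0 + j + 1) - N (j0 + j)))
    (fun j => by
      have : N (j0 + j) < N (j0 + j + 1) := hN (Nat.lt_succ_self _)
      show 4 * N (j0 + (j + 1)) = 4 * N (j0 + j) + 4 * (N (j0 + j + 1) - N (j0 + j))
      rw [← add_assoc]
      omega)
    (fun j => by
      have : N (j0 + j) < N (j0 + j + 1) := hN (Nat.lt_succ_self _)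
      show 1 ≤ 4 * (N (j0 + j + 1) - N (j0 + j))
      omega)
    (fun j x hx y hy θ hθ hθ0 => by
      have hn : n1 ≤ N (j0 + j) := hj0.trans (hN.monotone (by omega))
      have := hsep (N (j0 + j)) hn x y hx hy _ (hK j) θ hθ hθ0
      have e : ((2 : ℝ) ^ (4 * N (j0 + j)))⁻¹ = ((16 : ℝ) ^ N (j0 + j))⁻¹ := by
        rw [pow_mul]; norm_num
      show ((2 : ℝ) ^ (4 * N (j0 + j)))⁻¹ ≤ _
      rw [e]
      exact this)
    hsum
  exact hx (hat x)

end Pool.Agent.LLN
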