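import Pool.Agent.LLN.Defs

open MeasureTheory Set Filter Topology
open scoped ENNReal NNReal

namespace Pool.Agent.LLN

/-! SHIFT. Translation-dilation invariance. HINT: binomial theorem; for `en_shift`:
`cls (range (p ^ (a + 1))) p b = (range (p ^ a)).image (fun z => p * z + b)`. -/

theorem pow_shift {s k : ℕ} {x y : Fin s → ℤ}
    (h : ∀ j, 1 ≤ j → j ≤ k → ∑ i, x i ^ j = ∑ i, y i ^ j) (α β : ℤ) :
    ∀ j, 1 ≤ j → j ≤ k → ∑ i, (α * x i + β) ^ j = ∑ i, (α * y i + β) ^ j := by
  intro j _ hj2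
  have key : ∀ z : Fin s → ℤ, ∑ i, (α * z i + β) ^ j =
      ∑ m ∈ Finset.range (j + 1), α ^ m * β ^ (j - m) * (j.choose m : ℤ) * ∑ i, z i ^ m := by
    intro z
    have h1 : ∀ i, (α * z i + β) ^ j =
        ∑ m ∈ Finset.range (j + 1), α ^ m * β ^ (j - m) * (j.choose m : ℤ) * z i ^ m := by
      intro i
      rw [add_pow]
      refine Finset.sum_congr rfl fun m _ => ?_
      rw [mul_pow]
      ring
    rw [Finset.sum_congr rfl (fun i _ => h1 i), Finset.sum_comm]
    refine Finset.sum_congr rfl fun m _ => ?_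
    rw [Finset.mul_sum]
  rw [key, key]
  refine Finset.sum_congr rfl fun m hm => ?_
  rcases Nat.eq_zero_or_pos m with rfl | h0
  · simp
  · rw [h m h0 (by rw [Finset.mem_range] at hm; omega)]

private theorem shift_nu {k s : ℕ} (x y : Fin s → ℕ) :
    (∑ i, nu k (x i) = ∑ i, nu k (y i)) ↔
      ∀ j, 1 ≤ j → j ≤ k → ∑ i, (x i : ℤ) ^ j = ∑ i, (y i : ℤ) ^ j := by
  constructor
  · intro h j h1 h2
    have h3 := congrFun h ⟨j - 1, by omega⟩
    rw [Finset.sum_apply, Finset.sum_apply] at h3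
    have h4 : j - 1 + 1 = j := by omega
    simp only [nu, h4] at h3
    exact h3
  · intro h
    funext j
    rw [Finset.sum_apply, Finset.sum_apply]
    exact h (j.val + 1) (by omega) (by have := j.2; omega)

theorem en_shift {p : ℕ} (hp : 0 < p) (k s a : ℕ) {b : ℕ} (hb : b < p) :
    En (nu k) (cls (Finset.range (p ^ (a + 1))) p b) s = En (nu k) (Finset.range (p ^ a)) s := by
  have hmem : ∀ z : ℕ, z < p ^ a → p * z + b ∈ cls (Finset.range (p ^ (a + 1))) p b := by
    intro z hz
    rw [cls, Finset.mem_filter, Finset.mem_range]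
    constructor
    · have h1 : p * (z + 1) ≤ p * p ^ a := Nat.mul_le_mul_left p hz
      rw [pow_succ, mul_comm (p ^ a) p]
      have h2 : p * (z + 1) = p * z + p := by ring
      omega
    · rw [Nat.mul_add_mod, Nat.mod_eq_of_lt hb]
  have hinv : ∀ u : ℕ, u ∈ cls (Finset.range (p ^ (a + 1))) p b → u / p < p ^ a ∧
      p * (u / p) + b = u := by
    intro u hu
    rw [cls, Finset.mem_filter, Finset.mem_range] at hu
    constructor
    · rw [Nat.div_lt_iff_lt_mul hp, ← pow_succ]
      exact hu.1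
    · have h1 := Nat.div_add_mod u p
      rw [hu.2] at h1
      exact h1
  have hcast : ∀ (z : Fin s → ℕ) (j : ℕ), ∑ i, ((p * z i + b : ℕ) : ℤ) ^ j =
      ∑ i, ((p : ℤ) * (z i : ℤ) + b) ^ j := by
    intro z j
    refine Finset.sum_congr rfl fun i _ => ?_
    push_cast
    rfl
  have hiff : ∀ x y : Fin s → ℕ, (∑ i, nu k (p * x i + b) = ∑ i, nu k (p * y i + b)) ↔
      (∑ i, nu k (x i) = ∑ i, nu k (y i)) := by
    intro x y
    rw [shift_nu (fun i => p * x i + b) (fun i => p * y i + b), shift_nu]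
    constructor
    · intro h j h1 h2
      have h3 : ∀ j, 1 ≤ j → j ≤ k → ∑ i, ((p : ℤ) * (x i : ℤ) + b) ^ j =
          ∑ i, ((p : ℤ) * (y i : ℤ) + b) ^ j := by
        intro j h1 h2
        rw [← hcast, ← hcast]
        exact h j h1 h2
      have h4 := pow_shift (x := fun i => (p : ℤ) * (x i : ℤ) + b)
        (y := fun i => (p : ℤ) * (y i : ℤ) + b) h3 1 (-b) j h1 h2
      have h5 : ∀ z : Fin s → ℕ, ∑ i, (1 * ((p : ℤ) * (z i : ℤ) + b) + -(b : ℤ)) ^ j =
          (p : ℤ) ^ j * ∑ i, (z i : ℤ) ^ j := by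
        intro z
        rw [Finset.mul_sum]
        refine Finset.sum_congr rfl fun i _ => ?_
        rw [← mul_pow]
        congr 1
        ring
      rw [h5, h5] at h4
      have hp0 : (p : ℤ) ^ j ≠ 0 := pow_ne_zero _ (by exact_mod_cast hp.ne')
      exact mul_left_cancel₀ hp0 h4
    · intro h j h1 h2
      have h3 := pow_shift h (p : ℤ) (b : ℤ) j h1 h2
      rw [hcast, hcast]
      exact h3
  symm
  rw [En, En]
  refine Finset.card_bij (fun z _ => (fun i => p * z.1 i + b, fun i => p * z.2 i + b)) ?_ ?_ ?_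
  · rintro ⟨x, y⟩ hz
    simp only [Finset.mem_filter, Finset.mem_product, Fintype.mem_piFinset, Finset.mem_range] at hz ⊢
    exact ⟨⟨fun i => hmem _ (hz.1.1 i), fun i => hmem _ (hz.1.2 i)⟩, (hiff x y).2 hz.2⟩
  · rintro ⟨x, y⟩ _ ⟨x', y'⟩ _ h
    simp only [Prod.mk.injEq] at h ⊢
    constructor
    · funext i
      have h1 : p * x i + b = p * x' i + b := congrFun h.1 i
      exact Nat.eq_of_mul_eq_mul_left hp (by omega)
    · funext i
      have h1 : p * y i + b = p * y' i + b := congrFun h.2 i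
      exact Nat.eq_of_mul_eq_mul_left hp (by omega)
  · rintro ⟨u, v⟩ hz
    simp only [Finset.mem_filter, Finset.mem_product, Fintype.mem_piFinset] at hz
    have hu : (fun i => p * (u i / p) + b) = u := funext fun i => (hinv _ (hz.1.1 i)).2
    have hv : (fun i => p * (v i / p) + b) = v := funext fun i => (hinv _ (hz.1.2 i)).2
    refine ⟨(fun i => u i / p, fun i => v i / p), ?_, ?_⟩
    · simp only [Finset.mem_filter, Finset.mem_product, Fintype.mem_piFinset, Finset.mem_range]
      refine ⟨⟨fun i => (hinv _ (hz.1.1 i)).1, fun i => (hinv _ (hz.1.2 i)).1⟩, ?_⟩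
      rw [← hiff]
      have e1 : ∀ i, p * (u i / p) + b = u i := fun i => congrFun hu i
      have e2 : ∀ i, p * (v i / p) + b = v i := fun i => congrFun hv i
      simp only [e1, e2]
      exact hz.2
    · simp only [hu, hv]

end Pool.Agent.LLN
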