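import Pool.Agent.LLN.Pairs
import Pool.Agent.LLN.Shift

open MeasureTheory Set Filter Topology
open scoped ENNReal NNReal

namespace Pool.Agent.LLN

/-! MIXB. The mixed energy at one class. HINT: for a solution `(x, y, u, v)`, `u, v` in the class of `b`:
`∑ (x_i - b) ^ j - ∑ (y_i - b) ^ j = -(∑ (u_i - b) ^ j - ∑ (v_i - b) ^ j)` is divisible by `p ^ j` (`pow_shift` for
the concatenated families), so `(x, y)` is counted by `pairs_card` (level `a + 1`); for fixed `(x, y)` the number
of `(u, v)` is at most the energy of the class (Cauchy-Schwarz: `∑_n r(n) r(n + c) ≤ ∑ r(n)^2`), `en_shift`. -/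

/-- Count of pairs with a prescribed difference, by the fibres of the second coordinate. -/
theorem MixB_card {ι G : Type*} [AddCommGroup G] [DecidableEq G] [DecidableEq ι]
    (A : Finset ι) (f : ι → G) (c : G) :
    ((A ×ˢ A).filter (fun z => f z.1 = f z.2 + c)).card =
      ∑ g ∈ A.image f, (A.filter (fun u => f u = g + c)).card * (A.filter (fun v => f v = g)).card := by
  rw [Finset.card_eq_sum_card_fiberwise (f := fun z : ι × ι => f z.2) (t := A.image f)]
  · refine Finset.sum_congr rfl fun g _ => ?_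
    rw [← Finset.card_product]
    congr 1
    ext ⟨u, v⟩
    simp only [Finset.mem_filter, Finset.mem_product]
    constructor
    · rintro ⟨⟨⟨h1, h2⟩, h3⟩, h4⟩
      exact ⟨⟨h1, by rw [h3, h4]⟩, h2, h4⟩
    · rintro ⟨⟨h1, h3⟩, h2, h4⟩
      exact ⟨⟨⟨h1, h2⟩, by rw [h3, h4]⟩, h4⟩
  · intro z hz
    have hz' := Finset.mem_filter.1 (Finset.mem_coe.1 hz)
    exact Finset.mem_coe.2 (Finset.mem_image_of_mem f (Finset.mem_product.1 hz'.1).2)

/-- Cauchy-Schwarz: the difference zero is the most popular one. -/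
theorem MixB_cs {ι G : Type*} [AddCommGroup G] [DecidableEq G] [DecidableEq ι]
    (A : Finset ι) (f : ι → G) (c : G) :
    ((A ×ˢ A).filter (fun z => f z.1 = f z.2 + c)).card ≤
      ((A ×ˢ A).filter (fun z => f z.1 = f z.2)).card := by
  have h0 := MixB_card A f 0
  simp only [add_zero] at h0
  rw [h0, MixB_card A f c]
  set r : G → ℕ := fun g => (A.filter (fun u => f u = g)).card with hr
  have h1 : ∑ g ∈ A.image f, r (g + c) * r (g + c) ≤ ∑ g ∈ A.image f, r g * r g := by
    have e : ∑ g ∈ A.image f, r (g + c) * r (g + c) =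
        ∑ g ∈ (A.image f).image (fun g => g + c), r g * r g := by
      exact (Finset.sum_image (s := A.image f) (g := fun g => g + c) (f := fun g => r g * r g)
        (fun x _ y _ h => add_right_cancel h)).symm
    rw [e]
    refine Finset.sum_le_sum_of_ne_zero ?_
    intro g _ hg
    have hg' : r g ≠ 0 := fun h => hg (by simp [h])
    obtain ⟨u, hu⟩ := Finset.card_pos.1 (Nat.pos_of_ne_zero hg')
    rw [Finset.mem_filter] at hu
    rw [← hu.2]
    exact Finset.mem_image_of_mem f hu.1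
  have h2 : 2 * ∑ g ∈ A.image f, r (g + c) * r g ≤ 2 * ∑ g ∈ A.image f, r g * r g := by
    calc 2 * ∑ g ∈ A.image f, r (g + c) * r g
        = ∑ g ∈ A.image f, 2 * (r (g + c) * r g) := by rw [Finset.mul_sum]
      _ ≤ ∑ g ∈ A.image f, (r (g + c) * r (g + c) + r g * r g) := by
          refine Finset.sum_le_sum fun g _ => ?_
          nlinarith [sq_nonneg ((r (g + c) : ℤ) - r g), two_mul_le_add_sq (r (g + c)) (r g)]
      _ = ∑ g ∈ A.image f, r (g + c) * r (g + c) + ∑ g ∈ A.image f, r g * r g :=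
          Finset.sum_add_distrib
      _ ≤ _ := by linarith
  exact Nat.le_of_mul_le_mul_left h2 (by norm_num)

/-- A solution of the mixed system gives congruences for the pair of tuples with different residues. -/
theorem MixB_dvd {p k s b : ℕ} {x y : Fin k → ℕ} {u v : Fin s → ℕ}
    (hu : ∀ i, u i % p = b) (hv : ∀ i, v i % p = b)
    (h : ∑ i, nu k (x i) + ∑ i, nu k (u i) = ∑ i, nu k (y i) + ∑ i, nu k (v i)) :
    ∀ j, 1 ≤ j → j ≤ k →
      (p : ℤ) ^ j ∣ ∑ i, ((x i : ℤ) - b) ^ j - ∑ i, ((y i : ℤ) - b) ^ j := by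
  intro j h1 h2
  have key : ∀ j, 1 ≤ j → j ≤ k →
      ∑ i : Fin (k + s), (Fin.append (fun i => (x i : ℤ)) (fun i => (u i : ℤ)) i) ^ j =
      ∑ i : Fin (k + s), (Fin.append (fun i => (y i : ℤ)) (fun i => (v i : ℤ)) i) ^ j := by
    intro j h1 h2
    have hj := congrFun h ⟨j - 1, by omega⟩
    simp only [Pi.add_apply, Finset.sum_apply, nu] at hj
    have e : j - 1 + 1 = j := by omega
    rw [e] at hj
    rw [Fin.sum_univ_add, Fin.sum_univ_add]
    simpa only [Fin.append_left, Fin.append_right] using hj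
  have h3 := pow_shift key 1 (-(b : ℤ)) j h1 h2
  rw [Fin.sum_univ_add, Fin.sum_univ_add] at h3
  simp only [Fin.append_left, Fin.append_right, one_mul, ← sub_eq_add_neg] at h3
  have hU : ∀ w : Fin s → ℕ, (∀ i, w i % p = b) → (p : ℤ) ^ j ∣ ∑ i, ((w i : ℤ) - b) ^ j := by
    intro w hw
    refine Finset.dvd_sum fun i _ => pow_dvd_pow_of_dvd ?_ j
    refine ⟨((w i / p : ℕ) : ℤ), ?_⟩
    have := Nat.div_add_mod (w i) p
    rw [hw i] at this
    rw [← this]
    push_cast
    rw [show (p : ℤ) * (w i / p : ℤ) + b - b = p * (w i / p : ℤ) by ring]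
    congr 1
    have e1 : (p : ℤ) * (w i / p : ℤ) + b = w i := by exact_mod_cast this
    rw [e1]
  have h4 : ∑ i, ((x i : ℤ) - b) ^ j - ∑ i, ((y i : ℤ) - b) ^ j =
      ∑ i, ((v i : ℤ) - b) ^ j - ∑ i, ((u i : ℤ) - b) ^ j := by linarith
  rw [h4]
  exact dvd_sub (hU v hv) (hU u hu)

theorem mix_le {p k a b s : ℕ} (hp : p.Prime) (hk : k < p) (hk1 : 1 ≤ k) (hb : b < p) :
    Mx (nu k) (Finset.range (p ^ (a + 1))) (cls (Finset.range (p ^ (a + 1))) p b) p k s ≤
      p ^ ((a + 1) * k) * (k.factorial *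
        p ^ (min (a + 1) k * (min (a + 1) k - 1) / 2 + (a + 1 - min (a + 1) k) * k)) *
        J k s (Finset.range (p ^ a)) := by
  classical
  set P := (Fintype.piFinset fun _ : Fin s => cls (Finset.range (p ^ (a + 1))) p b) with hP
  have hPm : ∀ w ∈ P, ∀ i, w i % p = b := by
    intro w hw i
    rw [hP, Fintype.mem_piFinset] at hw
    exact (Finset.mem_filter.1 (hw i)).2
  unfold Mx
  rw [mul_comm]
  refine (Finset.card_le_mul_card_image_of_maps_to (f := fun z => z.1)
    (t := ((Dst p k (Finset.range (p ^ (a + 1)))) ×ˢ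
      (Dst p k (Finset.range (p ^ (a + 1))))).filter
      (fun z => ∀ j, 1 ≤ j → j ≤ k →
        (p : ℤ) ^ j ∣ ∑ i, ((z.1 i : ℤ) - b) ^ j - ∑ i, ((z.2 i : ℤ) - b) ^ j))
    ?_ (J k s (Finset.range (p ^ a))) ?_).trans
    (Nat.mul_le_mul_left _ (pairs_card hp hk hk1))
  · intro z hz
    obtain ⟨h1, h2⟩ := Finset.mem_filter.1 hz
    have h3 := Finset.mem_product.1 h1
    have h4 := Finset.mem_product.1 h3.2
    exact Finset.mem_filter.2 ⟨h3.1, MixB_dvd (hPm _ h4.1) (hPm _ h4.2) h2⟩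
  · intro xy _
    have hE : J k s (Finset.range (p ^ a)) =
        ((P ×ˢ P).filter (fun z => ∑ i, nu k (z.1 i) = ∑ i, nu k (z.2 i))).card := by
      unfold J
      rw [← en_shift hp.pos k s a hb]
      rfl
    rw [hE]
    refine le_trans ?_ (MixB_cs P (fun w => ∑ i, nu k (w i))
      (∑ i, nu k (xy.2 i) - ∑ i, nu k (xy.1 i)))
    refine Finset.card_le_card_of_injOn Prod.snd ?_ ?_
    · intro z hz
      obtain ⟨h0, h4⟩ := Finset.mem_filter.1 (Finset.mem_coe.1 hz)
      obtain ⟨h1, h3⟩ := Finset.mem_filter.1 h0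
      have h2 := (Finset.mem_product.1 h1).2
      refine Finset.mem_coe.2 (Finset.mem_filter.2 ⟨h2, ?_⟩)
      rw [← h4]
      show ∑ i, nu k (z.2.1 i) = ∑ i, nu k (z.2.2 i) +
        (∑ i, nu k (z.1.2 i) - ∑ i, nu k (z.1.1 i))
      rw [← sub_eq_zero] at h3 ⊢
      rw [← h3]
      abel
    · intro z hz w hw h
      rw [Finset.mem_coe, Finset.mem_filter] at hz hw
      exact Prod.ext (hz.2.trans hw.2.symm) h

end Pool.Agent.LLN
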