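import Pool.Agent.LLN.Chars

open MeasureTheory Set Filter Topology
open scoped ENNReal NNReal

namespace Pool.Agent.LLN

/-! MVH. Tuples with fewer than `k` different residues. HINT: such a tuple `x` has all its residues in the
range of some `c : Fin (k - 1) → Fin p` (at most `p ^ (k - 1)` maps). For fixed `c, c'` the number of pairs
`(x, y)` with residues in `range c`, `range c'` is at most the mean of the two energies (`r r' ≤ (r^2 + r'^2)/2`),
and the energy of the union of at most `k - 1` classes is `≤ (k - 1) ^ (2 n) * M'` (`en_eq`, power mean). -/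

private theorem mvh_pairs {G : Type*} [Fintype G] [DecidableEq G] {ι : Type*}
    (S S' : Finset ι) (f : ι → G) :
    ((S ×ˢ S').filter (fun z => f z.1 = f z.2)).card =
      ∑ g : G, (S.filter (fun x => f x = g)).card * (S'.filter (fun x => f x = g)).card := by
  have h1 : ∀ g : G, (S.filter (fun x => f x = g)).card * (S'.filter (fun x => f x = g)).card =
      ∑ x ∈ S, ∑ y ∈ S', if f x = g ∧ f y = g then 1 else 0 := by
    intro g
    rw [Finset.card_filter, Finset.card_filter, Finset.sum_mul_sum]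
    refine Finset.sum_congr rfl fun x _ => Finset.sum_congr rfl fun y _ => ?_
    by_cases h : f x = g <;> by_cases h' : f y = g <;> simp [h, h']
  rw [Finset.sum_congr rfl (fun g _ => h1 g), Finset.sum_comm, Finset.card_filter,
    Finset.sum_product]
  refine Finset.sum_congr rfl fun x _ => ?_
  rw [Finset.sum_comm]
  refine Finset.sum_congr rfl fun y _ => ?_
  by_cases h : f x = f y
  · rw [if_pos h]
    rw [Finset.sum_eq_single (f x)]
    · rw [if_pos ⟨rfl, h.symm⟩]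
    · intro g _ hg
      rw [if_neg]
      exact fun h2 => hg h2.1.symm
    · intro h2
      exact absurd (Finset.mem_univ _) h2
  · rw [if_neg h]
    symm
    refine Finset.sum_eq_zero fun g _ => ?_
    rw [if_neg]
    exact fun h2 => h (h2.1.trans h2.2.symm)

private theorem mvh_mean {G : Type*} [Fintype G] [DecidableEq G] {ι : Type*}
    (S S' : Finset ι) (f : ι → G) {E : ℕ}
    (h1 : ((S ×ˢ S).filter (fun z => f z.1 = f z.2)).card ≤ E)
    (h2 : ((S' ×ˢ S').filter (fun z => f z.1 = f z.2)).card ≤ E) :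
    ((S ×ˢ S').filter (fun z => f z.1 = f z.2)).card ≤ E := by
  rw [mvh_pairs] at h1 h2 ⊢
  have h3 : 2 * ∑ g : G, (S.filter (fun x => f x = g)).card * (S'.filter (fun x => f x = g)).card ≤
      (∑ g : G, (S.filter (fun x => f x = g)).card * (S.filter (fun x => f x = g)).card) +
      ∑ g : G, (S'.filter (fun x => f x = g)).card * (S'.filter (fun x => f x = g)).card := by
    rw [← Finset.sum_add_distrib, Finset.mul_sum]
    refine Finset.sum_le_sum fun g _ => ?_
    generalize (S.filter (fun x => f x = g)).card = u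
    generalize (S'.filter (fun x => f x = g)).card = v
    rcases le_total u v with h | h
    · obtain ⟨w, rfl⟩ := Nat.exists_eq_add_of_le h
      nlinarith
    · obtain ⟨w, rfl⟩ := Nat.exists_eq_add_of_le h
      nlinarith
  omega

/-- the energy of a union of classes -/
private theorem mvh_en {G : Type*} [AddCommGroup G] [Fintype G] [DecidableEq G] (ν : ℕ → G)
    (B : Finset ℕ) {p k n : ℕ} (hn : 1 ≤ n) {M' : ℕ}
    (hM' : ∀ b < p, En ν (cls B p b) n ≤ M') (R : Finset ℕ) (hR : ∀ b ∈ R, b < p)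
    (hRk : R.card ≤ k) : En ν (B.filter (fun x => x % p ∈ R)) n ≤ k ^ (2 * n) * M' := by
  have hG : (0 : ℝ) < (Fintype.card G : ℝ)⁻¹ := by
    rw [inv_pos]
    exact_mod_cast Fintype.card_pos
  have h1 : ∀ ψ : AddChar G ℂ, ‖∑ x ∈ B.filter (fun x => x % p ∈ R), ψ (ν x)‖ ^ (2 * n) ≤
      (R.card : ℝ) ^ (2 * n - 1) * ∑ b ∈ R, ‖∑ x ∈ cls B p b, ψ (ν x)‖ ^ (2 * n) := by
    intro ψ
    have h2 : ∑ x ∈ B.filter (fun x => x % p ∈ R), ψ (ν x) =
        ∑ b ∈ R, ∑ x ∈ cls B p b, ψ (ν x) := by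
      rw [← Finset.sum_fiberwise_of_maps_to (s := B.filter (fun x => x % p ∈ R)) (t := R)
        (g := fun x => x % p) (fun x hx => (Finset.mem_filter.1 hx).2)]
      refine Finset.sum_congr rfl fun b hb => ?_
      refine Finset.sum_congr ?_ fun _ _ => rfl
      ext x
      simp only [cls, Finset.mem_filter]
      constructor
      · rintro ⟨⟨h3, h4⟩, h5⟩
        exact ⟨h3, h5⟩
      · rintro ⟨h3, h5⟩
        exact ⟨⟨h3, h5 ▸ hb⟩, h5⟩
    rw [h2]
    have h3 := pow_sum_le_card_mul_sum_pow (s := R)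
      (f := fun b => ‖∑ x ∈ cls B p b, ψ (ν x)‖) (fun b _ => norm_nonneg _) (2 * n - 1)
    have h4 : 2 * n - 1 + 1 = 2 * n := by omega
    rw [h4] at h3
    exact (pow_le_pow_left₀ (norm_nonneg _) (norm_sum_le _ _) _).trans h3
  have h5 : (En ν (B.filter (fun x => x % p ∈ R)) n : ℝ) ≤
      (R.card : ℝ) ^ (2 * n - 1) * ∑ b ∈ R, (En ν (cls B p b) n : ℝ) := by
    rw [en_eq]
    calc (Fintype.card G : ℝ)⁻¹ * ∑ ψ : AddChar G ℂ,
          ‖∑ x ∈ B.filter (fun x => x % p ∈ R), ψ (ν x)‖ ^ (2 * n)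
        ≤ (Fintype.card G : ℝ)⁻¹ * ∑ ψ : AddChar G ℂ, ((R.card : ℝ) ^ (2 * n - 1) *
            ∑ b ∈ R, ‖∑ x ∈ cls B p b, ψ (ν x)‖ ^ (2 * n)) :=
          mul_le_mul_of_nonneg_left (Finset.sum_le_sum fun ψ _ => h1 ψ) hG.le
      _ = (R.card : ℝ) ^ (2 * n - 1) * ∑ b ∈ R, (En ν (cls B p b) n : ℝ) := by
          rw [← Finset.mul_sum, Finset.sum_comm, mul_left_comm, Finset.mul_sum]
          congr 1
          refine Finset.sum_congr rfl fun b _ => ?_
          rw [en_eq]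
  have h6 : (R.card : ℝ) ^ (2 * n - 1) * ∑ b ∈ R, (En ν (cls B p b) n : ℝ) ≤
      (k : ℝ) ^ (2 * n) * M' := by
    have h7 : ∑ b ∈ R, (En ν (cls B p b) n : ℝ) ≤ R.card * M' := by
      rw [← nsmul_eq_mul]
      refine Finset.sum_le_card_nsmul _ _ _ fun b hb => ?_
      exact_mod_cast hM' b (hR b hb)
    have h8 : (R.card : ℝ) ≤ k := by exact_mod_cast hRk
    calc (R.card : ℝ) ^ (2 * n - 1) * ∑ b ∈ R, (En ν (cls B p b) n : ℝ)
        ≤ (R.card : ℝ) ^ (2 * n - 1) * (R.card * M') :=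
          mul_le_mul_of_nonneg_left h7 (by positivity)
      _ = (R.card : ℝ) ^ (2 * n - 1 + 1) * M' := by rw [pow_succ]; ring
      _ = (R.card : ℝ) ^ (2 * n) * M' := by congr 2; omega
      _ ≤ _ := mul_le_mul_of_nonneg_right (pow_le_pow_left₀ (by positivity) h8 _) (by positivity)
  exact_mod_cast h5.trans h6

/-- an enumeration of a set of residues -/
private theorem mvh_enum {p m : ℕ} (A : Finset ℕ) (hA : ∀ b ∈ A, b < p) (hne : A.Nonempty)
    (hc : A.card ≤ m) : ∃ c : Fin m → Fin p, ∀ b ∈ A, ∃ i, (c i : ℕ) = b := by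
  obtain ⟨b0, hb0⟩ := hne
  refine ⟨fun i => if h : i.val < A.card then
    ⟨(A.equivFin.symm ⟨i.val, h⟩).1, hA _ (A.equivFin.symm ⟨i.val, h⟩).2⟩
    else ⟨b0, hA b0 hb0⟩, fun b hb => ?_⟩
  have h1 : (A.equivFin ⟨b, hb⟩).val < A.card := (A.equivFin ⟨b, hb⟩).2
  refine ⟨⟨(A.equivFin ⟨b, hb⟩).val, by omega⟩, ?_⟩
  simp only [h1, dif_pos]
  simp

private theorem mvh_cov {p k n : ℕ} (B : Finset ℕ) (hp : 0 < p) (hn : 1 ≤ n) (x : Fin n → ℕ)
    (hx : ∀ i, x i ∈ B) (hxk : (Finset.univ.image (fun i => x i % p)).card < k) :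
    ∃ c : Fin (k - 1) → Fin p, ∀ i, x i ∈ B.filter
      (fun y => y % p ∈ Finset.univ.image (fun i => (c i : ℕ))) := by
  obtain ⟨c, hc⟩ := mvh_enum (p := p) (m := k - 1) (Finset.univ.image (fun i => x i % p)) (by
    intro b hb
    obtain ⟨i, -, rfl⟩ := Finset.mem_image.1 hb
    exact Nat.mod_lt _ hp) ⟨x ⟨0, hn⟩ % p, Finset.mem_image.2 ⟨_, Finset.mem_univ _, rfl⟩⟩
    (by omega)
  refine ⟨c, fun i => ?_⟩
  rw [Finset.mem_filter]
  refine ⟨hx i, ?_⟩
  obtain ⟨j, hj⟩ := hc (x i % p) (Finset.mem_image.2 ⟨i, Finset.mem_univ _, rfl⟩)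
  exact Finset.mem_image.2 ⟨j, Finset.mem_univ _, hj⟩

/-- the tuples with residues in a set -/
private def mvh_S (B : Finset ℕ) (p k n : ℕ) (c : Fin (k - 1) → Fin p) : Finset (Fin n → ℕ) :=
  Fintype.piFinset fun _ : Fin n =>
    B.filter (fun x => x % p ∈ Finset.univ.image (fun i => (c i : ℕ)))

private theorem mvh_E {G : Type*} [AddCommGroup G] [Fintype G] [DecidableEq G] (ν : ℕ → G)
    (B : Finset ℕ) {p k n : ℕ} (hn : 1 ≤ n) {M' : ℕ}
    (hM' : ∀ b < p, En ν (cls B p b) n ≤ M') (c : Fin (k - 1) → Fin p) :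
    ((mvh_S B p k n c ×ˢ mvh_S B p k n c).filter
      (fun z => ∑ i, ν (z.1 i) = ∑ i, ν (z.2 i))).card ≤ k ^ (2 * n) * M' := by
  refine mvh_en ν B hn hM' (Finset.univ.image (fun i => (c i : ℕ))) ?_ ?_
  · intro b hb
    obtain ⟨i, -, rfl⟩ := Finset.mem_image.1 hb
    exact (c i).2
  · refine Finset.card_image_le.trans ?_
    rw [Finset.card_univ, Fintype.card_fin]
    omega

theorem mvh {G : Type*} [AddCommGroup G] [Fintype G] [DecidableEq G] (ν : ℕ → G) (B : Finset ℕ)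
    {p k n : ℕ} (hp : 0 < p) (hk : 1 ≤ k) (hn : 1 ≤ n) {M' : ℕ}
    (hM' : ∀ b < p, En ν (cls B p b) n ≤ M') :
    ((((Fintype.piFinset fun _ : Fin n => B) ×ˢ
      (Fintype.piFinset fun _ : Fin n => B)).filter
      (fun xy => ∑ i, ν (xy.1 i) = ∑ i, ν (xy.2 i) ∧
        (Finset.univ.image (fun i => xy.1 i % p)).card < k ∧
        (Finset.univ.image (fun i => xy.2 i % p)).card < k)).card) ≤
      p ^ (2 * (k - 1)) * (k ^ (2 * n) * M') := by
  have hsub : (((Fintype.piFinset fun _ : Fin n => B) ×ˢ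
      (Fintype.piFinset fun _ : Fin n => B)).filter
      (fun xy => ∑ i, ν (xy.1 i) = ∑ i, ν (xy.2 i) ∧
        (Finset.univ.image (fun i => xy.1 i % p)).card < k ∧
        (Finset.univ.image (fun i => xy.2 i % p)).card < k)) ⊆
      (Finset.univ : Finset ((Fin (k - 1) → Fin p) × (Fin (k - 1) → Fin p))).biUnion
        (fun cc => (mvh_S B p k n cc.1 ×ˢ mvh_S B p k n cc.2).filter
          (fun z => ∑ i, ν (z.1 i) = ∑ i, ν (z.2 i))) := by
    rintro ⟨x, y⟩ hz
    rw [Finset.mem_filter, Finset.mem_product, Fintype.mem_piFinset, Fintype.mem_piFinset] at hz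
    obtain ⟨⟨hx, hy⟩, hxy, hxk, hyk⟩ := hz
    obtain ⟨c, hc⟩ := mvh_cov B hp hn x hx hxk
    obtain ⟨c', hc'⟩ := mvh_cov B hp hn y hy hyk
    rw [Finset.mem_biUnion]
    refine ⟨(c, c'), Finset.mem_univ _, ?_⟩
    rw [Finset.mem_filter, Finset.mem_product, mvh_S, mvh_S, Fintype.mem_piFinset,
      Fintype.mem_piFinset]
    exact ⟨⟨hc, hc'⟩, hxy⟩
  have hcard : (Finset.univ : Finset ((Fin (k - 1) → Fin p) × (Fin (k - 1) → Fin p))).card =
      p ^ (2 * (k - 1)) := by
    rw [Finset.card_univ, Fintype.card_prod, Fintype.card_fun, Fintype.card_fin, Fintype.card_fin,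
      ← pow_add, two_mul]
  have hsum : ∑ cc : (Fin (k - 1) → Fin p) × (Fin (k - 1) → Fin p),
      ((mvh_S B p k n cc.1 ×ˢ mvh_S B p k n cc.2).filter
          (fun z => ∑ i, ν (z.1 i) = ∑ i, ν (z.2 i))).card ≤
      p ^ (2 * (k - 1)) * (k ^ (2 * n) * M') := by
    rw [← hcard, ← smul_eq_mul]
    refine Finset.sum_le_card_nsmul _ _ _ fun cc _ => ?_
    exact mvh_mean (mvh_S B p k n cc.1) (mvh_S B p k n cc.2) (fun x => ∑ i, ν (x i))
      (mvh_E ν B hn hM' cc.1) (mvh_E ν B hn hM' cc.2)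
  exact (Finset.card_le_card hsub).trans (Finset.card_biUnion_le.trans hsum)

end Pool.Agent.LLN
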