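import Pool.Agent.LLN.Chars

open MeasureTheory Set Filter Topology
open scoped ENNReal NNReal

namespace Pool.Agent.LLN

/-! MVG. Tuples with at least `k` different residues. HINT: `mvg_fourier`: `mx_eq` for `B' = B` and for the
classes; `‖∑_B‖ ≤ ∑_b ‖∑_(cls b)‖` and the power mean inequality `inner_le_nnorm_mul_nnorm` /
`inner_mul_le` / `Real.inner_le..`: `(∑_{b<p} t_b) ^ (2 s) ≤ p ^ (2 s - 1) ∑ t_b ^ (2 s)`
(`inner_le_Lp..`, `inner_pow_le_pow_sum..` = `inner_pow..`; Mathlib: `inner_le_nnorm..`, `pow_arith_mean_le_arith_mean_pow`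
or `Finset.inner_mul_le_norm_mul_norm`, `inner`; s = 0 is trivial).
`mvg_pos`: choose for each such tuple an embedding of `Fin k` in `Fin (s + k)` at which the residues differ
(at most `(s + k) ^ k` functions for `x` and for `y`), and permute the coordinates (an equivalence
`Fin (s + k) ≃ Fin k ⊕ Fin s` extending it). -/

private theorem mvg_norm {G : Type*} [AddCommGroup G] (ψ : AddChar G ℂ) (ν : ℕ → G) (B : Finset ℕ)
    {p : ℕ} (hp : 0 < p) :
    ‖∑ b ∈ B, ψ (ν b)‖ ≤ ∑ c ∈ Finset.range p, ‖∑ b ∈ cls B p c, ψ (ν b)‖ := by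
  have h : ∑ b ∈ B, ψ (ν b) = ∑ c ∈ Finset.range p, ∑ b ∈ cls B p c, ψ (ν b) := by
    unfold cls
    rw [Finset.sum_fiberwise_of_maps_to]
    intro b _
    exact Finset.mem_range.2 (Nat.mod_lt _ hp)
  rw [h]
  exact norm_sum_le _ _

theorem mvg_fourier {G : Type*} [AddCommGroup G] [Fintype G] [DecidableEq G] (ν : ℕ → G) (B : Finset ℕ)
    {p k s : ℕ} (hp : 0 < p) {M : ℕ} (hM : ∀ b < p, Mx ν B (cls B p b) p k s ≤ M) :
    Mx ν B B p k s ≤ p ^ (2 * s) * M := by
  rcases Nat.eq_zero_or_pos s with rfl | hs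
  · have h0 := hM 0 hp
    have h1 : (Mx ν B B p k 0 : ℝ) = (Mx ν B (cls B p 0) p k 0 : ℝ) := by
      rw [mx_eq, mx_eq]
      simp
    have h2 : Mx ν B B p k 0 = Mx ν B (cls B p 0) p k 0 := by exact_mod_cast h1
    rw [h2]
    simpa using h0
  obtain ⟨n, hn⟩ : ∃ n, 2 * s = n + 1 := ⟨2 * s - 1, by omega⟩
  have hp' : (0 : ℝ) < p := by exact_mod_cast hp
  have hG : (0 : ℝ) ≤ (Fintype.card G : ℝ)⁻¹ := by positivity
  have hreal : (Mx ν B B p k s : ℝ) ≤ (p : ℝ) ^ n * ∑ c ∈ Finset.range p,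
      (Mx ν B (cls B p c) p k s : ℝ) := by
    have hR : (p : ℝ) ^ n * ∑ c ∈ Finset.range p, (Mx ν B (cls B p c) p k s : ℝ) =
        (Fintype.card G : ℝ)⁻¹ * ∑ ψ : AddChar G ℂ, ‖∑ x ∈ Dst p k B, ψ (∑ i, ν (x i))‖ ^ 2 *
          ((p : ℝ) ^ n * ∑ c ∈ Finset.range p, ‖∑ b ∈ cls B p c, ψ (ν b)‖ ^ (2 * s)) := by
      simp_rw [mx_eq ν B (cls B p _) p k s]
      rw [← Finset.mul_sum, Finset.sum_comm, Finset.mul_sum, Finset.mul_sum, Finset.mul_sum]
      apply Finset.sum_congr rfl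
      intro ψ _
      rw [← Finset.mul_sum]
      ring
    rw [hR, mx_eq]
    refine mul_le_mul_of_nonneg_left (Finset.sum_le_sum fun ψ _ => ?_) hG
    refine mul_le_mul_of_nonneg_left ?_ (by positivity)
    rw [hn]
    have h1 : ‖∑ b ∈ B, ψ (ν b)‖ ^ (n + 1) ≤
        (∑ c ∈ Finset.range p, ‖∑ b ∈ cls B p c, ψ (ν b)‖) ^ (n + 1) :=
      pow_le_pow_left₀ (norm_nonneg _) (mvg_norm ψ ν B hp) _
    refine h1.trans ?_
    have h2 := pow_sum_div_card_le_sum_pow (s := Finset.range p)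
      (f := fun c => ‖∑ b ∈ cls B p c, ψ (ν b)‖) (fun _ _ => norm_nonneg _) n
    rw [Finset.card_range, div_le_iff₀ (by positivity)] at h2
    rw [mul_comm]
    exact h2
  have hfin : (Mx ν B B p k s : ℝ) ≤ ((p ^ (2 * s) * M : ℕ) : ℝ) := by
    refine hreal.trans ?_
    have h3 : ∑ c ∈ Finset.range p, (Mx ν B (cls B p c) p k s : ℝ) ≤ p * M := by
      refine (Finset.sum_le_sum (g := fun _ => (M : ℝ)) fun c hc => ?_).trans ?_
      · exact_mod_cast hM c (Finset.mem_range.1 hc)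
      · rw [Finset.sum_const, Finset.card_range, nsmul_eq_mul]
    calc (p : ℝ) ^ n * ∑ c ∈ Finset.range p, (Mx ν B (cls B p c) p k s : ℝ)
        ≤ (p : ℝ) ^ n * (p * M) := mul_le_mul_of_nonneg_left h3 (by positivity)
      _ = ((p ^ (2 * s) * M : ℕ) : ℝ) := by rw [hn]; push_cast; ring
  exact_mod_cast hfin

private theorem mvg_sel (p k n : ℕ) (z : Fin n → ℕ)
    (h : k ≤ (Finset.univ.image (fun i => z i % p)).card) :
    ∃ σ : Fin k → Fin n, ∀ i j, z (σ i) % p = z (σ j) % p → i = j := by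
  obtain ⟨t, ht, htc⟩ := Finset.exists_subset_card_eq h
  have e := (t.equivFinOfCardEq htc).symm
  have hex : ∀ j : Fin k, ∃ i : Fin n, z i % p = (e j : ℕ) := by
    intro j
    have := ht (e j).2
    rw [Finset.mem_image] at this
    obtain ⟨i, -, hi⟩ := this
    exact ⟨i, hi⟩
  choose σ hσ using hex
  refine ⟨σ, fun i j hij => ?_⟩
  rw [hσ, hσ] at hij
  exact e.injective (Subtype.ext hij)

private theorem mvg_ext {k s : ℕ} (σ : Fin k → Fin (s + k)) (hσ : Function.Injective σ) :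
    ∃ E : Fin k ⊕ Fin s ≃ Fin (s + k), ∀ j, E (Sum.inl j) = σ j := by
  classical
  have hc : Fintype.card ((Set.range σ)ᶜ : Set (Fin (s + k))) = s := by
    rw [Fintype.card_compl_set, Fintype.card_fin, Set.card_range_of_injective hσ, Fintype.card_fin]
    omega
  let E1 : Fin k ≃ Set.range σ := Equiv.ofInjective σ hσ
  let E2 : Fin s ≃ ((Set.range σ)ᶜ : Set (Fin (s + k))) := (Fintype.equivFinOfCardEq hc).symm
  refine ⟨(Equiv.sumCongr E1 E2).trans (Equiv.Set.sumCompl (Set.range σ)), fun j => ?_⟩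
  simp [E1]

theorem mvg_pos {G : Type*} [AddCommGroup G] [DecidableEq G] (ν : ℕ → G) (B : Finset ℕ)
    (p k s : ℕ) :
    ((((Fintype.piFinset fun _ : Fin (s + k) => B) ×ˢ
      (Fintype.piFinset fun _ : Fin (s + k) => B)).filter
      (fun xy => ∑ i, ν (xy.1 i) = ∑ i, ν (xy.2 i) ∧
        k ≤ (Finset.univ.image (fun i => xy.1 i % p)).card ∧
        k ≤ (Finset.univ.image (fun i => xy.2 i % p)).card)).card) ≤
      (s + k) ^ (2 * k) * Mx ν B B p k s := by
  classical
  -- selection of coordinates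
  have hsel : ∀ z : Fin (s + k) → ℕ, ∃ σ : Fin k → Fin (s + k),
      k ≤ (Finset.univ.image (fun i => z i % p)).card →
        ∀ i j, z (σ i) % p = z (σ j) % p → i = j := by
    intro z
    by_cases h : k ≤ (Finset.univ.image (fun i => z i % p)).card
    · obtain ⟨σ, hσ⟩ := mvg_sel p k (s + k) z h
      exact ⟨σ, fun _ => hσ⟩
    · exact ⟨fun j => Fin.natAdd s j, fun h' => absurd h' h⟩
  choose sel hsel using hsel
  have hext : ∀ σ : Fin k → Fin (s + k), ∃ E : Fin k ⊕ Fin s ≃ Fin (s + k),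
      Function.Injective σ → ∀ j, E (Sum.inl j) = σ j := by
    intro σ
    by_cases h : Function.Injective σ
    · obtain ⟨E, hE⟩ := mvg_ext σ h
      exact ⟨E, fun _ => hE⟩
    · exact ⟨(Equiv.sumComm _ _).trans finSumFinEquiv, fun h' => absurd h' h⟩
  choose E hE using hext
  have hinj : ∀ z : Fin (s + k) → ℕ, k ≤ (Finset.univ.image (fun i => z i % p)).card →
      Function.Injective (sel z) := by
    intro z hz i j hij
    exact hsel z hz i j (by rw [hij])
  have hsum : ∀ z : Fin (s + k) → ℕ, k ≤ (Finset.univ.image (fun i => z i % p)).card →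
      ∑ i, ν (z (sel z i)) + ∑ j, ν (z (E (sel z) (Sum.inr j))) = ∑ i, ν (z i) := by
    intro z hz
    rw [← Equiv.sum_comp (E (sel z)) (fun i => ν (z i)), Fintype.sum_sum_type]
    congr 1
    apply Finset.sum_congr rfl
    intro i _
    rw [hE (sel z) (hinj z hz)]
  unfold Mx
  have hcard : (s + k) ^ (2 * k) = ((Finset.univ : Finset (Fin k → Fin (s + k))) ×ˢ
      (Finset.univ : Finset (Fin k → Fin (s + k)))).card := by
    rw [Finset.card_product, Finset.card_univ, Fintype.card_fun, Fintype.card_fin, Fintype.card_fin]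
    ring
  rw [hcard, ← Finset.card_product]
  apply Finset.card_le_card_of_injOn (fun xy =>
    ((sel xy.1, sel xy.2), ((fun j => xy.1 (sel xy.1 j), fun j => xy.2 (sel xy.2 j)),
      (fun j => xy.1 (E (sel xy.1) (Sum.inr j)), fun j => xy.2 (E (sel xy.2) (Sum.inr j))))))
  · rintro ⟨x, y⟩ hxy
    rw [Finset.mem_coe, Finset.mem_filter, Finset.mem_product, Fintype.mem_piFinset,
      Fintype.mem_piFinset] at hxy
    obtain ⟨⟨hx, hy⟩, hs, hkx, hky⟩ := hxy
    simp only at hx hy hs hkx hky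
    rw [Finset.mem_coe, Finset.mem_product, Finset.mem_filter, Finset.mem_product,
      Finset.mem_product, Finset.mem_product, Finset.mem_product]
    refine ⟨⟨Finset.mem_univ _, Finset.mem_univ _⟩, ⟨⟨?_, ?_⟩, ⟨?_, ?_⟩⟩, ?_⟩
    · unfold Dst
      rw [Finset.mem_filter, Fintype.mem_piFinset]
      exact ⟨fun j => hx _, hsel x hkx⟩
    · unfold Dst
      rw [Finset.mem_filter, Fintype.mem_piFinset]
      exact ⟨fun j => hy _, hsel y hky⟩
    · rw [Fintype.mem_piFinset]
      exact fun j => hx _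
    · rw [Fintype.mem_piFinset]
      exact fun j => hy _
    · simp only
      rw [hsum x hkx, hsum y hky, hs]
  · rintro ⟨x, y⟩ hxy ⟨x', y'⟩ hxy' he
    rw [Finset.mem_coe, Finset.mem_filter] at hxy hxy'
    obtain ⟨-, -, hkx, hky⟩ := hxy
    obtain ⟨-, -, hkx', hky'⟩ := hxy'
    simp only [Prod.mk.injEq] at he hkx hky hkx' hky'
    obtain ⟨⟨h1, h2⟩, ⟨h3, h4⟩, h5, h6⟩ := he
    have aux : ∀ z z' : Fin (s + k) → ℕ, k ≤ (Finset.univ.image (fun i => z i % p)).card →
        sel z = sel z' → (fun j => z (sel z j)) = (fun j => z' (sel z' j)) →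
        (fun j => z (E (sel z) (Sum.inr j))) = (fun j => z' (E (sel z') (Sum.inr j))) → z = z' := by
      intro z z' hz e1 e2 e3
      funext i
      obtain ⟨w, rfl⟩ := (E (sel z)).surjective i
      rcases w with j | j
      · have := congrFun e2 j
        rw [← e1] at this
        rw [hE (sel z) (hinj z hz)]
        exact this
      · have := congrFun e3 j
        rw [← e1] at this
        exact this
    rw [Prod.mk.injEq]
    exact ⟨aux x x' hkx h1 h3 h5, aux y y' hky h2 h4 h6⟩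

end Pool.Agent.LLN
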