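import Pool.Agent.LLN.MvGood
import Pool.Agent.LLN.MvBad

open MeasureTheory Set Filter Topology
open scoped ENNReal NNReal

namespace Pool.Agent.LLN

/-! MVI. The mean value inequality. HINT for `mv_fin`: with `r(g)`, `r'(g)` the numbers of good / bad tuples
with sum `g`: `En = ∑ (r + r') ^ 2 ≤ 2 ∑ r ^ 2 + 2 ∑ r' ^ 2`; `mvg_pos`, `mvg_fourier`, `mvh`.
`mv_int`: apply `mv_fin` to `G = Fin d → ZMod Q` and the reduction of `ν` modulo a large `Q`: for `Q` larger
than all the differences of the sums which occur, `En` and `Mx` do not change. -/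

private theorem mvi_card_sq {G ι : Type*} [Fintype G] [DecidableEq G] (P : Finset ι)
    (S : ι → G) : ((P ×ˢ P).filter (fun z => S z.1 = S z.2)).card =
      ∑ g : G, ((P.filter fun x => S x = g).card) ^ 2 := by
  classical
  rw [Finset.card_eq_sum_card_fiberwise (f := fun z : ι × ι => S z.1) (t := Finset.univ)
    (fun _ _ => Finset.mem_coe.2 (Finset.mem_univ _))]
  refine Finset.sum_congr rfl fun g _ => ?_
  rw [sq, ← Finset.card_product]
  congr 1
  ext ⟨x, y⟩
  simp only [Finset.mem_filter, Finset.mem_product]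
  constructor
  · rintro ⟨⟨⟨hx, hy⟩, h⟩, hg⟩
    exact ⟨⟨hx, hg⟩, hy, by rw [← h]; exact hg⟩
  · rintro ⟨⟨hx, hg⟩, hy, hg'⟩
    exact ⟨⟨⟨hx, hy⟩, by rw [hg, hg']⟩, hg⟩

private theorem mvi_split {G ι : Type*} [Fintype G] [DecidableEq G] (P : Finset ι)
    (S : ι → G) (Q : ι → Prop) [DecidablePred Q] :
    ((P ×ˢ P).filter (fun z => S z.1 = S z.2)).card ≤
      2 * ((P ×ˢ P).filter (fun z => S z.1 = S z.2 ∧ Q z.1 ∧ Q z.2)).card +
      2 * ((P ×ˢ P).filter (fun z => S z.1 = S z.2 ∧ ¬ Q z.1 ∧ ¬ Q z.2)).card := by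
  classical
  have key : ∀ (R : ι → Prop) [DecidablePred R],
      ((P ×ˢ P).filter (fun z => S z.1 = S z.2 ∧ R z.1 ∧ R z.2)).card =
        ∑ g : G, (((P.filter R).filter fun x => S x = g).card) ^ 2 := by
    intro R _
    rw [← mvi_card_sq]
    congr 1
    ext ⟨x, y⟩
    simp only [Finset.mem_filter, Finset.mem_product]
    tauto
  rw [key Q, key fun x => ¬ Q x, mvi_card_sq, Finset.mul_sum, Finset.mul_sum,
    ← Finset.sum_add_distrib]
  refine Finset.sum_le_sum fun g _ => ?_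
  have h1 : (P.filter fun x => S x = g).card = ((P.filter Q).filter fun x => S x = g).card +
      ((P.filter fun x => ¬ Q x).filter fun x => S x = g).card := by
    rw [← Finset.card_filter_add_card_filter_not (s := P.filter fun x => S x = g) Q,
      Finset.filter_filter, Finset.filter_filter, Finset.filter_filter, Finset.filter_filter]
    congr 2
    · ext x
      simp only [Finset.mem_filter]
      tauto
    · ext x
      simp only [Finset.mem_filter]
      tauto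
  rw [h1]
  nlinarith [sq_nonneg ((((P.filter Q).filter fun x => S x = g).card : ℤ) -
    ((P.filter fun x => ¬ Q x).filter fun x => S x = g).card)]

theorem mv_fin {G : Type*} [AddCommGroup G] [Fintype G] [DecidableEq G] (ν : ℕ → G) (B : Finset ℕ)
    {p k s : ℕ} (hp : 0 < p) (hk : 1 ≤ k) {M M' : ℕ}
    (hM : ∀ b < p, Mx ν B (cls B p b) p k s ≤ M)
    (hM' : ∀ b < p, En ν (cls B p b) (s + k) ≤ M') :
    En ν B (s + k) ≤ 2 * ((s + k) ^ (2 * k) * (p ^ (2 * s) * M)) +
      2 * (p ^ (2 * (k - 1)) * (k ^ (2 * (s + k)) * M')) := by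
  classical
  have h1 := mvi_split (Fintype.piFinset fun _ : Fin (s + k) => B) (fun x => ∑ i, ν (x i))
    (fun x => k ≤ (Finset.univ.image (fun i => x i % p)).card)
  have h2 := mvg_pos ν B p k s
  have h3 := mvg_fourier ν B hp hM
  have h4 := mvh ν B hp hk (show 1 ≤ s + k by omega) hM'
  have h5 : (s + k) ^ (2 * k) * Mx ν B B p k s ≤ (s + k) ^ (2 * k) * (p ^ (2 * s) * M) :=
    Nat.mul_le_mul_left _ h3
  have h6 : En ν B (s + k) = (((Fintype.piFinset fun _ : Fin (s + k) => B) ×ˢ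
      (Fintype.piFinset fun _ : Fin (s + k) => B)).filter
      (fun xy => ∑ i, ν (xy.1 i) = ∑ i, ν (xy.2 i))).card := rfl
  rw [h6]
  refine h1.trans (add_le_add (Nat.mul_le_mul_left _ (h2.trans h5))
    (Nat.mul_le_mul_left _ (le_trans (le_of_eq ?_) h4)))
  congr 1
  ext z
  simp only [Finset.mem_filter, not_le]

private theorem mvi_zmod {Q : ℕ} {a b : ℤ} (h : |a - b| < Q) :
    ((a : ZMod Q) = (b : ZMod Q)) ↔ a = b := by
  constructor
  · intro h1
    have h2 : (Q : ℤ) ∣ a - b := by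
      have h3 := (ZMod.intCast_eq_intCast_iff_dvd_sub b a Q).1 h1.symm
      exact h3
    have h3 := Int.eq_zero_of_abs_lt_dvd h2 h
    omega
  · intro h1
    rw [h1]

private theorem mvi_sum_le {n C : ℕ} {d : ℕ} (ν : ℕ → (Fin d → ℤ)) {B : Finset ℕ}
    (hC : ∀ b ∈ B, ∀ j, |ν b j| ≤ C) {x : Fin n → ℕ} (hx : ∀ i, x i ∈ B) (j : Fin d) :
    |∑ i, ν (x i) j| ≤ (n * C : ℕ) := by
  calc |∑ i, ν (x i) j| ≤ ∑ i : Fin n, |ν (x i) j| := Finset.abs_sum_le_sum_abs _ _
    _ ≤ ∑ _i : Fin n, (C : ℤ) := Finset.sum_le_sum fun i _ => hC _ (hx i) j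
    _ = (n * C : ℕ) := by simp

theorem mv_int {d : ℕ} (ν : ℕ → (Fin d → ℤ)) (B : Finset ℕ)
    {p k s : ℕ} (hp : 0 < p) (hk : 1 ≤ k) {M M' : ℕ}
    (hM : ∀ b < p, Mx ν B (cls B p b) p k s ≤ M)
    (hM' : ∀ b < p, En ν (cls B p b) (s + k) ≤ M') :
    En ν B (s + k) ≤ 2 * ((s + k) ^ (2 * k) * (p ^ (2 * s) * M)) +
      2 * (p ^ (2 * (k - 1)) * (k ^ (2 * (s + k)) * M')) := by
  classical
  obtain ⟨C, hC⟩ : ∃ C : ℕ, ∀ b ∈ B, ∀ j, |ν b j| ≤ C := by
    refine ⟨∑ b ∈ B, ∑ j, (ν b j).natAbs, fun b hb j => ?_⟩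
    rw [Int.abs_eq_natAbs]
    have h1 : (ν b j).natAbs ≤ ∑ j, (ν b j).natAbs :=
      Finset.single_le_sum (f := fun j => (ν b j).natAbs) (fun _ _ => Nat.zero_le _)
        (Finset.mem_univ j)
    have h2 : ∑ j, (ν b j).natAbs ≤ ∑ b ∈ B, ∑ j, (ν b j).natAbs :=
      Finset.single_le_sum (f := fun b => ∑ j, (ν b j).natAbs) (fun _ _ => Nat.zero_le _) hb
    exact_mod_cast h1.trans h2
  obtain ⟨Q, hQ⟩ : ∃ Q : ℕ, Q = 2 * ((s + k) * C) + 1 := ⟨_, rfl⟩
  have : NeZero Q := ⟨by omega⟩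
  let ν' : ℕ → (Fin d → ZMod Q) := fun b j => ((ν b j : ℤ) : ZMod Q)
  have hred : ∀ a b : Fin d → ℤ, (∀ j, |a j| ≤ ((s + k) * C : ℕ)) →
      (∀ j, |b j| ≤ ((s + k) * C : ℕ)) →
      ((fun j => ((a j : ℤ) : ZMod Q)) = (fun j => ((b j : ℤ) : ZMod Q)) ↔ a = b) := by
    intro a b ha hb
    constructor
    · intro h
      funext j
      refine (mvi_zmod ?_).1 (congrFun h j)
      have h1 := abs_sub (a j) (b j)
      have h2 := ha j
      have h3 := hb j
      rw [hQ]
      push_cast at h2 h3 ⊢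
      linarith
    · intro h
      rw [h]
  have hEn : ∀ B' ⊆ B, En ν' B' (s + k) = En ν B' (s + k) := by
    intro B' hB'
    unfold En
    congr 1
    refine Finset.filter_congr fun xy hxy => ?_
    rw [Finset.mem_product, Fintype.mem_piFinset, Fintype.mem_piFinset] at hxy
    have h1 := hred (∑ i, ν (xy.1 i)) (∑ i, ν (xy.2 i))
      (fun j => by
        rw [Finset.sum_apply]
        exact mvi_sum_le ν hC (fun i => hB' (hxy.1 i)) j)
      (fun j => by
        rw [Finset.sum_apply]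
        exact mvi_sum_le ν hC (fun i => hB' (hxy.2 i)) j)
    rw [← h1]
    have h2 : ∀ x : Fin (s + k) → ℕ, ∑ i, ν' (x i) =
        fun j => (((∑ i, ν (x i)) j : ℤ) : ZMod Q) := by
      intro x
      funext j
      rw [Finset.sum_apply, Finset.sum_apply]
      push_cast
      rfl
    rw [h2, h2]
  have hMx : ∀ B' ⊆ B, Mx ν' B B' p k s = Mx ν B B' p k s := by
    intro B' hB'
    unfold Mx
    congr 1
    refine Finset.filter_congr fun z hz => ?_
    rw [Finset.mem_product, Finset.mem_product, Finset.mem_product, Fintype.mem_piFinset,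
      Fintype.mem_piFinset] at hz
    have hD : ∀ x ∈ Dst p k B, ∀ i, x i ∈ B := by
      intro x hx
      exact Fintype.mem_piFinset.1 (Finset.mem_filter.1 hx).1
    have hb : ∀ (x : Fin k → ℕ) (u : Fin s → ℕ), (∀ i, x i ∈ B) → (∀ i, u i ∈ B) → ∀ j,
        |(∑ i, ν (x i) + ∑ i, ν (u i)) j| ≤ ((s + k) * C : ℕ) := by
      intro x u hx hu j
      rw [Pi.add_apply, Finset.sum_apply, Finset.sum_apply]
      have h1 := mvi_sum_le ν hC hx j
      have h2 := mvi_sum_le ν hC hu j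
      refine (abs_add_le _ _).trans ?_
      push_cast at h1 h2 ⊢
      linarith
    have h1 := hred (∑ i, ν (z.1.1 i) + ∑ i, ν (z.2.1 i)) (∑ i, ν (z.1.2 i) + ∑ i, ν (z.2.2 i))
      (hb _ _ (hD _ hz.1.1) fun i => hB' (hz.2.1 i)) (hb _ _ (hD _ hz.1.2) fun i => hB' (hz.2.2 i))
    rw [← h1]
    have h2 : ∀ (x : Fin k → ℕ) (u : Fin s → ℕ), ∑ i, ν' (x i) + ∑ i, ν' (u i) =
        fun j => (((∑ i, ν (x i) + ∑ i, ν (u i)) j : ℤ) : ZMod Q) := by
      intro x u
      funext j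
      rw [Pi.add_apply, Pi.add_apply, Finset.sum_apply, Finset.sum_apply, Finset.sum_apply,
        Finset.sum_apply]
      push_cast
      rfl
    rw [h2, h2]
  have hcls : ∀ b, cls B p b ⊆ B := fun b => Finset.filter_subset _ _
  have h := mv_fin ν' B hp hk (M := M) (M' := M')
    (fun b hb => by rw [hMx _ (hcls b)]; exact hM b hb)
    (fun b hb => by rw [hEn _ (hcls b)]; exact hM' b hb)
  rwa [hEn B (Finset.Subset.refl B)] at h

end Pool.Agent.LLN
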