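import Pool.Agent.LLN.Defs

open MeasureTheory Set Filter Topology
open scoped ENNReal NNReal

namespace Pool.Agent.LLN

/-! NEWT. Newton's identities modulo `p ^ c`. HINT: in `R = ZMod (p ^ c)` the integers `1, .., k` are units (`k < p`),
so the power sums determine the elementary symmetric functions (`MvPolynomial.mul_esymm_eq_sum` or
`MvPolynomial.psum_eq_mul_esymm_sub_sum`, strong induction) and `∏ (X - x_i) = ∏ (X - y_i)` in `R[X]`
(`Multiset.prod_X_sub_X_eq_sum_esymm`, `Finset.prod_X_sub..`). Evaluate at `y_i`: `∏_j (y_i - x_j) = 0`; the residues of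
the `x_j` modulo `p` are different, so at most one factor is not a unit; as `0` is not a unit (`c ≥ 1`) exactly one
factor is not a unit and it is `0`: `y_i = x_(e i)`. Evaluate at `x_j`: some `y_i` has the residue of `x_j`, so `e` is
surjective, hence bijective. -/

private theorem newt_unit {p c : ℕ} (hp : p.Prime) (hc : 1 ≤ c) (u v : ZMod (p ^ c))
    (h : u.val % p ≠ v.val % p) : IsUnit (u - v) := by
  have : NeZero (p ^ c) := ⟨pow_ne_zero _ hp.ne_zero⟩
  have hdvd : p ∣ p ^ c := dvd_pow_self p (by omega)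
  have e : ((u - v).val : ZMod (p ^ c)) = u - v := ZMod.natCast_zmod_val _
  rw [← e, ZMod.isUnit_iff_coprime]
  apply Nat.Coprime.pow_right
  rw [Nat.coprime_comm, Nat.Prime.coprime_iff_not_dvd hp]
  intro hd
  apply h
  have h1 : ZMod.castHom hdvd (ZMod p) (u - v) = 0 := by
    rw [ZMod.castHom_apply, ZMod.cast_eq_val]
    exact (ZMod.natCast_eq_zero_iff _ _).2 hd
  rw [map_sub, sub_eq_zero, ZMod.castHom_apply, ZMod.castHom_apply, ZMod.cast_eq_val,
    ZMod.cast_eq_val] at h1
  exact (ZMod.natCast_eq_natCast_iff' _ _ _).1 h1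

private theorem newt_nonunit {p c : ℕ} (hp : p.Prime) (hc : 1 ≤ c) {ι : Type*} (s : Finset ι)
    (f : ι → ZMod (p ^ c)) (h : ∏ i ∈ s, f i = 0) : ∃ i ∈ s, ¬ IsUnit (f i) := by
  have : Fact (1 < p ^ c) := ⟨Nat.one_lt_pow (by omega) hp.one_lt⟩
  by_contra hcon
  push Not at hcon
  have : IsUnit (∏ i ∈ s, f i) := by
    rw [IsUnit.prod_iff]
    exact hcon
  rw [h] at this
  exact not_isUnit_zero this

private theorem newt_esymm {p k c : ℕ} (hp : p.Prime) (hk : k < p)
    {x y : Fin k → ZMod (p ^ c)}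
    (h : ∀ j, 1 ≤ j → j ≤ k → ∑ i, x i ^ j = ∑ i, y i ^ j) (n : ℕ) (hn : n ≤ k) :
    MvPolynomial.aeval x (MvPolynomial.esymm (Fin k) (ZMod (p ^ c)) n) =
      MvPolynomial.aeval y (MvPolynomial.esymm (Fin k) (ZMod (p ^ c)) n) := by
  induction n using Nat.strong_induction_on with
  | _ n ih =>
    rcases Nat.eq_zero_or_pos n with rfl | hn0
    · simp [MvPolynomial.esymm_zero]
    have key := MvPolynomial.mul_esymm_eq_sum (Fin k) (ZMod (p ^ c)) n
    have hx := congrArg (MvPolynomial.aeval x) key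
    have hy := congrArg (MvPolynomial.aeval y) key
    simp only [map_mul, map_natCast, map_sum, map_pow, map_neg, map_one] at hx hy
    have hps : ∀ (w : Fin k → ZMod (p ^ c)) (m : ℕ),
        MvPolynomial.aeval w (MvPolynomial.psum (Fin k) (ZMod (p ^ c)) m) = ∑ i, w i ^ m := by
      intro w m
      simp [MvPolynomial.psum]
    simp only [hps] at hx hy
    have hsum : ∑ a ∈ Finset.HasAntidiagonal.antidiagonal n with a.1 < n, (-1) ^ a.1 *
          MvPolynomial.aeval x (MvPolynomial.esymm (Fin k) (ZMod (p ^ c)) a.1) * ∑ i, x i ^ a.2 =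
        ∑ a ∈ Finset.HasAntidiagonal.antidiagonal n with a.1 < n, (-1) ^ a.1 *
          MvPolynomial.aeval y (MvPolynomial.esymm (Fin k) (ZMod (p ^ c)) a.1) * ∑ i, y i ^ a.2 := by
      apply Finset.sum_congr rfl
      rintro ⟨a, b⟩ hab
      rw [Finset.mem_filter, Finset.HasAntidiagonal.mem_antidiagonal] at hab
      simp only at hab
      rw [ih a hab.2 (by omega), h b (by omega) (by omega)]
    rw [hsum, ← hy] at hx
    have hunit : IsUnit ((n : ℕ) : ZMod (p ^ c)) := by
      rw [ZMod.isUnit_iff_coprime]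
      apply Nat.Coprime.pow_right
      rw [Nat.coprime_comm, Nat.Prime.coprime_iff_not_dvd hp]
      intro hd
      have := Nat.le_of_dvd hn0 hd
      omega
    exact hunit.mul_left_cancel hx

private theorem newt_prod {p k c : ℕ} (hp : p.Prime) (hk : k < p)
    {x y : Fin k → ZMod (p ^ c)}
    (h : ∀ j, 1 ≤ j → j ≤ k → ∑ i, x i ^ j = ∑ i, y i ^ j) (a : ZMod (p ^ c)) :
    ∏ i, (a - x i) = ∏ i, (a - y i) := by
  have hpoly : ∀ w : Fin k → ZMod (p ^ c), ∏ i, (a - w i) = Polynomial.eval a
      (∑ j ∈ Finset.range (k + 1), (-1) ^ j * (Polynomial.C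
        (MvPolynomial.aeval w (MvPolynomial.esymm (Fin k) (ZMod (p ^ c)) j)) *
          Polynomial.X ^ (k - j))) := by
    intro w
    have h1 := Multiset.prod_X_sub_X_eq_sum_esymm (Finset.univ.val.map w)
    rw [Multiset.card_map, Finset.card_val, Finset.card_univ, Fintype.card_fin] at h1
    simp only [MvPolynomial.aeval_esymm_eq_multiset_esymm]
    rw [← h1, Multiset.map_map]
    have h2 : (Multiset.map ((fun t => Polynomial.X - Polynomial.C t) ∘ w) Finset.univ.val).prod =
        ∏ i, (Polynomial.X - Polynomial.C (w i)) := rfl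
    rw [h2, Polynomial.eval_prod]
    simp
  rw [hpoly x, hpoly y]
  congr 1
  apply Finset.sum_congr rfl
  intro j hj
  rw [Finset.mem_range] at hj
  rw [newt_esymm hp hk h j (by omega)]

theorem newton_perm {p k c : ℕ} (hp : p.Prime) (hk : k < p) (hc : 1 ≤ c)
    {x y : Fin k → ZMod (p ^ c)} (hx : ∀ i j, (x i).val % p = (x j).val % p → i = j)
    (h : ∀ j, 1 ≤ j → j ≤ k → ∑ i, x i ^ j = ∑ i, y i ^ j) :
    ∃ e : Equiv.Perm (Fin k), ∀ i, y i = x (e i) := by
  have hprod := newt_prod hp hk h
  -- each `y i` is one of the `x j`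
  have hex : ∀ i, ∃ j, y i = x j := by
    intro i
    have h0 : ∏ j, (y i - x j) = 0 := by
      rw [hprod (y i)]
      exact Finset.prod_eq_zero (Finset.mem_univ i) (sub_self _)
    obtain ⟨j, -, hj⟩ := newt_nonunit hp hc _ _ h0
    refine ⟨j, ?_⟩
    have hjr : (y i).val % p = (x j).val % p := by
      by_contra hne
      exact hj (newt_unit hp hc _ _ hne)
    have hother : IsUnit (∏ l ∈ Finset.univ.erase j, (y i - x l)) := by
      rw [IsUnit.prod_iff]
      intro l hl
      apply newt_unit hp hc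
      intro he
      exact (Finset.ne_of_mem_erase hl) (hx l j (he.symm.trans hjr))
    rw [← Finset.mul_prod_erase _ _ (Finset.mem_univ j)] at h0
    have := (hother.mul_left_eq_zero).1 h0
    exact sub_eq_zero.1 this
  choose e he using hex
  have hsurj : Function.Surjective e := by
    intro j
    have h0 : ∏ i, (x j - y i) = 0 := by
      rw [← hprod (x j)]
      exact Finset.prod_eq_zero (Finset.mem_univ j) (sub_self _)
    obtain ⟨i, -, hi⟩ := newt_nonunit hp hc _ _ h0
    refine ⟨i, ?_⟩
    apply hx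
    by_contra hne
    apply hi
    rw [he i]
    exact newt_unit hp hc _ _ (fun h' => hne h'.symm)
  have hbij : Function.Bijective e := Finite.surjective_iff_bijective.1 hsurj
  exact ⟨Equiv.ofBijective e hbij, fun i => he i⟩

end Pool.Agent.LLN
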