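import Pool.Agent.LLN.Newton

open MeasureTheory Set Filter Topology
open scoped ENNReal NNReal

namespace Pool.Agent.LLN

/-! PAIRS. Linnik's lemma. Number of pairs of `k`-tuples with different residues, all power sums (shifted by
`b`) congruent modulo `p ^ j`. HINT: fix `y` (at most `p ^ (a k)` choices), put `c = min a k`. The sums
`∑ (x_i - b) ^ j` modulo `p ^ c` take at most `∏_j p ^ (c - min j c) = p ^ (c (c - 1) / 2)` values; for each
value `x - b` modulo `p ^ c` has at most `k!` possibilities (`newton_perm`), and every residue modulo `p ^ c` is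
taken by `p ^ (a - c)` numbers below `p ^ a`. -/

/-- numbers below `P * Q` with a given residue modulo `P` -/
private theorem pairs_res {P Q : ℕ} (r : ZMod P) :
    ((Finset.range (P * Q)).filter (fun n : ℕ => (n : ZMod P) = r)).card ≤ Q := by
  have h : ((Finset.range (P * Q)).filter (fun n : ℕ => (n : ZMod P) = r)).card ≤
      (Finset.range Q).card := by
    refine Finset.card_le_card_of_injOn (fun n : ℕ => n / P) ?_ ?_
    · intro n hn
      rw [Finset.mem_coe, Finset.mem_filter, Finset.mem_range] at hn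
      rw [Finset.mem_coe, Finset.mem_range]
      exact Nat.div_lt_of_lt_mul hn.1
    · intro n hn m hm h
      rw [Finset.mem_coe, Finset.mem_filter] at hn hm
      have h1 : (n : ZMod P) = (m : ZMod P) := hn.2.trans hm.2.symm
      rw [ZMod.natCast_eq_natCast_iff'] at h1
      have h2 := Nat.div_add_mod n P
      have h3 := Nat.div_add_mod m P
      have h4 : n / P = m / P := h
      rw [← h2, ← h3, h4, h1]
  rwa [Finset.card_range] at h

/-- the residues of a tuple, shifted -/
private def pairs_xi (P k b : ℕ) (x : Fin k → ℕ) : Fin k → ZMod P :=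
  fun i => (x i : ZMod P) - (b : ZMod P)

/-- tuples with given residues -/
private theorem pairs_fib {P Q k : ℕ} (b : ℕ) (η : Fin k → ZMod P)
    (S : Finset (Fin k → ℕ)) (hS : ∀ x ∈ S, ∀ i, x i < P * Q) :
    (S.filter (fun x => pairs_xi P k b x = η)).card ≤ Q ^ k := by
  have h1 : S.filter (fun x => pairs_xi P k b x = η) ⊆
      Fintype.piFinset (fun i => (Finset.range (P * Q)).filter
        (fun n : ℕ => (n : ZMod P) = η i + (b : ZMod P))) := by
    intro x hx
    rw [Finset.mem_filter] at hx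
    rw [Fintype.mem_piFinset]
    intro i
    rw [Finset.mem_filter, Finset.mem_range]
    refine ⟨hS x hx.1 i, ?_⟩
    rw [← hx.2]
    show (x i : ZMod P) = ((x i : ZMod P) - (b : ZMod P)) + (b : ZMod P)
    ring
  refine (Finset.card_le_card h1).trans ?_
  rw [Fintype.card_piFinset]
  refine (Finset.prod_le_prod' fun i _ => pairs_res _).trans ?_
  rw [Finset.prod_const, Finset.card_univ, Fintype.card_fin]

private theorem pairs_val {p c : ℕ} [NeZero (p ^ c)] (hc : 1 ≤ c) (n b : ℕ) :
    (((((n : ZMod (p ^ c)) - (b : ZMod (p ^ c))).val : ℕ) : ZMod p)) =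
      (n : ZMod p) - (b : ZMod p) := by
  have hd : p ∣ p ^ c := dvd_pow_self p (by omega)
  rw [ZMod.natCast_val, ZMod.cast_sub hd, ZMod.cast_natCast hd, ZMod.cast_natCast hd]

/-- the power sums -/
private def pairs_V {P k : ℕ} (η : Fin k → ZMod P) : Fin k → ZMod P :=
  fun j => ∑ i, η i ^ (j.val + 1)

/-- at most `k!` tuples with different residues and given power sums -/
private theorem pairs_newton {p k c : ℕ} (hp : p.Prime) (hk : k < p) (hc : 1 ≤ c)
    (S : Finset (Fin k → ZMod (p ^ c)))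
    (hS : ∀ η ∈ S, ∀ i j, (η i).val % p = (η j).val % p → i = j) (v : Fin k → ZMod (p ^ c)) :
    (S.filter (fun η => pairs_V η = v)).card ≤ k.factorial := by
  rcases Finset.eq_empty_or_nonempty (S.filter (fun η => pairs_V η = v)) with h0 | ⟨η0, h0⟩
  · rw [h0, Finset.card_empty]
    exact Nat.zero_le _
  · rw [Finset.mem_filter] at h0
    have h1 : S.filter (fun η => pairs_V η = v) ⊆
        (Finset.univ : Finset (Equiv.Perm (Fin k))).image (fun e => fun i => η0 (e i)) := by
      intro η hη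
      rw [Finset.mem_filter] at hη
      obtain ⟨e, he⟩ := newton_perm hp hk hc (x := η0) (y := η) (hS η0 h0.1) (by
        intro j hj1 hj2
        have h2 : pairs_V η0 = pairs_V η := h0.2.trans hη.2.symm
        have h3 := congrFun h2 ⟨j - 1, by omega⟩
        have h4 : j - 1 + 1 = j := by omega
        simp only [pairs_V, h4] at h3
        exact h3)
      exact Finset.mem_image.2 ⟨e, Finset.mem_univ _, (funext he).symm⟩
    refine (Finset.card_le_card h1).trans (Finset.card_image_le.trans ?_)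
    rw [Finset.card_univ, Fintype.card_perm, Fintype.card_fin]

/-- the multiples of `p ^ j` modulo `p ^ c` -/
private theorem pairs_mult {p c : ℕ} (hp : 0 < p) (j : ℕ) (w : ℤ) :
    ∃ n ∈ Finset.range (p ^ (c - j)), (((p : ℤ) ^ j * w : ℤ) : ZMod (p ^ c)) =
      ((p ^ j * n : ℕ) : ZMod (p ^ c)) := by
  have hP : 0 < p ^ (c - j) := pow_pos hp _
  have hP' : (0 : ℤ) < ((p ^ (c - j) : ℕ) : ℤ) := by exact_mod_cast hP
  refine ⟨(w % ((p ^ (c - j) : ℕ) : ℤ)).toNat, ?_, ?_⟩
  · rw [Finset.mem_range]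
    have h1 := Int.emod_lt_of_pos w hP'
    have h2 := Int.emod_nonneg w hP'.ne'
    omega
  · have h2 := Int.emod_nonneg w hP'.ne'
    have h3 : (((w % ((p ^ (c - j) : ℕ) : ℤ)).toNat : ℕ) : ℤ) = w % ((p ^ (c - j) : ℕ) : ℤ) :=
      Int.toNat_of_nonneg h2
    have h4 : ((p ^ j * (w % ((p ^ (c - j) : ℕ) : ℤ)).toNat : ℕ) : ZMod (p ^ c)) =
        (((p : ℤ) ^ j * (w % ((p ^ (c - j) : ℕ) : ℤ)) : ℤ) : ZMod (p ^ c)) := by
      rw [← h3]
      push_cast
      rfl
    rw [h4, ZMod.intCast_eq_intCast_iff_dvd_sub, ← mul_sub]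
    have h5 : w % ((p ^ (c - j) : ℕ) : ℤ) - w = ((p ^ (c - j) : ℕ) : ℤ) *
        (-(w / ((p ^ (c - j) : ℕ) : ℤ))) := by
      have := Int.emod_add_mul_ediv w ((p ^ (c - j) : ℕ) : ℤ)
      linarith
    rw [h5, ← mul_assoc]
    refine Dvd.dvd.mul_right ?_ _
    have h6 : ((p : ℤ) ^ j * ((p ^ (c - j) : ℕ) : ℤ)) = ((p ^ (j + (c - j)) : ℕ) : ℤ) := by
      push_cast
      rw [pow_add]
    rw [h6]
    exact_mod_cast pow_dvd_pow p (by omega)

/-- the possible vectors of power sums -/
private theorem pairs_vals {p k c : ℕ} (hp : 0 < p) (v0 : Fin k → ZMod (p ^ c))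
    (S : Finset (Fin k → ZMod (p ^ c)))
    (hS : ∀ v ∈ S, ∀ j : Fin k, ∃ w : ℤ, v j = v0 j +
      (((p : ℤ) ^ (j.val + 1) * w : ℤ) : ZMod (p ^ c))) :
    S.card ≤ ∏ j : Fin k, p ^ (c - (j.val + 1)) := by
  have h1 : S ⊆ Fintype.piFinset (fun j : Fin k => (Finset.range (p ^ (c - (j.val + 1)))).image
      (fun n : ℕ => v0 j + ((p ^ (j.val + 1) * n : ℕ) : ZMod (p ^ c)))) := by
    intro v hv
    rw [Fintype.mem_piFinset]
    intro j
    obtain ⟨w, hw⟩ := hS v hv j
    obtain ⟨n, hn, h2⟩ := pairs_mult (c := c) hp (j.val + 1) w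
    rw [Finset.mem_image]
    exact ⟨n, hn, by rw [hw, h2]⟩
  refine (Finset.card_le_card h1).trans ?_
  rw [Fintype.card_piFinset]
  refine Finset.prod_le_prod' fun j _ => Finset.card_image_le.trans ?_
  rw [Finset.card_range]

private theorem pairs_exp {k c : ℕ} (h : c ≤ k) :
    ∑ j : Fin k, (c - (j.val + 1)) = c * (c - 1) / 2 := by
  rw [Fin.sum_univ_eq_sum_range (fun j => c - (j + 1)) k]
  have h1 : ∑ j ∈ Finset.range k, (c - (j + 1)) = ∑ j ∈ Finset.range c, (c - (j + 1)) := by
    symm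
    refine Finset.sum_subset (Finset.range_mono h) fun j _ hj => ?_
    rw [Finset.mem_range] at hj
    omega
  rw [h1, ← Finset.sum_range_id]
  rw [← Finset.sum_range_reflect (fun j => j) c]
  refine Finset.sum_congr rfl fun j hj => ?_
  rw [Finset.mem_range] at hj
  omega

theorem pairs_card {p k a b : ℕ} (hp : p.Prime) (hk : k < p) (hk1 : 1 ≤ k) :
    (((Dst p k (Finset.range (p ^ a))) ×ˢ (Dst p k (Finset.range (p ^ a)))).filter
      (fun z => ∀ j, 1 ≤ j → j ≤ k →
        (p : ℤ) ^ j ∣ ∑ i, ((z.1 i : ℤ) - b) ^ j - ∑ i, ((z.2 i : ℤ) - b) ^ j)).card ≤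
      p ^ (a * k) * (k.factorial * p ^ (min a k * (min a k - 1) / 2 + (a - min a k) * k)) := by
  classical
  set D := Dst p k (Finset.range (p ^ a)) with hD
  set c := min a k with hc
  have hDlt : ∀ x ∈ D, ∀ i, x i < p ^ a := by
    intro x hx i
    rw [hD, Dst, Finset.mem_filter, Fintype.mem_piFinset] at hx
    exact Finset.mem_range.1 (hx.1 i)
  have hDcard : D.card ≤ p ^ (a * k) := by
    rw [hD, Dst]
    refine (Finset.card_filter_le _ _).trans ?_
    rw [Fintype.card_piFinset, Finset.prod_const, Finset.card_univ, Fintype.card_fin,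
      Finset.card_range, ← pow_mul]
  have hp0 : 0 < p := hp.pos
  -- for fixed y
  have hfix : ∀ y : Fin k → ℕ, (D.filter (fun x => ∀ j, 1 ≤ j → j ≤ k →
      (p : ℤ) ^ j ∣ ∑ i, ((x i : ℤ) - b) ^ j - ∑ i, ((y i : ℤ) - b) ^ j)).card ≤
      k.factorial * p ^ (c * (c - 1) / 2 + (a - c) * k) := by
    intro y
    set X := D.filter (fun x => ∀ j, 1 ≤ j → j ≤ k →
      (p : ℤ) ^ j ∣ ∑ i, ((x i : ℤ) - b) ^ j - ∑ i, ((y i : ℤ) - b) ^ j) with hX
    rcases Nat.eq_zero_or_pos a with ha | ha
    · have h1 : X.card ≤ D.card := Finset.card_filter_le _ _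
      have h2 : D.card ≤ 1 := by
        refine hDcard.trans ?_
        rw [ha, zero_mul, pow_zero]
      have h3 : 1 ≤ k.factorial * p ^ (c * (c - 1) / 2 + (a - c) * k) :=
        Nat.one_le_iff_ne_zero.2 (mul_ne_zero (Nat.factorial_ne_zero k)
          (pow_ne_zero _ hp0.ne'))
      omega
    · have hc1 : 1 ≤ c := le_min ha hk1
      haveI : NeZero (p ^ c) := ⟨pow_ne_zero _ hp0.ne'⟩
      have hca : c + (a - c) = a := by have : c ≤ a := min_le_left _ _; omega
      have hsplit : p ^ a = p ^ c * p ^ (a - c) := by rw [← pow_add, hca]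
      -- fibres of the residues
      have h1 : X.card ≤ (p ^ (a - c)) ^ k * (X.image (pairs_xi (p ^ c) k b)).card := by
        refine Finset.card_le_mul_card_image X _ fun η _ => ?_
        refine pairs_fib (P := p ^ c) (Q := p ^ (a - c)) b η X fun x hx i => ?_
        rw [← hsplit]
        exact hDlt x (Finset.mem_filter.1 hx).1 i
      have h2 : (X.image (pairs_xi (p ^ c) k b)).card ≤ k.factorial *
          ((X.image (pairs_xi (p ^ c) k b)).image pairs_V).card := by
        refine Finset.card_le_mul_card_image _ _ fun v _ => ?_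
        refine pairs_newton hp hk hc1 _ ?_ v
        intro η hη i j hij
        obtain ⟨x, hx, rfl⟩ := Finset.mem_image.1 hη
        have hxD := (Finset.mem_filter.1 hx).1
        rw [hD, Dst, Finset.mem_filter] at hxD
        refine hxD.2 i j ?_
        have h3 : ((((x i : ZMod (p ^ c)) - (b : ZMod (p ^ c))).val : ℕ) : ZMod p) =
            ((((x j : ZMod (p ^ c)) - (b : ZMod (p ^ c))).val : ℕ) : ZMod p) :=
          (ZMod.natCast_eq_natCast_iff' _ _ p).2 hij
        rw [pairs_val hc1, pairs_val hc1] at h3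
        have h4 : ((x i : ℕ) : ZMod p) = ((x j : ℕ) : ZMod p) := by
          have := congrArg (fun t => t + (b : ZMod p)) h3
          simpa using this
        exact (ZMod.natCast_eq_natCast_iff' _ _ p).1 h4
      have h3 : ((X.image (pairs_xi (p ^ c) k b)).image pairs_V).card ≤
          ∏ j : Fin k, p ^ (c - (j.val + 1)) := by
        refine pairs_vals hp0 (pairs_V (pairs_xi (p ^ c) k b y)) _ ?_
        intro v hv j
        obtain ⟨η, hη, rfl⟩ := Finset.mem_image.1 hv
        obtain ⟨x, hx, rfl⟩ := Finset.mem_image.1 hη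
        obtain ⟨w, hw⟩ := (Finset.mem_filter.1 hx).2 (j.val + 1) (by omega) (by
          have := j.2; omega)
        refine ⟨w, ?_⟩
        rw [← hw]
        have h5 : ∀ z : Fin k → ℕ, pairs_V (pairs_xi (p ^ c) k b z) j =
            ((∑ i, ((z i : ℤ) - b) ^ (j.val + 1) : ℤ) : ZMod (p ^ c)) := by
          intro z
          rw [pairs_V]
          push_cast
          rfl
        rw [h5, h5]
        push_cast
        ring
      rw [Finset.prod_pow_eq_pow_sum, pairs_exp (min_le_right a k)] at h3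
      calc X.card ≤ (p ^ (a - c)) ^ k * (X.image (pairs_xi (p ^ c) k b)).card := h1
        _ ≤ (p ^ (a - c)) ^ k * (k.factorial * p ^ (c * (c - 1) / 2)) :=
            Nat.mul_le_mul_left _ (h2.trans (Nat.mul_le_mul_left _ h3))
        _ = _ := by rw [pow_add, ← pow_mul]; ring
  refine (Finset.card_le_mul_card_image (f := Prod.snd) _ (k.factorial *
    p ^ (c * (c - 1) / 2 + (a - c) * k)) ?_).trans ?_
  · intro y _
    refine le_trans ?_ (hfix y)
    refine Finset.card_le_card_of_injOn Prod.fst ?_ ?_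
    · rintro ⟨x, y'⟩ hz
      simp only [Finset.coe_filter, Set.mem_setOf_eq, Finset.mem_filter, Finset.mem_product] at hz
      obtain ⟨⟨⟨hx, _⟩, h1⟩, rfl⟩ := hz
      rw [Finset.mem_coe, Finset.mem_filter]
      exact ⟨hx, h1⟩
    · rintro ⟨x, y'⟩ hz ⟨x', y''⟩ hz' h
      simp only [Finset.coe_filter, Set.mem_setOf_eq] at hz hz'
      obtain ⟨_, rfl⟩ := hz
      obtain ⟨_, rfl⟩ := hz'
      have h1 : x = x' := h
      rw [h1]
  · rw [mul_comm]
    refine Nat.mul_le_mul_right _ (le_trans (Finset.card_le_card ?_) hDcard)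
    intro y hy
    obtain ⟨z, hz, rfl⟩ := Finset.mem_image.1 hy
    exact (Finset.mem_product.1 (Finset.mem_filter.1 hz).1).2

end Pool.Agent.LLN
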