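import Pool.Agent.LLN.MixB
import Pool.Agent.LLN.MvInt

open MeasureTheory Set Filter Topology
open scoped ENNReal NNReal

namespace Pool.Agent.LLN

/-! REC. The recursion. HINT: `mv_int` with `ν = nu k`, `mix_le`, `en_shift`. -/

theorem j_rec {p k a s : ℕ} (hp : p.Prime) (hk : k < p) (hk1 : 1 ≤ k) :
    J k (s + k) (Finset.range (p ^ (a + 1))) ≤
      2 * (s + k) ^ (2 * k) * k.factorial * p ^ (2 * s + (a + 1) * k +
        (min (a + 1) k * (min (a + 1) k - 1) / 2 + (a + 1 - min (a + 1) k) * k)) *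
        J k s (Finset.range (p ^ a)) +
      2 * k ^ (2 * (s + k)) * p ^ (2 * (k - 1)) * J k (s + k) (Finset.range (p ^ a)) := by
  have h := mv_int (nu k) (Finset.range (p ^ (a + 1))) (p := p) (k := k) (s := s) hp.pos hk1
    (M := p ^ ((a + 1) * k) * (k.factorial *
        p ^ (min (a + 1) k * (min (a + 1) k - 1) / 2 + (a + 1 - min (a + 1) k) * k)) *
        J k s (Finset.range (p ^ a)))
    (M' := J k (s + k) (Finset.range (p ^ a)))
    (fun b hb => mix_le hp hk hk1 hb)
    (fun b hb => (en_shift hp.pos k (s + k) a hb).le)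
  refine h.trans (le_of_eq ?_)
  rw [pow_add p (2 * s + (a + 1) * k), pow_add p (2 * s)]
  ring

end Pool.Agent.LLN
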