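import Pool.Agent.LLN.Count
import Pool.Agent.LLN.Vset
import Pool.Agent.LogSc.Cover
import Pool.Agent.LogSc.Small
import Pool.Agent.LogSc.Gset

open MeasureTheory Set Filter Topology
open scoped ENNReal NNReal

namespace Pool.Agent.LLN

/-! SEPV. The separation theorem for mixed orders. HINT (compare `LogSc.Sep`): `cover` with `δ / 64` gives `L, W`; `count` for
`VS L W` and both pairs, exponent `κ' ∈ (κ, 3/2)`, gives `t0`; `small` with `t0` and `δ / 2` gives `K, η`. For large `n` put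
`N = n / 8`, `I = Nat.ceil (log n ^ κ)`, `D = K ∩ Gs (2 ^ I) 2 N L W ∩ Gs (3 ^ I) 3 N L W` (`gset`, `measurableSet_gs`:
measure of the complement `≤ δ / 2 + 2 * 8 * δ / 64`). Let `θ ≠ 0`, `(2 ^ s * 3 ^ t) • θ = 0`, `s + t ≤ (log n) ^ κ`, so `θ` has order
`2 ^ s' * 3 ^ t'`, `s', t' ≤ I`, and suppose `‖x - y - θ‖ < 2 ^ (-n)`. (a) `t' ≥ t0`: `2 ^ I • θ` has order `3 ^ t'`; for
`i < N` outside `2 N / 8` indices the points `(2 ^ I * 2 ^ i) • x`, `(2 ^ I * 2 ^ i) • y` have their cells in `W`, and `2 ^ i • 2 ^ I • θ` is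
closer than `2 ^ (I + N - n) ≤ 2 ^ (-L)` to their difference, so it is in `VS L W`; contradiction to `count`. (b) `t' < t0 ≤ s'`: the
same with `3`: `3 ^ (I + N) 2 ^ (-n) ≤ 2 ^ (-L)`. (c) `s', t' < t0`: `6 ^ t0 • θ = 0`, `small`, `2 ^ (-n) < η`. -/

private theorem sepv_ord {p q a b I : ℕ} (hpq : Nat.Coprime p q) (hp : 0 < p)
    {θ : T} (hθ : addOrderOf θ = p ^ a * q ^ b) (ha : a ≤ I) :
    addOrderOf (p ^ I • θ) = q ^ b := by
  have hne : p ^ I ≠ 0 := by positivity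
  rw [addOrderOf_nsmul' θ hne, hθ]
  have e1 : p ^ I = p ^ a * p ^ (I - a) := by rw [← pow_add]; congr 1; omega
  have hcop : Nat.gcd (q ^ b) (p ^ (I - a)) = 1 := Nat.Coprime.pow _ _ hpq.symm
  rw [e1, Nat.gcd_mul_left, hcop, mul_one]
  exact Nat.mul_div_cancel_left _ (by positivity)

private theorem sepv_mp {σ : Measure T} {p : ℕ}
    (h : MeasurePreserving (fun x : T => p • x) σ σ) (a : ℕ) :
    MeasurePreserving (fun x : T => p ^ a • x) σ σ := by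
  have h1 := h.iterate a
  have e : ((fun x : T => p • x)^[a]) = fun x : T => p ^ a • x := by
    rw [smul_iterate]
  rwa [e] at h1

open Classical in
private theorem sepv_key {p I N n L : ℕ} (hp : 0 < p) {W : Finset ℕ} {x y θ : T} (hN : 0 < N)
    (hcount : 2 * ((Finset.range N).filter (fun i => p ^ i • (p ^ I • θ) ∈ VS L W)).card ≤ N)
    (hc : p ^ I * p ^ N * 2 ^ L ≤ 2 ^ n) (hx : x ∈ LogSc.Gs (p ^ I) p N L W)
    (hy : y ∈ LogSc.Gs (p ^ I) p N L W) :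
    ((2 : ℝ) ^ n)⁻¹ ≤ ‖x - y - θ‖ := by
  by_contra hlt
  rw [not_le] at hlt
  have hx' : 8 * ((Finset.range N).filter
      (fun i => cell 2 L ((p ^ I * p ^ i) • x) ∉ W)).card ≤ N := hx
  have hy' : 8 * ((Finset.range N).filter
      (fun i => cell 2 L ((p ^ I * p ^ i) • y) ∉ W)).card ≤ N := hy
  have key2 : ∀ i < N, cell 2 L ((p ^ I * p ^ i) • x) ∈ W → cell 2 L ((p ^ I * p ^ i) • y) ∈ W →
      p ^ i • (p ^ I • θ) ∈ VS L W := by
    intro i hi hwx hwy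
    refine vs_mem hwx hwy ?_
    have e1 : p ^ i • (p ^ I • θ) - ((p ^ I * p ^ i) • x - (p ^ I * p ^ i) • y) =
        -((p ^ I * p ^ i) • (x - y - θ)) := by
      have e2 : (p ^ I * p ^ i) • (x - y - θ) =
          (p ^ I * p ^ i) • x - (p ^ I * p ^ i) • y - p ^ i • (p ^ I • θ) := by
        rw [smul_sub, smul_sub]
        congr 1
        rw [← mul_smul, mul_comm]
      rw [e2]
      abel
    rw [e1, norm_neg]
    refine (norm_nsmul_le).trans ?_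
    have h5 : ((p ^ I * p ^ i : ℕ) : ℝ) * ((2 : ℝ) ^ n)⁻¹ ≤ ((2 : ℝ) ^ L)⁻¹ := by
      have h6 : p ^ I * p ^ i * 2 ^ L ≤ 2 ^ n :=
        (Nat.mul_le_mul_right _ (Nat.mul_le_mul_left _
          (Nat.pow_le_pow_right hp hi.le))).trans hc
      have h7 : ((p ^ I * p ^ i : ℕ) : ℝ) * (2 : ℝ) ^ L ≤ (2 : ℝ) ^ n := by exact_mod_cast h6
      rw [← div_eq_mul_inv, div_le_iff₀ (by positivity)]
      rw [inv_mul_eq_div, le_div_iff₀ (by positivity)]
      exact h7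
    refine le_trans ?_ h5
    exact mul_le_mul_of_nonneg_left hlt.le (Nat.cast_nonneg _)
  have hsub : Finset.range N ⊆
      ((Finset.range N).filter (fun i => cell 2 L ((p ^ I * p ^ i) • x) ∉ W) ∪
      (Finset.range N).filter (fun i => cell 2 L ((p ^ I * p ^ i) • y) ∉ W)) ∪
      (Finset.range N).filter (fun i => p ^ i • (p ^ I • θ) ∈ VS L W) := by
    intro i hi
    simp only [Finset.mem_union, Finset.mem_filter]
    by_cases hwx : cell 2 L ((p ^ I * p ^ i) • x) ∈ W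
    · by_cases hwy : cell 2 L ((p ^ I * p ^ i) • y) ∈ W
      · exact Or.inr ⟨hi, key2 i (Finset.mem_range.1 hi) hwx hwy⟩
      · exact Or.inl (Or.inr ⟨hi, hwy⟩)
    · exact Or.inl (Or.inl ⟨hi, hwx⟩)
  have hcard := (Finset.card_le_card hsub).trans (Finset.card_union_le _ _)
  have hcard2 := Finset.card_union_le
    ((Finset.range N).filter (fun i => cell 2 L ((p ^ I * p ^ i) • x) ∉ W))
    ((Finset.range N).filter (fun i => cell 2 L ((p ^ I * p ^ i) • y) ∉ W))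
  rw [Finset.card_range] at hcard
  omega

private theorem sepv_log {n : ℕ} (hn : 14 ≤ n) (hl : 12 ≤ Real.log n) :
    Real.log n ≤ (Nat.log 2 (n / 8) : ℝ) := by
  have hm0 : 0 < n / 8 := by omega
  have h1 : n / 8 < 2 ^ (Nat.log 2 (n / 8) + 1) := Nat.lt_pow_succ_log_self (by norm_num) _
  have h2 : ((n / 8 : ℕ) : ℝ) < 2 ^ (Nat.log 2 (n / 8) + 1) := by exact_mod_cast h1
  have hm0' : (0 : ℝ) < ((n / 8 : ℕ) : ℝ) := by exact_mod_cast hm0
  have h3 := Real.log_lt_log hm0' h2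
  rw [Real.log_pow] at h3
  have h4 : (n : ℝ) ≤ 2 ^ 4 * ((n / 8 : ℕ) : ℝ) := by
    have : n ≤ 2 ^ 4 * (n / 8) := by omega
    exact_mod_cast this
  have hn0 : (0 : ℝ) < n := by
    have : 0 < n := by omega
    exact_mod_cast this
  have h5 := Real.log_le_log hn0 h4
  rw [Real.log_mul (by norm_num) hm0'.ne', Real.log_pow] at h5
  push_cast at h3 h5
  have h6 := Real.log_two_lt_d9
  have h7 : 0 < Real.log 2 := Real.log_pos (by norm_num)
  have hk : (0 : ℝ) ≤ (Nat.log 2 (n / 8) : ℝ) := Nat.cast_nonneg _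
  nlinarith

private theorem sepv_event {κ κ' : ℝ} (hκ : κ ≤ κ') (h1 : 1 < κ') (h2 : κ' ≤ 2) (L N0 : ℕ)
    {η : ℝ} (hη : 0 < η) :
    ∀ᶠ n : ℕ in atTop, N0 ≤ n / 8 ∧ 0 < n / 8 ∧
      Real.log n ^ κ ≤ (Nat.log 2 (n / 8) : ℝ) ^ κ' ∧
      2 * Nat.ceil (Real.log n ^ κ) + 2 * (n / 8) + L ≤ n ∧ ((2 : ℝ) ^ n)⁻¹ < η := by
  have hev1 : ∀ᶠ n : ℕ in atTop, ((2 : ℝ) ^ n)⁻¹ < η := by
    have h := tendsto_pow_atTop_nhds_zero_of_lt_one (r := (1 / 2 : ℝ)) (by norm_num)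
      (by norm_num)
    filter_upwards [h.eventually_lt_const hη] with n hn
    rwa [one_div, inv_pow] at hn
  have hev2 : ∀ᶠ n : ℕ in atTop, (12 : ℝ) ≤ Real.log n :=
    (Real.tendsto_log_atTop.comp tendsto_natCast_atTop_atTop).eventually_ge_atTop 12
  have hev3 : ∀ᶠ n : ℕ in atTop, Real.log n ^ 2 ≤ 1 / 16 * n := by
    have h := (Real.isLittleO_pow_log_id_atTop (n := 2)).bound (c := 1 / 16) (by norm_num)
    have h' := tendsto_natCast_atTop_atTop (R := ℝ) |>.eventually h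
    filter_upwards [h'] with n hn
    rw [Real.norm_eq_abs, id, Real.norm_eq_abs, abs_of_nonneg (by positivity),
      abs_of_nonneg (by positivity)] at hn
    exact hn
  filter_upwards [hev1, hev2, hev3, eventually_ge_atTop (8 * N0 + 8 + 4 * L + 14)]
    with n ha hb hc hd
  have hlog := sepv_log (show 14 ≤ n by omega) hb
  have hpow2 : Real.log n ^ κ ≤ Real.log n ^ (2 : ℝ) :=
    Real.rpow_le_rpow_of_exponent_le (by linarith) (hκ.trans h2)
  have hceil : (Nat.ceil (Real.log n ^ κ) : ℝ) < Real.log n ^ κ + 1 :=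
    Nat.ceil_lt_add_one (Real.rpow_nonneg (by linarith) _)
  rw [Real.rpow_two] at hpow2
  refine ⟨by omega, by omega, ?_, ?_, ha⟩
  · calc Real.log n ^ κ ≤ Real.log n ^ κ' :=
        Real.rpow_le_rpow_of_exponent_le (by linarith) hκ
      _ ≤ _ := Real.rpow_le_rpow (by linarith) hlog (by linarith)
  · have h3 : ((2 * Nat.ceil (Real.log n ^ κ) + 2 * (n / 8) + L : ℕ) : ℝ) ≤ n := by
      have h4 : ((n / 8 : ℕ) : ℝ) ≤ (n : ℝ) / 8 := by
        have := @Nat.cast_div_le ℝ _ _ _ n 8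
        push_cast at this
        exact this
      have h5 : (8 * (N0 : ℝ) + 8 + 4 * L + 14) ≤ n := by exact_mod_cast hd
      have h6 : (0 : ℝ) ≤ N0 := Nat.cast_nonneg _
      have h7 : (0 : ℝ) ≤ L := Nat.cast_nonneg _
      push_cast
      linarith
    exact_mod_cast h3

theorem sepv {σ : Measure T} [IsFiniteMeasure σ]
    (h2 : MeasurePreserving (fun x : T => 2 • x) σ σ)
    (h3 : MeasurePreserving (fun x : T => 3 • x) σ σ)
    {X Y : Set T} (hX : MeasurableSet X) (hX0 : σ Xᶜ = 0) (hXi : InjOn (fun x : T => 2 • x) X)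
    (hY : MeasurableSet Y) (hY0 : σ Yᶜ = 0) (hYi : InjOn (fun x : T => 3 • x) Y)
    {κ : ℝ} (hκ : κ < 3 / 2) {δ : ℝ≥0∞} (hδ : δ ≠ 0) :
    ∀ᶠ n : ℕ in atTop, ∃ D : Set T, MeasurableSet D ∧ σ Dᶜ ≤ δ ∧
      ∀ x ∈ D, ∀ y ∈ D, ∀ s t : ℕ, ((s + t : ℕ) : ℝ) ≤ Real.log n ^ κ → ∀ θ : T, θ ≠ 0 →
        (2 ^ s * 3 ^ t) • θ = 0 → ((2 : ℝ) ^ n)⁻¹ ≤ ‖x - y - θ‖ := by
  classical
  obtain ⟨κ', hκ1, hκ2, hκ3⟩ : ∃ κ' : ℝ, κ ≤ κ' ∧ 1 < κ' ∧ κ' < 3 / 2 := by
    refine ⟨(max κ 1 + 3 / 2) / 2, ?_, ?_, ?_⟩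
    · have := le_max_left κ 1
      linarith
    · have := le_max_right κ 1
      linarith
    · have : max κ 1 < 3 / 2 := max_lt hκ (by norm_num)
      linarith
  have hδ' : δ / 32 ≠ 0 := ENNReal.div_ne_zero.2 ⟨hδ, by norm_num⟩
  obtain ⟨L, W, hW, hcov⟩ := LogSc.cover h2 hX hX0 hXi hδ'
  obtain ⟨ta, Na, hca⟩ := count (p := 2) (q := 3) (Or.inl ⟨rfl, rfl⟩) hκ2 hκ3 (isClosed_vs L W)
    (volume_vs hW)
  obtain ⟨tb, Nb, hcb⟩ := count (p := 3) (q := 2) (Or.inr ⟨rfl, rfl⟩) hκ2 hκ3 (isClosed_vs L W)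
    (volume_vs hW)
  have hδ2 : δ / 2 ≠ 0 := ENNReal.div_ne_zero.2 ⟨hδ, by norm_num⟩
  obtain ⟨K, hKm, hK0, η, hη, hKs⟩ := LogSc.small h2 h3 hX hX0 hXi hY hY0 hYi (max ta tb) hδ2
  filter_upwards [sepv_event hκ1 hκ2 (by linarith) L (max Na Nb) hη] with n hn
  obtain ⟨hn1, hn2, hn3, hn4, hnη⟩ := hn
  obtain ⟨N, hN⟩ : ∃ N, N = n / 8 := ⟨_, rfl⟩
  obtain ⟨I, hI⟩ : ∃ I, I = Nat.ceil (Real.log n ^ κ) := ⟨_, rfl⟩
  rw [← hN] at hn1 hn2 hn3 hn4
  rw [← hI] at hn4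
  have hgA : σ (LogSc.Gs (2 ^ I) 2 N L W)ᶜ ≤ 8 * (δ / 32) :=
    LogSc.gset h2 (sepv_mp h2 I) hn2 hcov
  have hgB : σ (LogSc.Gs (3 ^ I) 3 N L W)ᶜ ≤ 8 * (δ / 32) :=
    LogSc.gset h3 (sepv_mp h3 I) hn2 hcov
  refine ⟨K ∩ (LogSc.Gs (2 ^ I) 2 N L W ∩ LogSc.Gs (3 ^ I) 3 N L W), ?_, ?_, ?_⟩
  · exact hKm.inter ((LogSc.measurableSet_gs _ _ _ _ _).inter (LogSc.measurableSet_gs _ _ _ _ _))
  · rw [compl_inter, compl_inter]
    refine (measure_union_le _ _).trans ?_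
    have h6 : σ ((LogSc.Gs (2 ^ I) 2 N L W)ᶜ ∪ (LogSc.Gs (3 ^ I) 3 N L W)ᶜ) ≤ δ / 2 := by
      refine (measure_union_le _ _).trans ((add_le_add hgA hgB).trans ?_)
      rw [ENNReal.le_div_iff_mul_le (Or.inl (by norm_num)) (Or.inl (by norm_num))]
      have e : (8 * (δ / 32) + 8 * (δ / 32)) * 2 = 32 * (δ / 32) := by ring
      rw [e, ENNReal.mul_div_cancel (by norm_num) (by norm_num)]
    calc σ Kᶜ + _ ≤ δ / 2 + δ / 2 := add_le_add hK0 h6
      _ = δ := ENNReal.add_halves δ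
  · rintro x ⟨hxK, hxA, hxB⟩ y ⟨hyK, hyA, hyB⟩ s t hst θ hθ hθ0
    have hdvd : addOrderOf θ ∣ 2 ^ s * 3 ^ t := addOrderOf_dvd_of_nsmul_eq_zero hθ0
    obtain ⟨k1, k2, hk1, hk2, hk⟩ := (Nat.dvd_mul).1 hdvd
    obtain ⟨s', hs', rfl⟩ := (Nat.dvd_prime_pow Nat.prime_two).1 hk1
    obtain ⟨t', ht', rfl⟩ := (Nat.dvd_prime_pow Nat.prime_three).1 hk2
    have hle : ∀ u : ℕ, u ≤ s + t → (u : ℝ) ≤ Real.log n ^ κ := fun u hu =>
      le_trans (by exact_mod_cast hu) hst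
    have hleI : ∀ u : ℕ, u ≤ s + t → u ≤ I := by
      intro u hu
      rw [hI]
      exact_mod_cast (hle u hu).trans (Nat.le_ceil _)
    have hp4 : ∀ a : ℕ, (4 : ℕ) ^ a = 2 ^ (2 * a) := fun a => by
      rw [pow_mul]; norm_num
    by_cases hta : ta ≤ t'
    · have hord := sepv_ord (p := 2) (q := 3) (by norm_num) (by norm_num)
        (θ := θ) hk.symm (hleI s' (by omega))
      refine sepv_key (p := 2) (by norm_num) hn2 ?_ ?_ hxA hyA
      · convert hca N (by omega) t' hta ((hle t' (by omega)).trans hn3) _ hord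
      · rw [← pow_add, ← pow_add]
        exact Nat.pow_le_pow_right (by norm_num) (by omega)
    · by_cases htb : tb ≤ s'
      · have hord := sepv_ord (p := 3) (q := 2) (by norm_num) (by norm_num)
          (θ := θ) (by rw [← hk, mul_comm]) (hleI t' (by omega))
        refine sepv_key (p := 3) (by norm_num) hn2 ?_ ?_ hxB hyB
        · convert hcb N (by omega) s' htb ((hle s' (by omega)).trans hn3) _ hord
        · rw [← pow_add]
          calc 3 ^ (I + N) * 2 ^ L ≤ 4 ^ (I + N) * 2 ^ L :=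
                Nat.mul_le_mul_right _ (Nat.pow_le_pow_left (by norm_num) _)
            _ = 2 ^ (2 * (I + N) + L) := by rw [hp4, ← pow_add]
            _ ≤ 2 ^ n := Nat.pow_le_pow_right (by norm_num) (by omega)
      · have h6 : 6 ^ (max ta tb) • θ = 0 := by
          refine addOrderOf_dvd_iff_nsmul_eq_zero.1 ?_
          rw [← hk]
          have : (6 : ℕ) ^ (max ta tb) = 2 ^ (max ta tb) * 3 ^ (max ta tb) := by
            rw [← mul_pow]
            norm_num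
          rw [this]
          exact Nat.mul_dvd_mul (pow_dvd_pow 2 (by omega)) (pow_dvd_pow 3 (by omega))
        exact hnη.le.trans (hKs x hxK y hyK θ hθ h6)

end Pool.Agent.LLN
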