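import Pool.Agent.LLN.Defs

open MeasureTheory Set Filter Topology
open scoped ENNReal NNReal

namespace Pool.Agent.LLN

/-! SEQ. A sequence with gaps `(log N) ^ κ` along which `∑ (1 + log N) ^ β / N` converges, and Markov's inequality. HINT for
`seq_exists`: with `1 + β < κ' < κ`, `0 < κ'`, define `N 0` large, `N (j + 1) = N j + ⌊(log (N j)) ^ κ'⌋ + 1`; then
`(1 + log (N j)) ^ β / N j` is at most a constant times `∑_{N j ≤ n < N (j + 1)} (1 + log n) ^ (β - κ') / n` (`N (j + 1) ≤ 2 N j`), and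
`∑ 1 / (n (1 + log n) ^ (1 + c))` converges (`Real.summable..`, Cauchy condensation `summable_condensed_iff_of_nonneg`).
`cc_of_moments`: `μ (Dev ..) ≤ η ^ (-r) ∫ ‖..‖ ^ r` (`mul_meas_ge_le_integral_of_nonneg`); the integrand is bounded by `2 ^ r` and
continuous. -/

private theorem seq_summable {γ : ℝ} (hγ : 1 < γ) :
    Summable fun n : ℕ => (1 + Real.log n) ^ (-γ) / (n : ℝ) := by
  have hlog : ∀ n : ℕ, 0 ≤ Real.log n := fun n => Real.log_natCast_nonneg n
  rw [← summable_condensed_iff_of_nonneg]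
  · have hl2 : 0 < Real.log 2 := Real.log_pos (by norm_num)
    have hl2' : Real.log 2 ≤ 1 := by
      have := Real.log_two_lt_d9
      linarith
    have hs : Summable fun k : ℕ => Real.log 2 ^ (-γ) * ((k + 1 : ℕ) : ℝ) ^ (-γ) := by
      apply Summable.mul_left
      exact (summable_nat_add_iff 1).2 (Real.summable_nat_rpow.2 (by linarith))
    refine Summable.of_nonneg_of_le (fun k => ?_) (fun k => ?_) hs
    · have := hlog (2 ^ k)
      positivity
    · push_cast
      rw [mul_div_cancel₀ _ (by positivity : (2 : ℝ) ^ k ≠ 0), Real.log_pow,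
        ← Real.mul_rpow hl2.le (by positivity)]
      apply Real.rpow_le_rpow_of_nonpos (by positivity) _ (by linarith)
      nlinarith
  · intro n
    have := hlog n
    positivity
  · intro m n hm hmn
    have hm' : (0 : ℝ) < m := by exact_mod_cast hm
    have hmn' : (m : ℝ) ≤ n := by exact_mod_cast hmn
    have h1 : Real.log m ≤ Real.log n := Real.log_le_log hm' hmn'
    have := hlog m
    have := hlog n
    have h2 : (1 + Real.log n) ^ (-γ) ≤ (1 + Real.log m) ^ (-γ) :=
      Real.rpow_le_rpow_of_nonpos (by linarith) (by linarith) (by linarith)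
    exact div_le_div₀ (by positivity) h2 hm' hmn'

private theorem seq_large {κ κ' : ℝ} (hκκ : κ' < κ) (hκ' : 0 < κ') :
    ∃ M : ℕ, ∀ n : ℕ, M ≤ n → 1 ≤ Real.log n ∧ Real.log n ^ κ' + 1 ≤ Real.log n ^ κ ∧
      Real.log n ^ κ' + 1 ≤ n := by
  have hlog : Tendsto (fun n : ℕ => Real.log n) atTop atTop :=
    Real.tendsto_log_atTop.comp tendsto_natCast_atTop_atTop
  have e1 : ∀ᶠ n : ℕ in atTop, 1 ≤ Real.log n := hlog.eventually_ge_atTop 1
  have e2 : ∀ᶠ n : ℕ in atTop, 2 ≤ Real.log n ^ (κ - κ') :=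
    ((tendsto_rpow_atTop (by linarith : 0 < κ - κ')).comp hlog).eventually_ge_atTop 2
  have e3 : ∀ᶠ n : ℕ in atTop, Real.log n ^ κ' ≤ (1 / 2) * (n : ℝ) := by
    have h := (isLittleO_log_rpow_rpow_atTop κ' (zero_lt_one (α := ℝ))).bound
      (by norm_num : (0 : ℝ) < 1 / 2)
    have h' := tendsto_natCast_atTop_atTop.eventually h
    filter_upwards [h', e1] with n hn h1
    rw [Real.rpow_one, Real.norm_eq_abs, Real.norm_eq_abs, Nat.abs_cast,
      abs_of_nonneg (by positivity)] at hn
    exact hn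
  have e4 : ∀ᶠ n : ℕ in atTop, 2 ≤ n := eventually_ge_atTop 2
  obtain ⟨M, hM⟩ := eventually_atTop.1 (e1.and (e2.and (e3.and e4)))
  refine ⟨M, fun n hn => ?_⟩
  obtain ⟨h1, h2, h3, h4⟩ := hM n hn
  refine ⟨h1, ?_, ?_⟩
  · have h5 : Real.log n ^ κ = Real.log n ^ κ' * Real.log n ^ (κ - κ') := by
      rw [← Real.rpow_add (by linarith)]
      congr 1; ring
    have h6 : 1 ≤ Real.log n ^ κ' := Real.one_le_rpow h1 hκ'.le
    rw [h5]
    nlinarith
  · have h5 : (2 : ℝ) ≤ n := by exact_mod_cast h4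
    linarith

theorem seq_exists {β κ : ℝ} (h : 1 + β < κ) (hκ : 0 < κ) : ∃ N : ℕ → ℕ, StrictMono N ∧
    (∀ j, 1 ≤ N j) ∧ (∀ᶠ j in atTop, (N (j + 1) : ℝ) ≤ N j + Real.log (N j) ^ κ) ∧
      Summable fun j => (1 + Real.log (N j)) ^ β / N j := by
  obtain ⟨κ', h1, h2, h3⟩ : ∃ κ', 1 + β < κ' ∧ 0 < κ' ∧ κ' < κ := by
    refine ⟨(max (1 + β) 0 + κ) / 2, ?_, ?_, ?_⟩
    · have := le_max_left (1 + β) 0
      linarith
    · have := le_max_right (1 + β) 0
      linarith
    · have : max (1 + β) 0 < κ := max_lt h hκ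
      linarith
  obtain ⟨M, hM⟩ := seq_large h3 h2
  set N : ℕ → ℕ := fun j => Nat.rec M (fun _ n => n + ⌊Real.log n ^ κ'⌋₊ + 1) j with hN
  have hN0 : N 0 = M := rfl
  have hNs : ∀ j, N (j + 1) = N j + ⌊Real.log (N j) ^ κ'⌋₊ + 1 := fun j => rfl
  have hmono : StrictMono N := strictMono_nat_of_lt_succ fun j => by rw [hNs]; omega
  have hMN : ∀ j, M ≤ N j := fun j => by rw [← hN0]; exact hmono.monotone (Nat.zero_le j)
  have hN1 : ∀ j, 1 ≤ N j := by
    intro j
    by_contra hcon
    have h0 : N j = 0 := by omega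
    have := (hM (N j) (hMN j)).1
    rw [h0] at this
    simp at this
    linarith
  have hstep : ∀ j, (N (j + 1) : ℝ) ≤ N j + (Real.log (N j) ^ κ' + 1) := by
    intro j
    rw [hNs]
    push_cast
    have hl := (hM (N j) (hMN j)).1
    have : ((⌊Real.log (N j) ^ κ'⌋₊ : ℕ) : ℝ) ≤ Real.log (N j) ^ κ' :=
      Nat.floor_le (by positivity)
    linarith
  refine ⟨N, hmono, hN1, ?_, ?_⟩
  · refine Eventually.of_forall fun j => ?_
    have := (hM (N j) (hMN j)).2.1
    linarith [hstep j]
  · set γ : ℝ := κ' - β with hγ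
    have hγ1 : 1 < γ := by rw [hγ]; linarith
    have hfs := seq_summable hγ1
    set f : ℕ → ℝ := fun n => (1 + Real.log n) ^ (-γ) / (n : ℝ) with hf
    have hf0 : ∀ n, 0 ≤ f n := by
      intro n
      have := Real.log_natCast_nonneg n
      simp only [hf]
      positivity
    set C : ℝ := 2 ^ κ' * 2 ^ γ * 2 with hC
    have hC0 : 0 < C := by positivity
    have hblock : ∀ j, (1 + Real.log (N j)) ^ β / N j ≤ C * ∑ n ∈ Finset.Ico (N j) (N (j + 1)), f n := by
      intro j
      obtain ⟨hl1, hl2, hl3⟩ := hM (N j) (hMN j)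
      have hx0 : (0 : ℝ) < N j := by exact_mod_cast hN1 j
      have hxs := hstep j
      set x : ℝ := (N j : ℝ) with hx
      set L := Real.log x with hL
      set u : ℝ := 1 + L with hu
      have hu0 : 0 < u := by linarith
      have hfn : ∀ n ∈ Finset.Ico (N j) (N (j + 1)), (2 * u) ^ (-γ) / (2 * x) ≤ f n := by
        intro n hn
        rw [Finset.mem_Ico] at hn
        have hn1 : x ≤ n := by rw [hx]; exact_mod_cast hn.1
        have hn2 : (n : ℝ) ≤ 2 * x := by
          have : (n : ℝ) ≤ N (j + 1) := by exact_mod_cast hn.2.le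
          linarith
        have hn0 : (0 : ℝ) < n := lt_of_lt_of_le hx0 hn1
        have hlogn : Real.log n ≤ 1 + L := by
          calc Real.log n ≤ Real.log (2 * x) := Real.log_le_log hn0 hn2
            _ = Real.log 2 + L := Real.log_mul (by norm_num) hx0.ne'
            _ ≤ 1 + L := by
              have := Real.log_two_lt_d9
              linarith
        have hlogn0 : 0 ≤ Real.log n := Real.log_natCast_nonneg n
        have h5 : (2 * u) ^ (-γ) ≤ (1 + Real.log n) ^ (-γ) :=
          Real.rpow_le_rpow_of_nonpos (by linarith) (by linarith) (by linarith)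
        exact div_le_div₀ (by positivity) h5 hn0 hn2
      have hcard : (u / 2) ^ κ' ≤ ((Finset.Ico (N j) (N (j + 1))).card : ℝ) := by
        rw [Nat.card_Ico, hNs]
        have e : N j + ⌊Real.log (N j) ^ κ'⌋₊ + 1 - N j = ⌊Real.log (N j) ^ κ'⌋₊ + 1 := by omega
        rw [e]
        push_cast
        have h6 : (u / 2) ^ κ' ≤ L ^ κ' := Real.rpow_le_rpow (by positivity) (by linarith) h2.le
        exact h6.trans (Nat.lt_floor_add_one (L ^ κ')).le
      have hsum : (u / 2) ^ κ' * ((2 * u) ^ (-γ) / (2 * x)) ≤ ∑ n ∈ Finset.Ico (N j) (N (j + 1)), f n := by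
        calc (u / 2) ^ κ' * ((2 * u) ^ (-γ) / (2 * x))
            ≤ ((Finset.Ico (N j) (N (j + 1))).card : ℝ) * ((2 * u) ^ (-γ) / (2 * x)) :=
              mul_le_mul_of_nonneg_right hcard (by positivity)
          _ = ∑ _n ∈ Finset.Ico (N j) (N (j + 1)), ((2 * u) ^ (-γ) / (2 * x)) := by
              rw [Finset.sum_const, nsmul_eq_mul]
          _ ≤ _ := Finset.sum_le_sum hfn
      calc u ^ β / x = C * ((u / 2) ^ κ' * ((2 * u) ^ (-γ) / (2 * x))) := by
            rw [hC, Real.div_rpow hu0.le (by norm_num), Real.mul_rpow (by norm_num) hu0.le,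
              Real.rpow_neg (by norm_num) γ, Real.rpow_neg hu0.le γ]
            have e2 : u ^ κ' = u ^ β * u ^ γ := by
              rw [← Real.rpow_add hu0]
              congr 1
              rw [hγ]; ring
            rw [e2]
            have a1 : (2 : ℝ) ^ κ' ≠ 0 := (by positivity : (0 : ℝ) < 2 ^ κ').ne'
            have a2 : (2 : ℝ) ^ γ ≠ 0 := (by positivity : (0 : ℝ) < 2 ^ γ).ne'
            have a3 : u ^ γ ≠ 0 := (by positivity : (0 : ℝ) < u ^ γ).ne'
            field_simp
        _ ≤ _ := mul_le_mul_of_nonneg_left hsum hC0.le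
    refine summable_of_sum_range_le (c := C * ∑' n, f n) (fun j => ?_) (fun J => ?_)
    · have := Real.log_natCast_nonneg (N j)
      positivity
    · calc ∑ j ∈ Finset.range J, (1 + Real.log (N j)) ^ β / N j
          ≤ ∑ j ∈ Finset.range J, C * ∑ n ∈ Finset.Ico (N j) (N (j + 1)), f n :=
            Finset.sum_le_sum fun j _ => hblock j
        _ = C * ∑ j ∈ Finset.range J, (∑ n ∈ Finset.range (N (j + 1)), f n - ∑ n ∈ Finset.range (N j), f n) := by
            rw [Finset.mul_sum]
            apply Finset.sum_congr rfl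
            intro j _
            rw [Finset.sum_Ico_eq_sub f (hmono (Nat.lt_succ_self j)).le]
        _ = C * (∑ n ∈ Finset.range (N J), f n - ∑ n ∈ Finset.range (N 0), f n) := by
            rw [Finset.sum_range_sub (fun j => ∑ n ∈ Finset.range (N j), f n)]
        _ ≤ C * ∑' n, f n := by
            apply mul_le_mul_of_nonneg_left _ hC0.le
            have h7 : ∑ n ∈ Finset.range (N J), f n ≤ ∑' n, f n :=
              hfs.sum_le_tsum _ (fun n _ => hf0 n)
            have h8 : 0 ≤ ∑ n ∈ Finset.range (N 0), f n := Finset.sum_nonneg fun n _ => hf0 n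
            linarith

theorem cc_of_moments {μ : Measure T} [IsProbabilityMeasure μ] {p : ℕ} {β : ℝ} {N : ℕ → ℕ}
    (hN : ∀ j, 1 ≤ N j) (hs : Summable fun j => (1 + Real.log (N j)) ^ β / N j)
    (h : ∀ m : ℤ, ∃ (r : ℕ) (C : ℝ), ∀ n : ℕ, 1 ≤ n →
      ∫ x, ‖(n : ℂ)⁻¹ * ∑ i ∈ Finset.range n, fourier m (p ^ i • x) - ∫ y, fourier m y ∂μ‖ ^ r ∂μ ≤
        C * (1 + Real.log n) ^ β / n) : CC μ p N := by
  intro m η hη
  obtain ⟨r, C, hrC⟩ := h m
  have hηr : 0 < η ^ r := pow_pos hη r
  have hs' : Summable fun j => (η ^ r)⁻¹ * C * ((1 + Real.log (N j)) ^ β / N j) := hs.mul_left _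
  refine Summable.of_nonneg_of_le (fun j => ENNReal.toReal_nonneg) (fun j => ?_) hs'
  set g : T → ℝ := fun x => ‖((N j : ℕ) : ℂ)⁻¹ * ∑ i ∈ Finset.range (N j), fourier m (p ^ i • x) -
    ∫ y, fourier m y ∂μ‖ ^ r with hg
  have hcont : Continuous g := by
    apply Continuous.pow
    apply Continuous.norm
    apply Continuous.sub _ continuous_const
    apply Continuous.mul continuous_const
    exact continuous_finsetSum _ (fun i _ => (fourier m).continuous.comp (continuous_nsmul _))
  have hgi : Integrable g μ :=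
    hcont.integrable_of_hasCompactSupport (HasCompactSupport.of_compactSpace _)
  have hg0 : ∀ x, 0 ≤ g x := fun x => by simp only [hg]; positivity
  have hm := mul_meas_ge_le_integral_of_nonneg (Eventually.of_forall hg0) hgi (η ^ r)
  have hsub : Dev μ p m η (N j) ⊆ {x | η ^ r ≤ g x} := by
    intro x hx
    exact pow_le_pow_left₀ hη.le hx r
  have h1 : (μ (Dev μ p m η (N j))).toReal ≤ μ.real {x | η ^ r ≤ g x} := by
    exact ENNReal.toReal_mono (measure_ne_top _ _) (measure_mono hsub)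
  have h2 := hrC (N j) (hN j)
  calc (μ (Dev μ p m η (N j))).toReal ≤ μ.real {x | η ^ r ≤ g x} := h1
    _ = (η ^ r)⁻¹ * (η ^ r * μ.real {x | η ^ r ≤ g x}) := by
        rw [← mul_assoc, inv_mul_cancel₀ hηr.ne', one_mul]
    _ ≤ (η ^ r)⁻¹ * (C * (1 + Real.log (N j)) ^ β / N j) :=
        mul_le_mul_of_nonneg_left (hm.trans h2) (by positivity)
    _ = (η ^ r)⁻¹ * C * ((1 + Real.log (N j)) ^ β / N j) := by ring

end Pool.Agent.LLN
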